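import Mathlib
import Pool.Agent.H2.LN.Defs

/-!
Project MP_b8729f_LN: numerical facts about the parameters.
-/

set_option autoImplicit false

namespace Pool.Agent.H64.LN

open Finset Classical
open Pool.Agent.H2.LN

section
variable {N Δ : ℕ}

theorem nN (hP : Pm N Δ) : (2 : ℝ) ^ 40 ≤ N := by exact_mod_cast hP.big

theorem nN1 (hP : Pm N Δ) : (1 : ℝ) ≤ N := le_trans (by norm_num) (nN hP)

theorem nN0 (hP : Pm N Δ) : (0 : ℝ) < N := lt_of_lt_of_le one_pos (nN1 hP)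

theorem nΔN (hP : Pm N Δ) : (N : ℝ) ^ 40000 ≤ Δ := by exact_mod_cast hP.pow

theorem nΔ1 (hP : Pm N Δ) : (1 : ℝ) ≤ Δ := le_trans (one_le_pow₀ (nN1 hP)) (nΔN hP)

theorem nΔ0 (hP : Pm N Δ) : (0 : ℝ) < Δ := lt_of_lt_of_le one_pos (nΔ1 hP)

theorem nlog (hP : Pm N Δ) : (10 : ℝ) ^ 6 ≤ Real.log Δ := by
  have h1 : Real.log ((N : ℝ) ^ 40000) ≤ Real.log Δ :=
    Real.log_le_log (pow_pos (nN0 hP) _) (nΔN hP)
  have h2 : Real.log ((2 : ℝ) ^ 40) ≤ Real.log N := Real.log_le_log (by norm_num) (nN hP)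
  rw [Real.log_pow] at h1 h2
  have h3 : (0.69 : ℝ) < Real.log 2 := by linarith [Real.log_two_gt_d9]
  push_cast at h1 h2
  nlinarith

/-- `log Δ` is tiny compared with `N` -/
theorem nlogN (hP : Pm N Δ) : (10 : ℝ) ^ 6 * Real.log Δ ≤ N := by
  have h1 := nlog hP
  have h2 : (10 : ℝ) ^ 6 ≤ Real.log Δ ^ 9 := by
    calc (10 : ℝ) ^ 6 ≤ ((10 : ℝ) ^ 6) ^ 9 := by norm_num
      _ ≤ Real.log Δ ^ 9 := pow_le_pow_left₀ (by norm_num) h1 9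
  have h3 : Real.log Δ ^ 10 = Real.log Δ ^ 9 * Real.log Δ := by ring
  have h4 := hP.log
  have h5 : (10 : ℝ) ^ 6 * Real.log Δ ≤ Real.log Δ ^ 9 * Real.log Δ :=
    mul_le_mul_of_nonneg_right h2 (by linarith)
  linarith

/-- the tenth root of `Δ` -/
theorem ntex (hP : Pm N Δ) : ∃ t : ℝ, 0 < t ∧ t ^ 10 = Δ ∧ (N : ℝ) ^ 4000 ≤ t ∧
    (Δ : ℝ) ^ (-(2 : ℝ) / 5) = 1 / t ^ 4 ∧ (Δ : ℝ) ^ (-(23 : ℝ) / 10) = 1 / t ^ 23 ∧
    (Δ : ℝ) ^ ((21 : ℝ) / 10) = t ^ 21 := by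
  have hΔ0 := nΔ0 hP
  obtain ⟨t, ht⟩ : ∃ t : ℝ, t = (Δ : ℝ) ^ ((1 : ℝ) / 10) := ⟨_, rfl⟩
  have ht0 : 0 < t := by rw [ht]; exact Real.rpow_pos_of_pos hΔ0 _
  have hp : ∀ n : ℕ, t ^ n = (Δ : ℝ) ^ ((n : ℝ) / 10) := by
    intro n
    rw [ht, ← Real.rpow_natCast, ← Real.rpow_mul hΔ0.le]
    congr 1
    ring
  have h10 : t ^ 10 = Δ := by
    rw [hp 10]
    norm_num
  refine ⟨t, ht0, h10, ?_, ?_, ?_, ?_⟩
  · refine le_of_pow_le_pow_left₀ (n := 10) (by norm_num) ht0.le ?_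
    rw [h10, ← pow_mul]
    exact nΔN hP
  · rw [hp 4, one_div, ← Real.rpow_neg hΔ0.le]
    congr 1
    norm_num
  · rw [hp 23, one_div, ← Real.rpow_neg hΔ0.le]
    congr 1
    norm_num
  · rw [hp 21]
    norm_num

theorem nk0 (hP : Pm N Δ) : N ^ 50 ≤ 2 ^ k0 N ∧ 2 ^ k0 N ≤ 2 * N ^ 50 := by
  have hN1 : 1 < N := lt_of_lt_of_le (by norm_num) hP.big
  have h1 : 1 < N ^ 50 := Nat.one_lt_pow (by norm_num) hN1
  refine ⟨Nat.le_pow_clog (by norm_num) _, ?_⟩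
  have h2 := Nat.pow_pred_clog_lt_self (b := 2) (by norm_num) h1
  have h3 : 0 < Nat.clog 2 (N ^ 50) := Nat.clog_pos (by norm_num) h1
  have h4 : 2 ^ Nat.clog 2 (N ^ 50) = 2 * 2 ^ (Nat.clog 2 (N ^ 50)).pred := by
    rw [← pow_succ']
    congr 1
    simp only [Nat.pred_eq_sub_one]
    omega
  rw [k0, h4]
  exact Nat.mul_le_mul_left 2 h2.le

theorem nk0pos (hP : Pm N Δ) : 0 < k0 N := by
  have hN1 : 1 < N := lt_of_lt_of_le (by norm_num) hP.big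
  exact Nat.clog_pos (by norm_num) (Nat.one_lt_pow (by norm_num) hN1)

theorem nmT (hP : Pm N Δ) : (N : ℝ) ^ 54 ≤ mT N ∧ (mT N : ℝ) ≤ 4 * (N : ℝ) ^ 54 := by
  obtain ⟨h1, h2⟩ := nk0 hP
  have hN1 : 1 ≤ N := le_trans (by norm_num) hP.big
  have h3 : 1 ≤ N ^ 4 := Nat.one_le_pow _ _ hN1
  constructor
  · have h4 : N ^ 54 ≤ mT N := by
      rw [mT]
      calc N ^ 54 = N ^ 50 * N ^ 4 := by ring
        _ ≤ 2 ^ k0 N * (N ^ 4 + 1) := Nat.mul_le_mul h1 (Nat.le_succ _)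
    exact_mod_cast h4
  · have h4 : mT N ≤ 4 * N ^ 54 := by
      rw [mT]
      calc 2 ^ k0 N * (N ^ 4 + 1) ≤ (2 * N ^ 50) * (2 * N ^ 4) :=
            Nat.mul_le_mul h2 (by omega)
        _ = 4 * N ^ 54 := by ring
    exact_mod_cast h4

theorem nmT0 (hP : Pm N Δ) : (0 : ℝ) < mT N :=
  lt_of_lt_of_le (pow_pos (nN0 hP) _) (nmT hP).1

end

end Pool.Agent.H64.LN
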