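import Pool.Agent.H64.LN.K5
import Pool.Agent.H64.LN.Bnm

/-!
The matrix `P = A_G / Δ` of a regular graph with the gap: mixing in `l2`.
-/

set_option autoImplicit false
set_option linter.unusedSectionVars false

namespace Pool.Agent.H64.LN

open Finset Classical
open Pool.Agent.H65.GI
open Pool.Agent.H2.LN

/-- the matrix `A_G / Δ` -/
noncomputable def PM {V : Type} [Fintype V] (G : SimpleGraph V) (Δ : ℕ) : Matrix V V ℝ :=
  fun x y => if G.Adj x y then 1 / (Δ : ℝ) else 0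

section
variable {V : Type} [Fintype V]

theorem PM_nn (G : SimpleGraph V) (Δ : ℕ) (x y : V) : 0 ≤ PM G Δ x y := by
  simp only [PM]
  split_ifs <;> positivity

theorem PM_symm (G : SimpleGraph V) (Δ : ℕ) (x y : V) : PM G Δ x y = PM G Δ y x := by
  simp only [PM, G.adj_comm]

theorem PM_row (G : SimpleGraph V) (Δ : ℕ) (hΔ : 0 < Δ) (hG : Reg G Δ) (x : V) :
    ∑ y, PM G Δ x y = 1 := by
  simp only [PM]
  rw [← Finset.sum_filter, Finset.sum_const, hG x, nsmul_eq_mul]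
  field_simp

theorem PMk_nn (G : SimpleGraph V) (Δ k : ℕ) (x y : V) : 0 ≤ (PM G Δ ^ k) x y := by
  induction k generalizing x y with
  | zero =>
    rw [pow_zero, Matrix.one_apply]
    split_ifs <;> norm_num
  | succ k ih =>
    rw [pow_succ, Matrix.mul_apply]
    exact Finset.sum_nonneg (fun z _ => mul_nonneg (ih x z) (PM_nn G Δ z y))

theorem PMk_row (G : SimpleGraph V) (Δ : ℕ) (hΔ : 0 < Δ) (hG : Reg G Δ) (k : ℕ) (x : V) :
    ∑ y, (PM G Δ ^ k) x y = 1 := by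
  induction k generalizing x with
  | zero => simp [Matrix.one_apply]
  | succ k ih =>
    simp only [pow_succ, Matrix.mul_apply]
    rw [Finset.sum_comm]
    simp only [← Finset.mul_sum, PM_row G Δ hΔ hG, mul_one]
    exact ih x

theorem PMk_symm (G : SimpleGraph V) (Δ k : ℕ) (x y : V) :
    (PM G Δ ^ k) x y = (PM G Δ ^ k) y x := by
  have h1 : (PM G Δ).transpose = PM G Δ := by
    ext i j
    exact PM_symm G Δ j i
  have h2 : (PM G Δ ^ k).transpose = PM G Δ ^ k := by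
    rw [Matrix.transpose_pow, h1]
  calc (PM G Δ ^ k) x y = (PM G Δ ^ k).transpose y x := rfl
    _ = (PM G Δ ^ k) y x := by rw [h2]

theorem itr_mat (a : V → V → ℝ) (d : ℝ) (v : V) (k : ℕ) (x : V) :
    itr a d v k x = ((Matrix.of fun x y => a x y / d) ^ k : Matrix V V ℝ) v x := by
  induction k generalizing x with
  | zero =>
    simp only [itr, pow_zero, Matrix.one_apply]
    by_cases h : x = v
    · rw [if_pos h, if_pos h.symm]
    · rw [if_neg h, if_neg (fun e => h e.symm)]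
  | succ k ih =>
    simp only [itr, stp]
    rw [pow_succ, Matrix.mul_apply, Finset.sum_div]
    refine Finset.sum_congr rfl (fun y _ => ?_)
    rw [ih y, Matrix.of_apply]
    ring

theorem adjR_row (G : SimpleGraph V) (x : V) :
    ∑ y, adjR G x y = (univ.filter (fun y => G.Adj x y)).card := by
  simp only [adjR]
  rw [← Finset.sum_filter]
  simp

theorem adjR_comm (G : SimpleGraph V) (x y : V) : adjR G x y = adjR G y x := by
  simp only [adjR, G.adj_comm]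

theorem adjR_nn (G : SimpleGraph V) (x y : V) : 0 ≤ adjR G x y := by
  simp only [adjR]
  split_ifs <;> norm_num

theorem adjR_ee (G : SimpleGraph V) (S S' : Finset V) :
    ∑ x ∈ S, ∑ y ∈ S', adjR G x y = (ee G S S' : ℝ) := by
  simp only [adjR, ee, Finset.card_filter]
  push_cast
  rfl

theorem PM_itr (G : SimpleGraph V) (Δ : ℕ) (v : V) (k : ℕ) (x : V) :
    (PM G Δ ^ k) v x = itr (adjR G) Δ v k x := by
  have h1 : PM G Δ = Matrix.of fun x y => adjR G x y / Δ := by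
    ext x y
    simp only [PM, adjR, Matrix.of_apply]
    split_ifs <;> simp
  rw [itr_mat, h1]

/-- the walk of at least `N ^ 3` steps is spread out -/
theorem kk6 {N Δ : ℕ} (hP : Pm N Δ) (G : SimpleGraph V) (hG : Reg G Δ) (hgap : Gap G N Δ)
    (k : ℕ) (hk : N ^ 3 ≤ k) (v : V) :
    ∑ x, ((PM G Δ ^ k) v x) ^ 2 ≤ (N : ℝ) ^ 3 / (2 * (Δ : ℝ) ^ 12) := by
  simp only [PM_itr]
  have hN0 := nN0 hP
  have hN := nN hP
  have hΔ0 := nΔ0 hP
  have hΔ1 := nΔ1 hP
  have hdeg : ∀ x, ∑ y, adjR G x y ≤ (Δ : ℝ) := fun x => by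
    rw [adjR_row, hG x]
  have hN1 : (1 : ℝ) ≤ N := nN1 hP
  have hΔ12 : (1 : ℝ) ≤ (Δ : ℝ) ^ 12 := one_le_pow₀ hΔ1
  have h1 := kk5 (adjR G) Δ (1 / N) (Δ ^ 12) (Nat.one_le_pow _ _ (by exact_mod_cast hΔ0))
    (adjR_nn G) hΔ0 (by positivity) ((div_le_one hN0).2 hN1) hdeg
    (fun y => by
      rw [Finset.sum_congr rfl (fun x _ => adjR_comm G x y)]
      exact hdeg y) univ
    (fun S _ S' _ hS hS' => by
      rw [adjR_ee]
      refine (kk1 G N Δ hgap S S' ?_).trans (le_of_eq ?_)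
      · refine (Finset.card_union_le _ _).trans ((add_le_add hS hS').trans ?_)
        have h2 : 2 ≤ Δ := by
          have h3 : (2 : ℝ) ≤ Δ := by
            calc (2 : ℝ) ≤ N := le_trans (by norm_num) hN
              _ = (N : ℝ) ^ 1 := (pow_one _).symm
              _ ≤ (N : ℝ) ^ 40000 := pow_le_pow_right₀ hN1 (by norm_num)
              _ ≤ Δ := nΔN hP
          exact_mod_cast h3
        calc Δ ^ 12 + Δ ^ 12 = 2 * Δ ^ 12 := by ring
          _ ≤ Δ * Δ ^ 12 := Nat.mul_le_mul_right _ h2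
          _ = Δ ^ 13 := by ring
      · ring) v k (fun i _ x hx => absurd (Finset.mem_univ x) hx) (by
      have h2 := nlogN hP
      have h3 : Real.log ((Δ ^ 12 : ℕ) : ℝ) = 12 * Real.log Δ := by
        push_cast
        rw [Real.log_pow]
        norm_num
      rw [h3]
      have h4 : (N : ℝ) ^ 3 ≤ k := by exact_mod_cast hk
      have h5 : (1 / (N : ℝ)) ^ 2 / 2 * (N : ℝ) ^ 3 = N / 2 := by
        field_simp
      have h6 : (1 / (N : ℝ)) ^ 2 / 2 * (N : ℝ) ^ 3 ≤ (1 / (N : ℝ)) ^ 2 / 2 * k :=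
        mul_le_mul_of_nonneg_left h4 (by positivity)
      have h7 : (0 : ℝ) ≤ Real.log Δ := Real.log_nonneg hΔ1
      linarith)
  refine h1.trans ?_
  push_cast
  have h2 : 8 / ((1 / (N : ℝ)) ^ 2 * (Δ : ℝ) ^ 12) = 8 * N ^ 2 / (Δ : ℝ) ^ 12 := by
    field_simp
  rw [h2, ← add_div, div_le_div_iff₀ (by positivity) (by positivity)]
  have h3 : (1 + 8 * (N : ℝ) ^ 2) * 2 ≤ (N : ℝ) ^ 3 := by
    have h4 : (18 : ℝ) ≤ N := le_trans (by norm_num) hN
    nlinarith [mul_pos hN0 hN0, pow_pos hN0 3]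
  have h5 := mul_le_mul_of_nonneg_right h3 (by positivity : (0 : ℝ) ≤ (Δ : ℝ) ^ 12)
  nlinarith

/-- the walk of at least one step -/
theorem kk6' {Δ : ℕ} (hΔ : 0 < Δ) (G : SimpleGraph V) (hG : Reg G Δ)
    (k : ℕ) (hk : 1 ≤ k) (v : V) : ∑ x, ((PM G Δ ^ k) v x) ^ 2 ≤ 1 / (Δ : ℝ) := by
  have hΔ0 : (0 : ℝ) < Δ := by exact_mod_cast hΔ
  have h1 : ∀ x, (PM G Δ ^ k) v x ≤ 1 / Δ := by
    intro x
    obtain ⟨j, rfl⟩ : ∃ j, k = j + 1 := ⟨k - 1, by omega⟩
    rw [pow_succ, Matrix.mul_apply]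
    calc ∑ z, (PM G Δ ^ j) v z * PM G Δ z x ≤ ∑ z, (PM G Δ ^ j) v z * (1 / Δ) := by
          refine Finset.sum_le_sum (fun z _ => mul_le_mul_of_nonneg_left ?_ (PMk_nn G Δ j v z))
          simp only [PM]
          split_ifs
          · exact le_rfl
          · positivity
      _ = 1 / Δ := by rw [← Finset.sum_mul, PMk_row G Δ hΔ hG, one_mul]
  calc ∑ x, ((PM G Δ ^ k) v x) ^ 2 ≤ ∑ x, (PM G Δ ^ k) v x * (1 / Δ) := by
        refine Finset.sum_le_sum (fun x _ => ?_)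
        rw [pow_two]
        exact mul_le_mul_of_nonneg_left (h1 x) (PMk_nn G Δ k v x)
    _ = 1 / Δ := by rw [← Finset.sum_mul, PMk_row G Δ hΔ hG, one_mul]

/-- contraction of `l2` norms by powers of a symmetric matrix with row sums 1 -/
theorem PMk_l2 (G : SimpleGraph V) (Δ : ℕ) (hΔ : 0 < Δ) (hG : Reg G Δ) (k : ℕ) (g : V → ℝ) :
    ∑ x, (∑ y, (PM G Δ ^ k) x y * g y) ^ 2 ≤ ∑ y, g y ^ 2 := by
  have h1 : ∀ x, (∑ y, (PM G Δ ^ k) x y * g y) ^ 2 ≤ ∑ y, (PM G Δ ^ k) x y * g y ^ 2 := by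
    intro x
    have h2 := Finset.sum_mul_sq_le_sq_mul_sq univ (fun y => Real.sqrt ((PM G Δ ^ k) x y))
      (fun y => Real.sqrt ((PM G Δ ^ k) x y) * g y)
    have h3 : ∀ y, Real.sqrt ((PM G Δ ^ k) x y) * (Real.sqrt ((PM G Δ ^ k) x y) * g y) =
        (PM G Δ ^ k) x y * g y := by
      intro y
      rw [← mul_assoc, Real.mul_self_sqrt (PMk_nn G Δ k x y)]
    have h4 : ∀ y, Real.sqrt ((PM G Δ ^ k) x y) ^ 2 = (PM G Δ ^ k) x y :=
      fun y => Real.sq_sqrt (PMk_nn G Δ k x y)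
    simp only [h3, mul_pow, h4, PMk_row G Δ hΔ hG, one_mul] at h2
    exact h2
  refine (Finset.sum_le_sum (fun x _ => h1 x)).trans (le_of_eq ?_)
  rw [Finset.sum_comm]
  refine Finset.sum_congr rfl (fun y _ => ?_)
  rw [← Finset.sum_mul]
  simp only [PMk_symm G Δ k _ y, PMk_row G Δ hΔ hG, one_mul]

/-- the powers applied to a nonnegative function -/
theorem kk7 {N Δ : ℕ} (hP : Pm N Δ) (G : SimpleGraph V) (hG : Reg G Δ) (hgap : Gap G N Δ)
    (k : ℕ) (hk : N ^ 3 ≤ k) (g : V → ℝ) (hg : ∀ y, 0 ≤ g y) :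
    ∑ x, (∑ y, (PM G Δ ^ k) x y * g y) ^ 2 ≤
      (N : ℝ) ^ 3 / (2 * (Δ : ℝ) ^ 12) * (∑ y, g y) ^ 2 := by
  have h1 : ∀ x, (∑ y, (PM G Δ ^ k) x y * g y) ^ 2 ≤
      (∑ y, g y) * ∑ y, g y * ((PM G Δ ^ k) x y) ^ 2 := by
    intro x
    have h2 := Finset.sum_mul_sq_le_sq_mul_sq univ (fun y => Real.sqrt (g y))
      (fun y => Real.sqrt (g y) * (PM G Δ ^ k) x y)
    have h3 : ∀ y, Real.sqrt (g y) * (Real.sqrt (g y) * (PM G Δ ^ k) x y) =
        (PM G Δ ^ k) x y * g y := by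
      intro y
      rw [← mul_assoc, Real.mul_self_sqrt (hg y), mul_comm]
    have h4 : ∀ y, Real.sqrt (g y) ^ 2 = g y := fun y => Real.sq_sqrt (hg y)
    simp only [h3, mul_pow, h4] at h2
    exact h2
  refine (Finset.sum_le_sum (fun x _ => h1 x)).trans ?_
  rw [← Finset.mul_sum, Finset.sum_comm]
  have h2 : ∑ y, ∑ x, g y * ((PM G Δ ^ k) x y) ^ 2 ≤
      ∑ y, g y * ((N : ℝ) ^ 3 / (2 * (Δ : ℝ) ^ 12)) := by
    refine Finset.sum_le_sum (fun y _ => ?_)
    rw [← Finset.mul_sum]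
    refine mul_le_mul_of_nonneg_left ?_ (hg y)
    simp only [PMk_symm G Δ k _ y]
    exact kk6 hP G hG hgap k hk y
  rw [← Finset.sum_mul] at h2
  have h3 : 0 ≤ ∑ y, g y := Finset.sum_nonneg (fun y _ => hg y)
  have h4 := mul_le_mul_of_nonneg_left h2 h3
  refine h4.trans (le_of_eq ?_)
  ring

end

end Pool.Agent.H64.LN
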