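import Pool.Agent.H64.LN.Bco
import Pool.Agent.H2.LN.Top

/-!
Block B: the exact base.
-/

set_option autoImplicit false
set_option linter.unusedSectionVars false

namespace Pool.Agent.H64.LN

open Finset Classical
open Pool.Agent.H65.GI
open Pool.Agent.H2.LN

section
variable {N Δ : ℕ}

theorem nd0 (hP : Pm N Δ) : ∃ τ : ℝ, 0 ≤ τ ∧ τ ≤ 1 / (N : ℝ) ^ 4000 ∧
    (d0 N Δ : ℝ) ≤ (Δ : ℝ) / mT N * (1 - τ) ∧ (Δ : ℝ) / mT N * (1 - τ) ≤ d0 N Δ + 1 := by
  obtain ⟨t, ht0, ht10, htN, h4, -, -, -, ht1, -⟩ := qD_le hP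
  have hN0 := nN0 hP
  have hτ : (Δ : ℝ) ^ (-(2 : ℝ) / 5) ≤ 1 / (N : ℝ) ^ 4000 := by
    rw [h4]
    apply one_div_le_one_div_of_le (by positivity)
    calc (N : ℝ) ^ 4000 ≤ t := htN
      _ = t ^ 1 := (pow_one t).symm
      _ ≤ t ^ 4 := pow_le_pow_right₀ ht1 (by norm_num)
  have hN1 : 1 / (N : ℝ) ^ 4000 ≤ 1 :=
    (div_le_one (by positivity)).2 (one_le_pow₀ (nN1 hP))
  have hΔm : 0 ≤ (Δ : ℝ) / mT N := div_nonneg (nΔ0 hP).le (nmT0 hP).le
  refine ⟨(Δ : ℝ) ^ (-(2 : ℝ) / 5), Real.rpow_nonneg (nΔ0 hP).le _, hτ, ?_, ?_⟩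
  · rw [d0]
    exact Nat.floor_le (mul_nonneg hΔm (by linarith))
  · rw [d0]
    exact (Nat.lt_floor_add_one _).le

theorem nX (hP : Pm N Δ) : (N : ℝ) ^ 10 ≤ (Δ : ℝ) / mT N := by
  rw [le_div_iff₀ (nmT0 hP)]
  have h1 := (nmT hP).2
  have hN := nN hP
  calc (N : ℝ) ^ 10 * mT N ≤ (N : ℝ) ^ 10 * (4 * N ^ 54) :=
        mul_le_mul_of_nonneg_left h1 (by positivity)
    _ = 4 * N ^ 64 := by ring
    _ ≤ N * N ^ 64 := mul_le_mul_of_nonneg_right (le_trans (by norm_num) hN) (by positivity)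
    _ = (N : ℝ) ^ 65 := by ring
    _ ≤ (N : ℝ) ^ 40000 := pow_le_pow_right₀ (nN1 hP) (by norm_num)
    _ ≤ Δ := nΔN hP

theorem ntau (hP : Pm N Δ) : 1 / (N : ℝ) ^ 4000 ≤ 1 / (N : ℝ) ^ 60 :=
  one_div_le_one_div_of_le (pow_pos (nN0 hP) _)
    (pow_le_pow_right₀ (nN1 hP) (by norm_num))

theorem nd0pos (hP : Pm N Δ) : 0 < d0 N Δ := by
  obtain ⟨τ, hτ0, hτ1, -, h2⟩ := nd0 hP
  have hX := nX hP
  have hN := nN hP
  have h3 : (2 : ℝ) ≤ (N : ℝ) ^ 10 := by
    calc (2 : ℝ) ≤ N := le_trans (by norm_num) hN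
      _ = (N : ℝ) ^ 1 := (pow_one _).symm
      _ ≤ (N : ℝ) ^ 10 := pow_le_pow_right₀ (nN1 hP) (by norm_num)
  have h4 : 1 / (N : ℝ) ^ 4000 ≤ 1 / 4 := by
    apply one_div_le_one_div_of_le (by norm_num)
    calc (4 : ℝ) ≤ N := le_trans (by norm_num) hN
      _ = (N : ℝ) ^ 1 := (pow_one _).symm
      _ ≤ (N : ℝ) ^ 4000 := pow_le_pow_right₀ (nN1 hP) (by norm_num)
  have h5 : 0 < (d0 N Δ : ℝ) := by nlinarith
  exact_mod_cast h5

theorem nd0exp (hP : Pm N Δ) :
    (1 - 1 / (100 * (N : ℝ))) * ((Δ : ℝ) / mT N) ≤ (1 - 1 / (200 * N)) * d0 N Δ := by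
  obtain ⟨τ, hτ0, hτ1, -, h2⟩ := nd0 hP
  have hX := nX hP
  have hN := nN hP
  have hN0 := nN0 hP
  have hN1 := nN1 hP
  obtain ⟨X, hXd⟩ : ∃ X, X = (Δ : ℝ) / mT N := ⟨_, rfl⟩
  rw [← hXd] at hX h2 ⊢
  have h3 : τ ≤ 1 / (400 * N) := by
    refine hτ1.trans (one_div_le_one_div_of_le (by positivity) ?_)
    calc 400 * (N : ℝ) ≤ N * N := by nlinarith
      _ = (N : ℝ) ^ 2 := by ring
      _ ≤ (N : ℝ) ^ 4000 := pow_le_pow_right₀ hN1 (by norm_num)
  have h4 : 1 ≤ X / (400 * N) := by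
    rw [le_div_iff₀ (by positivity)]
    calc 1 * (400 * (N : ℝ)) ≤ N * N := by nlinarith
      _ = (N : ℝ) ^ 2 := by ring
      _ ≤ (N : ℝ) ^ 10 := pow_le_pow_right₀ hN1 (by norm_num)
      _ ≤ X := hX
  have hX0 : 0 ≤ X := le_trans (by positivity) hX
  have h5 : 0 ≤ 1 / (200 * (N : ℝ)) := by positivity
  have h6 : 1 / (200 * (N : ℝ)) ≤ 1 := (div_le_one (by positivity)).2 (by linarith)
  have h7 : (1 - 1 / (200 * (N : ℝ))) * (X * (1 - τ) - 1) ≤ (1 - 1 / (200 * N)) * d0 N Δ :=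
    mul_le_mul_of_nonneg_left (by linarith) (by linarith)
  refine le_trans ?_ h7
  have h8 : X * τ ≤ X * (1 / (400 * N)) := mul_le_mul_of_nonneg_left h3 hX0
  have h9 : X * (1 / (400 * N)) = X / (400 * N) := by ring
  have h10 : (1 - 1 / (100 * (N : ℝ))) * X = X - 4 * (X / (400 * N)) := by
    field_simp
    ring
  have h11 : (1 - 1 / (200 * (N : ℝ))) * (X * (1 - τ) - 1) =
      X - 2 * (X / (400 * N)) - X * τ - 1 + 1 / (200 * N) * (X * τ) + 1 / (200 * N) := by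
    field_simp
    ring
  rw [h10, h11]
  have h12 : 0 ≤ 1 / (200 * (N : ℝ)) * (X * τ) := by positivity
  linarith

theorem nk0N (hP : Pm N Δ) : (4096 : ℝ) * k0 N ≤ N := by
  have hN := nN hP
  have hN0 := nN0 hP
  have hN1 := nN1 hP
  have h1 := nk0 hP
  have h2 : ((2 : ℝ)) ^ k0 N ≤ 2 * (N : ℝ) ^ 50 := by exact_mod_cast h1.2
  have h3 := Real.log_le_log (by positivity) h2
  rw [Real.log_pow, Real.log_mul (by norm_num) (by positivity), Real.log_pow] at h3
  have h4 : Real.log (N : ℝ) ≤ 2 * Real.sqrt N := by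
    have h5 := Real.log_le_rpow_div hN0.le (by norm_num : (0 : ℝ) < 1 / 2)
    rw [← Real.sqrt_eq_rpow] at h5
    linarith
  have h5 : (2 : ℝ) ^ 20 * Real.sqrt N ≤ N := by
    have h6 : (2 : ℝ) ^ 20 ≤ Real.sqrt N := by
      apply Real.le_sqrt_of_sq_le
      have h7 : ((2 : ℝ) ^ 20) ^ 2 = 2 ^ 40 := by norm_num
      rw [h7]
      exact hN
    calc (2 : ℝ) ^ 20 * Real.sqrt N ≤ Real.sqrt N * Real.sqrt N :=
          mul_le_mul_of_nonneg_right h6 (Real.sqrt_nonneg _)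
      _ = N := Real.mul_self_sqrt hN0.le
  have h6 : (0.69 : ℝ) < Real.log 2 := by linarith [Real.log_two_gt_d9]
  have h7 : Real.log 2 < 0.7 := by linarith [Real.log_two_lt_d9]
  push_cast at h3
  have h8 : (0 : ℝ) ≤ k0 N := Nat.cast_nonneg _
  have h9 : (k0 N : ℝ) * 0.69 ≤ 0.7 + 50 * (2 * Real.sqrt N) := by nlinarith
  norm_num at h5
  have hN' : (10000 : ℝ) ≤ N := le_trans (by norm_num) hN
  linarith

/-- the number of exceptional first components -/
theorem nXi (k : ℕ) (z : Fin k) :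
    2 ≤ (univ.filter (fun ξ : Fin k → ZMod 2 => Xi z ξ)).card ∧
      (univ.filter (fun ξ : Fin k → ZMod 2 => Xi z ξ)).card ≤ 2 * k := by
  have hez : (ev z : Fin k → ZMod 2) ≠ 0 := by
    intro h
    have := congrFun h z
    simp [ev] at this
  constructor
  · have h1 : ({0, ev z} : Finset (Fin k → ZMod 2)) ⊆
        univ.filter (fun ξ : Fin k → ZMod 2 => Xi z ξ) := by
      intro ξ hξ
      rw [Finset.mem_insert, Finset.mem_singleton] at hξ
      rw [Finset.mem_filter]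
      refine ⟨Finset.mem_univ _, ?_⟩
      rcases hξ with h | h
      · exact Or.inl h
      · exact Or.inr (Or.inl ⟨z, h⟩)
    have h2 : ({0, ev z} : Finset (Fin k → ZMod 2)).card = 2 :=
      Finset.card_pair (fun h => hez h.symm)
    exact h2.symm.le.trans (Finset.card_le_card h1)
  · have h1 : univ.filter (fun ξ : Fin k → ZMod 2 => Xi z ξ) ⊆
        insert 0 ((univ.image (fun i : Fin k => (ev i : Fin k → ZMod 2))) ∪
          ((univ.erase z).image (fun i : Fin k => (ev i + ev z : Fin k → ZMod 2)))) := by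
      intro ξ hξ
      rw [Finset.mem_filter] at hξ
      rw [Finset.mem_insert, Finset.mem_union, Finset.mem_image, Finset.mem_image]
      rcases hξ.2 with h | ⟨i, h⟩ | ⟨i, hi, h⟩
      · exact Or.inl h
      · exact Or.inr (Or.inl ⟨i, Finset.mem_univ _, h.symm⟩)
      · exact Or.inr (Or.inr ⟨i, Finset.mem_erase.2 ⟨hi, Finset.mem_univ _⟩, h.symm⟩)
    refine (Finset.card_le_card h1).trans ((Finset.card_insert_le _ _).trans ?_)
    have h2 : (univ.image (fun i : Fin k => (ev i : Fin k → ZMod 2))).card ≤ k :=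
      Finset.card_image_le.trans (by simp)
    have h3 : ((univ.erase z).image (fun i : Fin k => (ev i + ev z : Fin k → ZMod 2))).card ≤
        k - 1 := by
      refine Finset.card_image_le.trans ?_
      rw [Finset.card_erase_of_mem (Finset.mem_univ z), Finset.card_univ, Fintype.card_fin]
    have h4 := Finset.card_union_le (univ.image (fun i : Fin k => (ev i : Fin k → ZMod 2)))
      ((univ.erase z).image (fun i : Fin k => (ev i + ev z : Fin k → ZMod 2)))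
    have h5 : 0 < k := lt_of_le_of_lt (Nat.zero_le _) z.2
    omega

/-- the labels -/
abbrev Lb (N Δ : ℕ) (z : Fin (k0 N)) : Type := {κ : Ty N // ¬ Xi z κ.1} × Fin (d0 N Δ)

theorem card_Lb (z : Fin (k0 N)) : ∃ x : ℕ, 2 ≤ x ∧ x ≤ 2 * k0 N ∧ x ≤ 2 ^ k0 N ∧
    Fintype.card (Lb N Δ z) = (2 ^ k0 N - x) * (N ^ 4 + 1) * d0 N Δ := by
  obtain ⟨h1, h2⟩ := nXi (k0 N) z
  obtain ⟨x, hx⟩ : ∃ x, x = (univ.filter (fun ξ : Fin (k0 N) → ZMod 2 => Xi z ξ)).card :=
    ⟨_, rfl⟩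
  rw [← hx] at h1 h2
  have h3 : (univ : Finset (Fin (k0 N) → ZMod 2)).card = 2 ^ k0 N := by
    simp [ZMod.card]
  have h4 : x ≤ 2 ^ k0 N := by
    rw [hx, ← h3]
    exact Finset.card_le_card (Finset.filter_subset _ _)
  refine ⟨x, h1, h2, h4, ?_⟩
  have h5 : Fintype.card {κ : Ty N // ¬ Xi z κ.1} = (2 ^ k0 N - x) * (N ^ 4 + 1) := by
    rw [Fintype.card_subtype]
    have h6 : (univ.filter (fun κ : Ty N => ¬ Xi z κ.1)) =
        (univ.filter (fun ξ : Fin (k0 N) → ZMod 2 => ¬ Xi z ξ)) ×ˢ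
          (univ : Finset (ZMod (N ^ 4 + 1))) := by
      ext κ
      simp only [Finset.mem_filter, Finset.mem_univ, true_and, Finset.mem_product, and_true]
    rw [h6, Finset.card_product, Finset.card_univ, ZMod.card]
    congr 1
    have h7 := Finset.card_filter_add_card_filter_not (s := (univ : Finset (Fin (k0 N) → ZMod 2)))
      (fun ξ => Xi z ξ)
    rw [h3, ← hx] at h7
    omega
  rw [Fintype.card_prod, h5, Fintype.card_fin]

theorem card_Lb_le (hP : Pm N Δ) (z : Fin (k0 N)) :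
    (Fintype.card (Lb N Δ z) : ℝ) + Δ / N ^ 50 ≤ Δ ∧
      (Δ : ℝ) - Δ / N ^ 49 / 1024 ≤ Fintype.card (Lb N Δ z) := by
  obtain ⟨x, hx2, hxk, hx, hc⟩ := card_Lb (N := N) (Δ := Δ) z
  obtain ⟨τ, hτ0, hτ1, hd1, hd2⟩ := nd0 hP
  have hτ2 := hτ1.trans (ntau hP)
  have hN := nN hP
  have hN0 := nN0 hP
  have hN1 := nN1 hP
  have hΔ0 := nΔ0 hP
  have hm0 := nmT0 hP
  have hk := nk0 hP
  have hkN := nk0N hP
  obtain ⟨K, hK⟩ : ∃ K : ℝ, K = (2 : ℝ) ^ k0 N := ⟨_, rfl⟩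
  have hK0 : 0 < K := by rw [hK]; positivity
  have hK1 : (N : ℝ) ^ 50 ≤ K := by rw [hK]; exact_mod_cast hk.1
  have hK2 : K ≤ 2 * (N : ℝ) ^ 50 := by rw [hK]; exact_mod_cast hk.2
  have hm : (mT N : ℝ) = K * (N ^ 4 + 1) := by
    rw [mT, hK]
    push_cast
    ring
  have hs : (Fintype.card (Lb N Δ z) : ℝ) = (K - x) * (N ^ 4 + 1) * d0 N Δ := by
    rw [hc, hK]
    push_cast [Nat.cast_sub hx]
    ring
  have hxK : (x : ℝ) ≤ K := by
    rw [hK]
    exact_mod_cast hx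
  have hx2' : (2 : ℝ) ≤ x := by exact_mod_cast hx2
  have hxk' : (x : ℝ) ≤ 2 * k0 N := by exact_mod_cast hxk
  have hN4 : (0 : ℝ) < (N : ℝ) ^ 4 + 1 := by positivity
  have hKx : 0 ≤ (K - x) * ((N : ℝ) ^ 4 + 1) := mul_nonneg (by linarith) hN4.le
  have hfac : (K - x) * ((N : ℝ) ^ 4 + 1) * ((Δ : ℝ) / mT N) = Δ - Δ * (x / K) := by
    rw [hm]
    field_simp
  constructor
  · have h1 : (K - x) * ((N : ℝ) ^ 4 + 1) * d0 N Δ ≤
        (K - x) * ((N : ℝ) ^ 4 + 1) * ((Δ : ℝ) / mT N) := by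
      refine mul_le_mul_of_nonneg_left (hd1.trans ?_) hKx
      have h2 : 0 ≤ (Δ : ℝ) / mT N := by positivity
      nlinarith
    rw [hs]
    rw [hfac] at h1
    have h2 : (Δ : ℝ) / N ^ 50 ≤ Δ * (x / K) := by
      rw [div_eq_mul_inv, ← one_div]
      refine mul_le_mul_of_nonneg_left ?_ hΔ0.le
      rw [div_le_div_iff₀ (by positivity) hK0]
      nlinarith [pow_pos hN0 50]
    linarith
  · have h1 : (K - x) * ((N : ℝ) ^ 4 + 1) * ((Δ : ℝ) / mT N * (1 - τ) - 1) ≤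
        (K - x) * ((N : ℝ) ^ 4 + 1) * d0 N Δ :=
      mul_le_mul_of_nonneg_left (by linarith) hKx
    rw [hs]
    refine le_trans ?_ h1
    have h2 : (K - x) * ((N : ℝ) ^ 4 + 1) * ((Δ : ℝ) / mT N * (1 - τ) - 1) =
        (Δ - Δ * (x / K)) * (1 - τ) - (K - x) * ((N : ℝ) ^ 4 + 1) := by
      rw [← hfac]
      ring
    rw [h2]
    have h3 : Δ * ((x : ℝ) / K) ≤ Δ / N ^ 49 / 2048 := by
      have h4 : (x : ℝ) / K ≤ 1 / (2048 * N ^ 49) := by
        rw [div_le_div_iff₀ hK0 (by positivity)]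
        calc (x : ℝ) * (2048 * N ^ 49) ≤ (2 * k0 N) * (2048 * N ^ 49) :=
              mul_le_mul_of_nonneg_right hxk' (by positivity)
          _ = (4096 * k0 N) * N ^ 49 := by ring
          _ ≤ N * N ^ 49 := mul_le_mul_of_nonneg_right hkN (by positivity)
          _ = (N : ℝ) ^ 50 := by ring
          _ ≤ 1 * K := by linarith
      calc Δ * ((x : ℝ) / K) ≤ Δ * (1 / (2048 * N ^ 49)) :=
            mul_le_mul_of_nonneg_left h4 hΔ0.le
        _ = Δ / N ^ 49 / 2048 := by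
            field_simp
    have h4 : (K - x) * ((N : ℝ) ^ 4 + 1) ≤ Δ / N ^ 60 := by
      have h5 : (K - x) * ((N : ℝ) ^ 4 + 1) ≤ mT N := by
        rw [hm]
        exact mul_le_mul_of_nonneg_right (by linarith) hN4.le
      refine h5.trans ((nmT hP).2.trans ?_)
      rw [le_div_iff₀ (by positivity)]
      calc 4 * (N : ℝ) ^ 54 * (N : ℝ) ^ 60 = 4 * (N : ℝ) ^ 114 := by ring
        _ ≤ (N : ℝ) * (N : ℝ) ^ 114 :=
            mul_le_mul_of_nonneg_right (le_trans (by norm_num) hN) (by positivity)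
        _ = (N : ℝ) ^ 115 := by ring
        _ ≤ (N : ℝ) ^ 40000 := pow_le_pow_right₀ hN1 (by norm_num)
        _ ≤ Δ := nΔN hP
    have h5 : (Δ - Δ * ((x : ℝ) / K)) * τ ≤ Δ / N ^ 60 := by
      have h6 : 0 ≤ Δ * ((x : ℝ) / K) := by positivity
      calc (Δ - Δ * ((x : ℝ) / K)) * τ ≤ Δ * τ := mul_le_mul_of_nonneg_right (by linarith) hτ0
        _ ≤ Δ * (1 / N ^ 60) := mul_le_mul_of_nonneg_left hτ2 hΔ0.le
        _ = Δ / N ^ 60 := by ring
    have h6 : Δ / (N : ℝ) ^ 60 ≤ Δ / N ^ 49 / 4096 := by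
      rw [div_div]
      refine div_le_div_of_nonneg_left hΔ0.le (by positivity) ?_
      calc (N : ℝ) ^ 49 * 4096 ≤ N ^ 49 * N :=
            mul_le_mul_of_nonneg_left (le_trans (by norm_num) hN) (by positivity)
        _ = (N : ℝ) ^ 50 := by ring
        _ ≤ (N : ℝ) ^ 60 := pow_le_pow_right₀ hN1 (by norm_num)
    have h7 : (Δ - Δ * ((x : ℝ) / K)) * (1 - τ) =
        Δ - Δ * (x / K) - (Δ - Δ * ((x : ℝ) / K)) * τ := by ring
    have h8 : (Δ : ℝ) / N ^ 49 / 1024 = Δ / N ^ 49 / 2048 + Δ / N ^ 49 / 4096 +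
        Δ / N ^ 49 / 4096 := by ring
    rw [h7, h8]
    linarith

theorem crd_ex (z : Fin (k0 N)) (κ : Ty N) (h : ¬ Xi z κ.1) : ∃ i, i ≠ z ∧ κ.1 i = 1 := by
  by_contra hc
  push Not at hc
  have h2 : ∀ a : ZMod 2, a ≠ 1 → a = 0 := by decide
  apply h
  by_cases hz : κ.1 z = 0
  · left
    funext i
    by_cases hi : i = z
    · rw [hi]
      exact hz
    · exact h2 _ (hc i hi)
  · right
    left
    refine ⟨z, ?_⟩
    have h3 : ∀ a : ZMod 2, a ≠ 0 → a = 1 := by decide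
    funext i
    by_cases hi : i = z
    · rw [hi, h3 _ hz]
      simp [ev]
    · rw [h2 _ (hc i hi)]
      simp [ev, hi]

end

theorem bas_main : Pool.Agent.H2.LN.Top.BasP := by
  intro N Δ hP V _ G hG χ hE
  obtain ⟨ω, hω1, hω2⟩ := coins hP G hG hE
  have hN := nN hP
  have hN0 := nN0 hP
  have hN1 := nN1 hP
  have hNN : 1 ≤ N := by
    have := hP.big
    omega
  have hN3 : 1 ≤ N ^ 3 := Nat.one_le_pow _ _ hNN
  have hΔ0 := nΔ0 hP
  have hd0 : (0 : ℝ) < d0 N Δ := by exact_mod_cast nd0pos hP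
  have hF : ∀ κ : Ty N, ∃ F : SimpleGraph V, (∀ u v, F.Adj u v → (cg G χ κ).Adj u v) ∧
      (κ.1 ≠ 0 → ∀ v, v ∉ Dk G χ κ ω → (univ.filter (fun w => F.Adj v w)).card = d0 N Δ) ∧
      (κ.1 ≠ 0 → ∀ v ∈ Dk G χ κ ω, d0 N Δ ≤ (univ.filter (fun w => F.Adj v w)).card + 1) ∧
      ∀ v, (univ.filter (fun w => F.Adj v w)).card ≤ d0 N Δ := by
    intro κ
    by_cases hκ : κ.1 = 0
    · exact ⟨⊥, fun u v h => h.elim, fun h => absurd hκ h, fun h => absurd hκ h,
        fun v => by simp⟩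
    · obtain ⟨F, h1, h2, h3⟩ := cls_graph hP hE κ hκ (Dk G χ κ ω) (fun x => hω2 κ hκ x)
      refine ⟨F, h1, fun _ => h2, fun _ v hv => (h3 v hv).1, fun v => ?_⟩
      by_cases hv : v ∈ Dk G χ κ ω
      · exact (h3 v hv).2
      · exact (h2 v hv).le
  choose F hF1 hF2 hF3 hF4 using hF
  obtain ⟨z, -⟩ : ∃ z : Fin (k0 N), True := ⟨⟨0, nk0pos hP⟩, trivial⟩
  have hM : ∀ κ : {κ : Ty N // ¬ Xi z κ.1}, ∃ M : Fin (d0 N Δ) → V → V,
      (∀ j v, M j (M j v) = v) ∧ (∀ j v, M j v ≠ v → (F κ.1).Adj v (M j v)) ∧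
      (∀ i j v, i ≠ j → M i v ≠ v → M i v ≠ M j v) ∧
      ∀ v, (univ.filter (fun j => M j v = v)).card +
        (univ.filter (fun w => (F κ.1).Adj v w)).card = d0 N Δ := by
    intro κ
    obtain ⟨i, -, hi⟩ := crd_ex z κ.1 κ.2
    have hi0 : κ.1.1 i ≠ 0 := by
      rw [hi]
      decide
    refine Pool.Agent.H64.GI.koenig (F κ.1) (fun u => decide ((χ u).1 i = 0)) ?_ (d0 N Δ)
      (hF4 κ.1)
    intro u v h
    rcases cg_side hi0 (hF1 κ.1 u v h) with ⟨h1, h2⟩ | ⟨h1, h2⟩ <;> simp [h1, h2]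
  choose M hM1 hM2 hM3 hM4 using hM
  have hκ0 : ∀ κ : {κ : Ty N // ¬ Xi z κ.1}, κ.1.1 ≠ 0 := fun κ h => κ.2 (Or.inl h)
  choose cr hcr1 hcr2 using (fun κ : {κ : Ty N // ¬ Xi z κ.1} => crd_ex z κ.1 κ.2)
  let e : Fin (Fintype.card (Lb N Δ z)) ≃ Lb N Δ z := (Fintype.equivFin _).symm
  have hfix : ∀ (κ : {κ : Ty N // ¬ Xi z κ.1}) (v : V), v ∉ Dk G χ κ.1 ω →
      ∀ j, M κ j v ≠ v := by
    intro κ v hv j hj
    have h1 := hM4 κ v
    rw [hF2 κ.1 (hκ0 κ) v hv] at h1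
    have h2 : (univ.filter (fun j => M κ j v = v)).card = 0 := by omega
    rw [Finset.card_eq_zero, Finset.filter_eq_empty_iff] at h2
    exact h2 (Finset.mem_univ j) hj
  have hDk : ∀ κ, Dk G χ κ ω ⊆ Ds G ω := fun κ => Finset.filter_subset _ _
  refine ⟨Fintype.card (Lb N Δ z), Ds G ω, fun κ v => univ.filter (fun w => (F κ).Adj v w),
    fun α => (e α).1.1, fun α => cr (e α).1, fun α => M (e α).1 (e α).2, z, ?_⟩
  refine
    { sle := (card_Lb_le hP z).1
      sge := (card_Lb_le hP z).2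
      Hsym := ?_
      Hadj := ?_
      Hle := fun κ v => hF4 κ v
      Hge := ?_
      Heq := ?_
      clX := fun α => (e α).1.2
      crz := fun α => hcr1 _
      cr1 := fun α => hcr2 _
      inv := fun α v => hM1 _ _ v
      adj := ?_
      dis := ?_
      off := ?_
      on := ?_
      sep := ?_
      few := ?_
      mix := ?_ }
  · intro κ u v h
    simp only [Finset.mem_filter, Finset.mem_univ, true_and] at h ⊢
    exact h.symm
  · intro κ u v h
    simp only [Finset.mem_filter, Finset.mem_univ, true_and] at h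
    exact hF1 κ v u h
  · intro κ v hκ
    by_cases hv : v ∈ Dk G χ κ ω
    · exact hF3 κ hκ v hv
    · rw [hF2 κ hκ v hv]
      exact Nat.le_succ _
  · intro κ v hκ hv
    exact hF2 κ hκ v (fun h => hv (hDk κ h))
  · intro α v h
    exact hF1 _ _ _ (hM2 _ _ v h)
  · intro α β v hαβ hα hβ
    have h1 : (e α).1 = (e β).1 := by
      apply Subtype.ext
      have h2 := (hF1 _ _ _ (hM2 _ _ v hα)).2
      have h3 : M (e β).1 (e β).2 v ≠ v := by
        rw [← hβ]
        exact hα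
      have h4 := (hF1 _ _ _ (hM2 _ _ v h3)).2
      rw [← h2, ← h4, hβ]
    have h2 : (e α).2 ≠ (e β).2 := fun h => hαβ (e.injective (Prod.ext h1 h))
    apply hM3 (e α).1 (e α).2 (e β).2 v h2 hα
    rw [hβ, h1]
  · intro α v hv
    exact hfix _ v (fun h => hv (hDk _ h)) _
  · intro v
    rw [Finset.card_le_one]
    intro α hα β hβ
    simp only [Finset.mem_filter, Finset.mem_univ, true_and] at hα hβ
    have h1 : ∀ γ, M (e γ).1 (e γ).2 v = v → (e γ).1.1 = χ v + (ω v).2 := by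
      intro γ hγ
      by_contra hne
      refine hfix (e γ).1 v (fun h => hne ?_) _ hγ
      exact (mem_Dk.1 h).1.2.symm
    have h2 : (e α).1 = (e β).1 := Subtype.ext ((h1 α hα).trans (h1 β hβ).symm)
    have h3 : (univ.filter (fun j => M (e α).1 j v = v)).card ≤ 1 := by
      have h4 := hM4 (e α).1 v
      by_cases hv : v ∈ Dk G χ (e α).1.1 ω
      · have h5 := hF3 _ (hκ0 (e α).1) v hv
        omega
      · have h5 := hF2 _ (hκ0 (e α).1) v hv
        omega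
    rw [Finset.card_le_one] at h3
    have h4 : (e α).2 = (e β).2 := by
      apply h3
      · simp only [Finset.mem_filter, Finset.mem_univ, true_and]
        exact hα
      · simp only [Finset.mem_filter, Finset.mem_univ, true_and]
        rw [h2]
        exact hβ
    exact e.injective (Prod.ext h2 h4)
  · intro u hu v hv huv
    simp only [Ds, Finset.mem_filter, Finset.mem_univ, true_and] at hu hv
    refine ⟨fun h => ?_, fun x h => ?_⟩
    · exact hu.2 v (bl_mono G u (by norm_num) (bl_adj G (bl_self G u 0) h)) huv.symm hv.1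
    · exact hu.2 v (bl_adj G (bl_adj G (bl_self G u 0) h.1) h.2) huv.symm hv.1
  · intro v
    refine (Finset.card_le_card ?_).trans (hω1 v)
    intro x hx
    simp only [Finset.mem_filter, Ds, Finset.mem_univ, true_and] at hx ⊢
    exact ⟨hx.1, hx.2.1⟩
  · intro κ v f hκ hf0 hfs hf1
    have hstp : ∀ x, stp (adjR (F κ)) (d0 N Δ) f x =
        (∑ y ∈ univ.filter (fun w => (F κ).Adj x w), f y) / d0 N Δ := by
      intro x
      simp only [stp, adjR]
      congr 1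
      rw [Finset.sum_filter]
      refine Finset.sum_congr rfl (fun y _ => ?_)
      simp only [(F κ).adj_comm y x, mul_ite, mul_one, mul_zero]
    simp only [← hstp]
    have h1 := kk3 (adjR (F κ)) (d0 N Δ) (1 / (200 * N)) (Δ ^ 12)
      (Nat.one_le_pow _ _ (by exact_mod_cast hΔ0)) (adjR_nn _) hd0 (by positivity)
      ((div_le_one (by positivity)).2 (by linarith))
      (fun x => by
        rw [adjR_row]
        exact_mod_cast hF4 κ x)
      (fun y => by
        rw [Finset.sum_congr rfl (fun x _ => adjR_comm (F κ) x y), adjR_row]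
        exact_mod_cast hF4 κ y)
      (bl G v (8 * N ^ 3))
      (fun S hS S' hS' hc hc' => by
        rw [adjR_ee]
        have h2 : (ee (F κ) S S' : ℝ) ≤ ee (cg G χ κ) S S' := by
          have h3 : ee (F κ) S S' ≤ ee (cg G χ κ) S S' := by
            refine Finset.sum_le_sum (fun x _ => Finset.card_le_card ?_)
            intro y hy
            rw [Finset.mem_filter] at hy ⊢
            exact ⟨hy.1, hF1 κ x y hy.2⟩
          exact_mod_cast h3
        refine h2.trans ((cg_exp hE κ hκ v S S' hS hS' hc hc').trans ?_)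
        exact mul_le_mul_of_nonneg_right (nd0exp hP) (by positivity))
      f hf0 hf1
      (fun x hx => hfs x (fun h => hx (bl_mono G v (by omega) h)))
      (fun x hx => by
        rw [hstp, Finset.sum_eq_zero, zero_div]
        intro y hy
        rw [Finset.mem_filter] at hy
        apply hfs
        intro h
        apply hx
        exact bl_mono G v (by omega) (bl_adj G h (hF1 κ x y hy.2).1.symm))
    refine h1.trans ?_
    push_cast
    have h2 : 0 ≤ ∑ x, f x ^ 2 := Finset.sum_nonneg (fun x _ => sq_nonneg _)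
    have h3 : 1 - (1 / (200 * (N : ℝ))) ^ 2 / 2 ≤ 1 - 1 / (10 ^ 5 * (N : ℝ) ^ 2) := by
      have h4 : (1 / (200 * (N : ℝ))) ^ 2 / 2 = 1 / (80000 * N ^ 2) := by
        field_simp
        norm_num
      rw [h4]
      have h5 : 1 / (10 ^ 5 * (N : ℝ) ^ 2) ≤ 1 / (80000 * N ^ 2) := by
        apply one_div_le_one_div_of_le (by positivity)
        have : (0 : ℝ) ≤ (N : ℝ) ^ 2 := by positivity
        nlinarith
      linarith
    have h4 := mul_le_mul_of_nonneg_right h3 h2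
    linarith

end Pool.Agent.H64.LN
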