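import Mathlib
import Pool.Agent.H65.GI.Defs
import Pool.Agent.H64.GI.Rtl
import Pool.Agent.H65.GI.Lll

/-!
ROW LNMoo. Moore bound for subsets of a graph of large girth.
PROOF. `TL F k` (`tl_girth`, file `Pool/Agent/H64/GI/Rtl.lean`: `(2k+1) ≤ egirth → TL F k`). Strong induction on `S.card`. For `v ∈ S` let `dS v = (S.filter (F.Adj v)).card`.
(a) If some `v ∈ S` has `dS v ≤ 1 + t`: with `S' = S.erase v`: `∑ x ∈ S, dS x = ∑ x ∈ S', (S'.filter (F.Adj x)).card + 2 * dS v` (the pairs `(x, v)`, `(v, x)`), so by induction `≤ (2+2t)|S'| + 2(1+t) = (2+2t)|S|`.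
(b) Otherwise `dS v > 1 + t` for all `v ∈ S`. `S` is not empty (if it is, the claim is `0 ≤ 0`). Take `a ∈ S` and `b ∈ S` adjacent (`dS a > 1 + t ≥ 1`). Claim: for `1 ≤ n ≤ k` the number of pairs... use only ends: let `E n = {x ∈ S : ∃ y ∈ S, Nb' n}` where the walks stay in `S`:
define `P n : Finset V` := the `x` such that there is a non-backtracking walk `Nb (F.induce..)`; simplest: let `F' : SimpleGraph V`, `F'.Adj u v := F.Adj u v ∧ u ∈ S ∧ v ∈ S`; `TL F' k` (a walk of `F'` is a walk of `F`), degrees of `F'` at the points of `S` are `dS > 1 + t`.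
Let `L n = {x : ∃ b y, Nb F' a b n y x}` (`n < k`): `|L 0| = dS a ≥ 1 + t ≥ t`; `|L (n+1)| ≥ t |L n|` for `n + 1 < k`: every `x ∈ L n` has a unique predecessor `y` (`TL.uniq`), and at least `dS x - 1 ≥ t` neighbours `z ≠ y`; they are in `L (n+1)`; for different `x` the `z` are different (`TL.uniq` gives the predecessor of `z`).
So `|L (k-1)| ≥ (1+t) t^(k-1) > t^k` if `t > 0`; and `L (k-1) ⊆ S`, so `|S| > t^k ≥ n`: contradiction. If `t = 0`: then `t^k = 0`, so `S.card ≤ 0`, `S = ∅`.
(`Pool/Agent/H65/GI/Sid.lean`, `Pool/Agent/H64/GI/Awk.lean` have similar counting arguments.)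
-/

set_option autoImplicit false

namespace Pool.Agent.H64.LN

open Finset Classical
open Pool.Agent.H65.GI

private theorem Moo_sum {V : Type} (F : SimpleGraph V) (S : Finset V) (v : V) (hv : v ∈ S) :
    ∑ x ∈ S, (S.filter (fun y => F.Adj x y)).card =
      (∑ x ∈ S.erase v, ((S.erase v).filter (fun y => F.Adj x y)).card) +
        2 * (S.filter (fun y => F.Adj v y)).card := by
  have h1 : ∀ (A : Finset V) (x : V), (A.filter (fun y => F.Adj x y)).card =
      ∑ y ∈ A, if F.Adj x y then 1 else 0 := fun A x => Finset.card_filter _ _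
  simp only [h1]
  rw [← Finset.add_sum_erase S _ hv]
  have h2 : ∀ x, (∑ y ∈ S, if F.Adj x y then 1 else 0) =
      (if F.Adj x v then 1 else 0) + ∑ y ∈ S.erase v, if F.Adj x y then 1 else 0 :=
    fun x => (Finset.add_sum_erase S _ hv).symm
  have h3 : (∑ x ∈ S.erase v, ∑ y ∈ S, if F.Adj x y then 1 else 0) =
      (∑ x ∈ S.erase v, if F.Adj x v then 1 else 0) +
        ∑ x ∈ S.erase v, ∑ y ∈ S.erase v, if F.Adj x y then 1 else 0 := by
    rw [← Finset.sum_add_distrib]
    exact Finset.sum_congr rfl (fun x _ => h2 x)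
  have h4 : (∑ x ∈ S.erase v, if F.Adj x v then 1 else 0) =
      ∑ y ∈ S, if F.Adj v y then 1 else 0 := by
    rw [h2 v, if_neg (F.loopless.irrefl v), zero_add]
    refine Finset.sum_congr rfl (fun x _ => ?_)
    simp only [F.adj_comm]
  rw [h3, h4]
  ring

/-- the graph restricted to `S` -/
private def rsG {V : Type} (F : SimpleGraph V) (S : Finset V) : SimpleGraph V where
  Adj u v := F.Adj u v ∧ u ∈ S ∧ v ∈ S
  symm := ⟨fun _ _ h => ⟨h.1.symm, h.2.2, h.2.1⟩⟩
  loopless := ⟨fun v h => F.loopless.irrefl v h.1⟩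

private theorem rsG_nb {V : Type} {F : SimpleGraph V} {S : Finset V} {a b y x : V} {n : ℕ}
    (h : Nb (rsG F S) a b n y x) : Nb F a b n y x := by
  induction h with
  | base h => exact Nb.base h.1
  | step _ h2 h3 ih => exact Nb.step ih h2.1 h3

private theorem rsG_mem {V : Type} {F : SimpleGraph V} {S : Finset V} {a b y x : V} {n : ℕ}
    (h : Nb (rsG F S) a b n y x) : x ∈ S := by
  cases h with
  | base h => exact h.2.2
  | step _ h2 _ => exact h2.2.2

private theorem rsG_tl {V : Type} [Fintype V] {F : SimpleGraph V} {k : ℕ} (h : TL F k)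
    (S : Finset V) : TL (rsG F S) k :=
  ⟨fun a b n y x hn hw => h.ne a b n y x hn (rsG_nb hw),
   fun a b b' n n' y y' x hn hn' h1 h2 => h.uniq a b b' n n' y y' x hn hn' (rsG_nb h1) (rsG_nb h2)⟩

/-- the ends of the walks of `n + 1` steps -/
private noncomputable def Lv {V : Type} [Fintype V] (F : SimpleGraph V) (a : V) (n : ℕ) : Finset V :=
  univ.filter (fun x => ∃ b y, Nb F a b n y x)

private theorem Lv_succ {V : Type} [Fintype V] {F : SimpleGraph V} {k : ℕ} (hF : TL F k) (t : ℝ)
    (S : Finset V) (hS : ∀ x ∈ S, 1 + t ≤ (univ.filter (fun y => F.Adj x y)).card)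
    (hm : ∀ a b n y x, Nb F a b n y x → x ∈ S) (a : V) (n : ℕ) (hn : n + 1 < k) :
    t * (Lv F a n).card ≤ (Lv F a (n + 1)).card := by
  have h1 : ∀ x, ∃ y, x ∈ Lv F a n → ∃ b, Nb F a b n y x := by
    intro x
    by_cases hx : x ∈ Lv F a n
    · simp only [Lv, Finset.mem_filter, Finset.mem_univ, true_and] at hx
      obtain ⟨b, y, h⟩ := hx
      exact ⟨y, fun _ => ⟨b, h⟩⟩
    · exact ⟨x, fun h => absurd h hx⟩
  choose p hp using h1
  let T : V → Finset V := fun x => univ.filter (fun z => F.Adj x z ∧ z ≠ p x)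
  have hT : ∀ x ∈ Lv F a n, t ≤ ((T x).card : ℝ) := by
    intro x hx
    obtain ⟨b, hb⟩ := hp x hx
    have h2 := hS x (hm _ _ _ _ _ hb)
    have h3 : (univ.filter (fun y => F.Adj x y)) ⊆ insert (p x) (T x) := by
      intro z hz
      simp only [Finset.mem_filter, Finset.mem_univ, true_and] at hz
      simp only [T, Finset.mem_insert, Finset.mem_filter, Finset.mem_univ, true_and]
      by_cases hzp : z = p x
      · exact Or.inl hzp
      · exact Or.inr ⟨hz, hzp⟩
    have h4 : ((univ.filter (fun y => F.Adj x y)).card : ℝ) ≤ (T x).card + 1 := by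
      exact_mod_cast (Finset.card_le_card h3).trans (Finset.card_insert_le _ _)
    linarith
  have hN : ∀ x ∈ Lv F a n, ∀ z ∈ T x, ∃ b, Nb F a b (n + 1) x z := by
    intro x hx z hz
    obtain ⟨b, hb⟩ := hp x hx
    simp only [T, Finset.mem_filter, Finset.mem_univ, true_and] at hz
    exact ⟨b, Nb.step hb hz.1 hz.2⟩
  have hsub : (Lv F a n).biUnion T ⊆ Lv F a (n + 1) := by
    intro z hz
    obtain ⟨x, hx, hzx⟩ := Finset.mem_biUnion.1 hz
    obtain ⟨b, hb⟩ := hN x hx z hzx
    simp only [Lv, Finset.mem_filter, Finset.mem_univ, true_and]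
    exact ⟨b, x, hb⟩
  have hdis : ((Lv F a n : Finset V) : Set V).PairwiseDisjoint T := by
    intro x hx x' hx' hne
    rw [Function.onFun, Finset.disjoint_left]
    intro z hz hz'
    obtain ⟨b, hb⟩ := hN x hx z hz
    obtain ⟨b', hb'⟩ := hN x' hx' z hz'
    exact hne (hF.uniq a b b' (n + 1) (n + 1) x x' z hn hn hb hb').2.2
  have h5 := Finset.card_le_card hsub
  rw [Finset.card_biUnion hdis] at h5
  have h6 : (∑ x ∈ Lv F a n, t) ≤ ∑ x ∈ Lv F a n, ((T x).card : ℝ) := Finset.sum_le_sum hT
  rw [Finset.sum_const, nsmul_eq_mul] at h6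
  have h7 : (∑ x ∈ Lv F a n, ((T x).card : ℝ)) ≤ (Lv F a (n + 1)).card := by
    exact_mod_cast h5
  linarith [mul_comm t ((Lv F a n).card : ℝ)]

theorem moore {V : Type} [Fintype V] (F : SimpleGraph V) (k : ℕ) (hk : 1 ≤ k)
    (hF : ((2 * k + 1 : ℕ) : ℕ∞) ≤ F.egirth) (t : ℝ) (ht : 0 ≤ t) (S : Finset V)
    (hS : (S.card : ℝ) ≤ t ^ k) :
    ((∑ x ∈ S, (S.filter (fun y => F.Adj x y)).card : ℕ) : ℝ) ≤ (2 + 2 * t) * S.card := by
  have hTL : TL F k := Pool.Agent.H64.GI.tl_main V F k hF
  rcases ht.eq_or_lt with ht0 | ht0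
  · rw [← ht0, zero_pow (by omega)] at hS
    have h0 : S.card = 0 := by exact_mod_cast le_antisymm hS (Nat.cast_nonneg _)
    rw [Finset.card_eq_zero] at h0
    subst h0
    simp
  induction S using Finset.strongInduction with
  | H S ih =>
    by_cases hv : ∃ v ∈ S, ((S.filter (fun y => F.Adj v y)).card : ℝ) ≤ 1 + t
    · obtain ⟨v, hv, hd⟩ := hv
      have hss := Finset.erase_ssubset hv
      have h1 := ih (S.erase v) hss (le_trans (by exact_mod_cast Finset.card_le_card hss.1) hS)
      rw [Moo_sum F S v hv]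
      have h2 : (S.card : ℝ) = (S.erase v).card + 1 := by
        rw [← Finset.card_erase_add_one hv]
        push_cast
        ring
      rw [h2]
      push_cast at h1 ⊢
      nlinarith
    · push Not at hv
      rcases S.eq_empty_or_nonempty with h0 | ⟨a, ha⟩
      · subst h0
        simp
      exfalso
      have hdeg : ∀ x ∈ S, 1 + t ≤ (univ.filter (fun y => (rsG F S).Adj x y)).card := by
        intro x hx
        refine (hv x hx).le.trans ?_
        have h1 : (S.filter (fun y => F.Adj x y)) ⊆ univ.filter (fun y => (rsG F S).Adj x y) := by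
          intro y hy
          rw [Finset.mem_filter] at hy
          simp only [Finset.mem_filter, Finset.mem_univ, true_and]
          exact ⟨hy.2, hx, hy.1⟩
        exact_mod_cast Finset.card_le_card h1
      have hlv : ∀ n < k, (1 + t) * t ^ n ≤ (Lv (rsG F S) a n).card := by
        intro n
        induction n with
        | zero =>
          intro _
          have h1 : univ.filter (fun y => (rsG F S).Adj a y) ⊆ Lv (rsG F S) a 0 := by
            intro y hy
            simp only [Finset.mem_filter, Finset.mem_univ, true_and] at hy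
            simp only [Lv, Finset.mem_filter, Finset.mem_univ, true_and]
            exact ⟨y, a, Nb.base hy⟩
          have h2 : ((univ.filter (fun y => (rsG F S).Adj a y)).card : ℝ) ≤
            (Lv (rsG F S) a 0).card := by exact_mod_cast Finset.card_le_card h1
          rw [pow_zero, mul_one]
          exact (hdeg a ha).trans h2
        | succ n ihn =>
          intro hn
          have h1 := Lv_succ (rsG_tl hTL S) t S hdeg (fun a b n y x h => rsG_mem h) a n hn
          have h2 := ihn (by omega)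
          have h3 := mul_le_mul_of_nonneg_left h2 ht
          rw [pow_succ]
          nlinarith
      have h1 := hlv (k - 1) (by omega)
      have h2 : Lv (rsG F S) a (k - 1) ⊆ S := by
        intro x hx
        simp only [Lv, Finset.mem_filter, Finset.mem_univ, true_and] at hx
        obtain ⟨b, y, h⟩ := hx
        exact rsG_mem h
      have h3 : ((Lv (rsG F S) a (k - 1)).card : ℝ) ≤ S.card := by
        exact_mod_cast Finset.card_le_card h2
      have h4 : t ^ k = t ^ (k - 1) * t := by
        rw [← pow_succ]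
        congr 1
        omega
      have h5 : 0 < t ^ (k - 1) := pow_pos ht0 _
      nlinarith

end Pool.Agent.H64.LN
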