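import Mathlib
import Pool.Agent.H2.LN.Top
import Pool.Agent.H64.LN.Moo
import Pool.Agent.H64.GI.Rgr
import Pool.Agent.H64.GI.Rgi
import Pool.Agent.H64.GI.Rwd

/-!
Block R of project MP_b8729f_LN: regularisation without creating nearly regular spots.
-/

set_option autoImplicit false

namespace Pool.Agent.H64.LN

open Finset Classical
open Pool.Agent.H65.GI
open Pool.Agent.H64.GI
open Pool.Agent.H2.LN

private theorem Rmn_num {N Δ : ℕ} (hP : Pm N Δ) : ∃ t : ℝ, 0 ≤ t ∧ (Δ : ℝ) ^ 13 ≤ t ^ 200 ∧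
    2 + 2 * t ≤ (Δ : ℝ) / N := by
  have hN : (2 : ℝ) ^ 40 ≤ N := by exact_mod_cast hP.big
  have hN1 : (1 : ℝ) ≤ N := le_trans (by norm_num) hN
  have hΔN : (N : ℝ) ^ 40000 ≤ Δ := by exact_mod_cast hP.pow
  have hΔ1 : (1 : ℝ) ≤ Δ := le_trans (one_le_pow₀ hN1) hΔN
  have hΔ0 : (0 : ℝ) ≤ Δ := by linarith
  obtain ⟨t, ht0, ht⟩ : ∃ t : ℝ, 0 ≤ t ∧ t ^ 10 = Δ :=
    ⟨(Δ : ℝ) ^ ((1 : ℝ) / 10), Real.rpow_nonneg hΔ0 _, by
      rw [← Real.rpow_natCast, ← Real.rpow_mul hΔ0]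
      norm_num⟩
  have htN : (N : ℝ) ≤ t := by
    refine le_of_pow_le_pow_left₀ (n := 10) (by norm_num) ht0 ?_
    rw [ht]
    exact le_trans (pow_le_pow_right₀ hN1 (by norm_num)) hΔN
  have ht4 : (4 : ℝ) ≤ t := le_trans (by norm_num) (hN.trans htN)
  refine ⟨t, ht0, ?_, ?_⟩
  · have h1 : t ^ 200 = (Δ : ℝ) ^ 20 := by
      rw [← ht, ← pow_mul]
    rw [h1]
    exact pow_le_pow_right₀ hΔ1 (by norm_num)
  · rw [le_div_iff₀ (by linarith)]
    have h1 : (2 + 2 * t) * N ≤ (2 + 2 * t) * t :=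
      mul_le_mul_of_nonneg_left htN (by linarith)
    have h2 : (2 + 2 * t) * t ≤ t ^ 3 := by nlinarith [mul_nonneg ht0 ht0]
    have h3 : t ^ 3 ≤ t ^ 10 := pow_le_pow_right₀ (by linarith) (by norm_num)
    linarith

theorem reg_main : Pool.Agent.H2.LN.Top.RegP := by
  intro N Δ hP V _ G hdeg hS
  obtain ⟨t, ht0, ht1, ht2⟩ := Rmn_num hP
  obtain ⟨Γ, hΓ, ⟨γ0⟩, s, hs1, hs2⟩ := words (V × Fin Δ) 401
  obtain ⟨G', hG', hreg⟩ := gr_ex G Δ hdeg s hs1 401 (by norm_num) hs2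
  obtain ⟨F, hF, -⟩ := gr_ex (⊥ : SimpleGraph V) Δ (fun v => by simp [dG]) s hs1 401
    (by norm_num) hs2
  have hegirth : ((2 * 200 + 1 : ℕ) : ℕ∞) ≤ F.egirth :=
    gi_main (⊥ : SimpleGraph V) Δ 401 (by simp) s hs1 401 le_rfl hs2 F hF
  refine ⟨V × Γ, inferInstance, G', fun v => (v, γ0), fun u v h => congrArg Prod.fst h,
    fun u v h => (hG' _ _).2 (Or.inl ⟨h, rfl⟩), hreg, ?_⟩
  intro S hSc
  have hSc' : (S.card : ℝ) ≤ (Δ : ℝ) ^ 13 := by exact_mod_cast hSc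
  have hmoore := moore F 200 (by norm_num) hegirth t ht0 S (hSc'.trans ht1)
  -- split the edges
  have hsplit : ee G' S S ≤ (∑ x ∈ S, (S.filter (fun y => G.Adj x.1 y.1 ∧ x.2 = y.2)).card) +
      ∑ x ∈ S, (S.filter (fun y => F.Adj x y)).card := by
    rw [ee, ← Finset.sum_add_distrib]
    refine Finset.sum_le_sum (fun x _ => ?_)
    refine (Finset.card_le_card (t := (S.filter (fun y => G.Adj x.1 y.1 ∧ x.2 = y.2)) ∪
      S.filter (fun y => F.Adj x y)) ?_).trans (Finset.card_union_le _ _)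
    intro y hy
    rw [Finset.mem_filter] at hy
    rw [Finset.mem_union, Finset.mem_filter, Finset.mem_filter]
    rcases (hG' _ _).1 hy.2 with h | ⟨h1, k, hk, h2⟩
    · exact Or.inl ⟨hy.1, h⟩
    · refine Or.inr ⟨hy.1, (hF _ _).2 (Or.inr ⟨h1, k, ?_, h2⟩)⟩
      have h3 : dG (⊥ : SimpleGraph V) x.1 = 0 := by simp [dG]
      rw [h3, add_zero]
      exact k.2
  -- the copies
  let T : Γ → Finset V := fun γ => univ.filter (fun v => (v, γ) ∈ S)
  have hcopy : (∑ x ∈ S, (S.filter (fun y => G.Adj x.1 y.1 ∧ x.2 = y.2)).card) =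
      ∑ γ, ee G (T γ) (T γ) := by
    have h1 : ∀ x : V × Γ, (S.filter (fun y => G.Adj x.1 y.1 ∧ x.2 = y.2)).card =
        ((T x.2).filter (fun y => G.Adj x.1 y)).card := by
      intro x
      refine Finset.card_bij (fun y _ => y.1) ?_ ?_ ?_
      · intro y hy
        rw [Finset.mem_filter] at hy
        simp only [T, Finset.mem_filter, Finset.mem_univ, true_and]
        refine ⟨?_, hy.2.1⟩
        rw [hy.2.2]
        exact hy.1
      · intro y hy z hz h
        rw [Finset.mem_filter] at hy hz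
        exact Prod.ext h (hy.2.2.symm.trans hz.2.2)
      · intro y hy
        simp only [T, Finset.mem_filter, Finset.mem_univ, true_and] at hy
        exact ⟨(y, x.2), by
          rw [Finset.mem_filter]
          exact ⟨hy.1, hy.2, rfl⟩, rfl⟩
    simp only [h1, ee]
    have h2 : ∑ x ∈ S, ((T x.2).filter (fun y => G.Adj x.1 y)).card =
        ∑ x : V × Γ, if x ∈ S then ((T x.2).filter (fun y => G.Adj x.1 y)).card else 0 := by
      rw [← Finset.sum_filter]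
      congr 1
      ext x
      simp
    rw [h2, Fintype.sum_prod_type_right]
    refine Finset.sum_congr rfl (fun γ _ => ?_)
    rw [← Finset.sum_filter]
  have hcard : (∑ γ, ((T γ).card : ℝ)) = S.card := by
    have h2 : (S.card : ℝ) = ∑ x : V × Γ, if x ∈ S then (1 : ℝ) else 0 := by
      rw [← Finset.sum_filter]
      simp
    rw [h2, Fintype.sum_prod_type_right]
    refine Finset.sum_congr rfl (fun γ _ => ?_)
    rw [← Finset.sum_filter]
    simp [T]
  have hTc : ∀ γ, (T γ).card ≤ Δ ^ 13 := by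
    intro γ
    refine le_trans ?_ hSc
    refine Finset.card_le_card_of_injOn (fun v => (v, γ)) ?_ ?_
    · intro v hv
      simpa [T] using hv
    · intro v _ w _ h
      exact congrArg Prod.fst h
  have h5 : (∑ γ, (ee G (T γ) (T γ) : ℝ)) ≤ ((Δ : ℝ) - 2 * Δ / N) * S.card := by
    rw [← hcard, Finset.mul_sum]
    exact Finset.sum_le_sum (fun γ _ => hS (T γ) (hTc γ))
  have h6 : (ee G' S S : ℝ) ≤ (∑ γ, (ee G (T γ) (T γ) : ℝ)) +
      ((∑ x ∈ S, (S.filter (fun y => F.Adj x y)).card : ℕ) : ℝ) := by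
    rw [hcopy] at hsplit
    exact_mod_cast hsplit
  have h7 : (2 + 2 * t) * S.card ≤ (Δ : ℝ) / N * S.card :=
    mul_le_mul_of_nonneg_right ht2 (Nat.cast_nonneg _)
  have h8 : ((Δ : ℝ) - 2 * Δ / N) * S.card + (Δ : ℝ) / N * S.card =
      ((Δ : ℝ) - Δ / N) * S.card := by ring
  linarith

end Pool.Agent.H64.LN
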