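import Pool.Agent.H64.LN.K6

/-!
Block B: the graph of a class.
-/

set_option autoImplicit false
set_option linter.unusedSectionVars false

namespace Pool.Agent.H64.LN

open Finset Classical
open Pool.Agent.H65.GI
open Pool.Agent.H2.LN

/-- the graph of the class `κ` -/
def cg {V : Type} (G : SimpleGraph V) {N : ℕ} (χ : V → Ty N) (κ : Ty N) : SimpleGraph V where
  Adj u v := G.Adj u v ∧ χ u + χ v = κ
  symm := ⟨fun u v h => ⟨h.1.symm, by rw [add_comm]; exact h.2⟩⟩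
  loopless := ⟨fun v h => G.loopless.irrefl v h.1⟩

theorem cg_adj {V : Type} {G : SimpleGraph V} {N : ℕ} {χ : V → Ty N} {κ : Ty N} {u v : V} :
    (cg G χ κ).Adj u v ↔ G.Adj u v ∧ χ u + χ v = κ := Iff.rfl

section
variable {V : Type} [Fintype V] {G : SimpleGraph V} {N Δ : ℕ} {χ : V → Ty N}

theorem cg_deg (hE : EHo G N Δ χ) (κ : Ty N) (x : V) :
    |((univ.filter (fun y => (cg G χ κ).Adj x y)).card : ℝ) - (Δ : ℝ) / mT N| ≤
      (Δ : ℝ) / mT N / N ^ 9 := by
  have h1 : univ.filter (fun y => (cg G χ κ).Adj x y) =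
      univ.filter (fun u => G.Adj x u ∧ χ u = κ - χ x) := by
    ext y
    simp only [Finset.mem_filter, Finset.mem_univ, true_and, cg_adj]
    constructor
    · rintro ⟨h2, h3⟩
      exact ⟨h2, by rw [← h3]; abel⟩
    · rintro ⟨h2, h3⟩
      exact ⟨h2, by rw [h3]; abel⟩
  rw [h1]
  exact hE.deg x _

theorem cg_ne {κ t : Ty N} (hκ : κ.1 ≠ 0) : t ≠ κ - t := by
  intro h
  apply hκ
  have h1 : t.1 = κ.1 - t.1 := by
    conv_lhs => rw [h]
    rfl
  have h2 : κ.1 = t.1 + t.1 := by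
    rw [eq_sub_iff_add_eq] at h1
    exact h1.symm
  rw [h2]
  funext i
  simp only [Pi.add_apply, Pi.zero_apply]
  exact CharTwo.add_self_eq_zero (t.1 i)

theorem cg_exp (hE : EHo G N Δ χ) (κ : Ty N) (hκ : κ.1 ≠ 0) (v : V) (S S' : Finset V)
    (hS : S ⊆ bl G v (8 * N ^ 3)) (hS' : S' ⊆ bl G v (8 * N ^ 3)) (hc : S.card ≤ Δ ^ 12)
    (hc' : S'.card ≤ Δ ^ 12) :
    (ee (cg G χ κ) S S' : ℝ) ≤
      (1 - 1 / (100 * N)) * (Δ / mT N) * (((S.card : ℝ) + S'.card) / 2) := by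
  have h1 : (ee (cg G χ κ) S S' : ℝ) = ∑ t : Ty N,
      (ee G (S.filter (fun x => χ x = t)) (S'.filter (fun x => χ x = κ - t)) : ℝ) := by
    simp only [ee]
    push_cast
    rw [← Finset.sum_fiberwise S χ]
    refine Finset.sum_congr rfl (fun t _ => Finset.sum_congr rfl (fun x hx => ?_))
    rw [Finset.mem_filter] at hx
    congr 1
    congr 1
    ext y
    simp only [Finset.mem_filter, cg_adj]
    constructor
    · rintro ⟨h2, h3, h4⟩
      exact ⟨⟨h2, by rw [← h4, hx.2]; abel⟩, h3⟩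
    · rintro ⟨⟨h2, h3⟩, h4⟩
      exact ⟨h2, h4, by rw [h3, hx.2]; abel⟩
  have h2 : ((S.card : ℝ)) = ∑ t : Ty N, ((S.filter (fun x => χ x = t)).card : ℝ) := by
    have := Finset.card_eq_sum_card_fiberwise (f := χ) (s := S) (t := univ)
      (fun x _ => Finset.mem_coe.2 (Finset.mem_univ _))
    exact_mod_cast this
  have h3 : ((S'.card : ℝ)) = ∑ t : Ty N, ((S'.filter (fun x => χ x = κ - t)).card : ℝ) := by
    have h4 := Finset.card_eq_sum_card_fiberwise (f := χ) (s := S') (t := univ)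
      (fun x _ => Finset.mem_coe.2 (Finset.mem_univ _))
    have h5 : ((S'.card : ℝ)) = ∑ t : Ty N, ((S'.filter (fun x => χ x = t)).card : ℝ) := by
      exact_mod_cast h4
    rw [h5]
    exact (Equiv.sum_comp (Equiv.subLeft κ)
      (fun t => ((S'.filter (fun x => χ x = t)).card : ℝ))).symm
  rw [h1, h2, h3, ← Finset.sum_add_distrib, Finset.sum_div, Finset.mul_sum]
  refine Finset.sum_le_sum (fun t _ => ?_)
  exact hE.exp v t (κ - t) (cg_ne hκ) _ _ ((Finset.filter_subset _ _).trans hS)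
    ((Finset.filter_subset _ _).trans hS') (fun x hx => (Finset.mem_filter.1 hx).2)
    (fun x hx => (Finset.mem_filter.1 hx).2)
    ((Finset.card_le_card (Finset.filter_subset _ _)).trans hc)
    ((Finset.card_le_card (Finset.filter_subset _ _)).trans hc')

/-- the coordinate `i` splits the class graph -/
theorem cg_side {κ : Ty N} {i : Fin (k0 N)} (hi : κ.1 i ≠ 0) {u v : V}
    (h : (cg G χ κ).Adj u v) :
    ((χ u).1 i = 0 ∧ (χ v).1 i ≠ 0) ∨ ((χ u).1 i ≠ 0 ∧ (χ v).1 i = 0) := by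
  have h1 : (χ u).1 i + (χ v).1 i = κ.1 i := by
    rw [← h.2]
    rfl
  by_cases h2 : (χ u).1 i = 0
  · left
    refine ⟨h2, fun h3 => hi ?_⟩
    rw [← h1, h2, h3, add_zero]
  · right
    refine ⟨h2, ?_⟩
    have h4 : ∀ a : ZMod 2, a ≠ 0 → a = 1 := by decide
    have h5 := h4 _ h2
    have h6 := h4 _ hi
    rw [h5, h6] at h1
    have h7 : ∀ a : ZMod 2, 1 + a = 1 → a = 0 := by decide
    exact h7 _ h1

theorem cg_wts (hE : EHo G N Δ χ) (κ : Ty N) (hκ : κ.1 ≠ 0) :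
    ∃ y : V → V → ℝ, (∀ u v, y u v = y v u) ∧ (∀ u v, ¬ (cg G χ κ).Adj u v → y u v = 0) ∧
      (∀ u v, (cg G χ κ).Adj u v →
        1 / 2 ≤ y u v ∧ y u v ≤ 1 - (Δ : ℝ) ^ (-(2 : ℝ) / 5) / 2) ∧
      ∀ v, |∑ u, y v u - d0 N Δ| ≤ (Δ : ℝ) ^ (-(23 : ℝ) / 10) := by
  obtain ⟨i, hi⟩ : ∃ i, κ.1 i ≠ 0 := Function.ne_iff.1 hκ
  choose Y hY1 hY2 hY3 hY4 using hE.wts
  let y : V → V → ℝ := fun u v => if (cg G χ κ).Adj u v then
    (if (χ u).1 i = 0 then Y (χ u) (κ - χ u) (cg_ne hκ) u v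
      else Y (χ v) (κ - χ v) (cg_ne hκ) v u) else 0
  have hadj : ∀ {u v}, (cg G χ κ).Adj u v → χ v = κ - χ u := by
    intro u v h
    rw [← h.2]
    abel
  have hy1 : ∀ u v, y u v = y v u := by
    intro u v
    simp only [y]
    by_cases h : (cg G χ κ).Adj u v
    · rw [if_pos h, if_pos h.symm]
      rcases cg_side hi h with ⟨h1, h2⟩ | ⟨h1, h2⟩
      · rw [if_pos h1, if_neg h2]
      · rw [if_neg h1, if_pos h2]
    · rw [if_neg h, if_neg (fun h' => h h'.symm)]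
  refine ⟨y, hy1, fun u v h => if_neg h, ?_, ?_⟩
  · intro u v h
    simp only [y]
    rw [if_pos h]
    split_ifs with h1
    · exact hY2 (χ u) (κ - χ u) (cg_ne hκ) u v h.1 rfl (hadj h)
    · exact hY2 (χ v) (κ - χ v) (cg_ne hκ) v u h.symm.1 rfl (hadj h.symm)
  · intro v
    by_cases h0 : (χ v).1 i = 0
    · have h1 : ∑ u, y v u = ∑ u ∈ univ.filter (fun u => G.Adj v u ∧ χ u = κ - χ v),
          Y (χ v) (κ - χ v) (cg_ne hκ) v u := by
        rw [Finset.sum_filter]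
        refine Finset.sum_congr rfl (fun u _ => ?_)
        simp only [y]
        rw [if_pos h0]
        by_cases h2 : (cg G χ κ).Adj v u
        · rw [if_pos h2, if_pos ⟨h2.1, hadj h2⟩]
        · rw [if_neg h2, if_neg (fun h3 => h2 ⟨h3.1, by rw [h3.2]; abel⟩)]
      rw [h1]
      exact hY3 (χ v) (κ - χ v) (cg_ne hκ) v rfl
    · have hκv : κ - (κ - χ v) = χ v := by abel
      have h1 : ∑ u, y v u = ∑ u ∈ univ.filter (fun u => G.Adj v u ∧ χ u = κ - χ v),
          Y (κ - χ v) (κ - (κ - χ v)) (cg_ne hκ) v u := by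
        rw [Finset.sum_filter]
        refine Finset.sum_congr rfl (fun u _ => ?_)
        simp only [y]
        rw [if_neg h0]
        by_cases h2 : (cg G χ κ).Adj v u
        · have h4 := hadj h2
          rw [if_pos h2, if_pos ⟨h2.1, h4⟩, hY1 (χ u)]
          have h5 : ∀ (t : Ty N) (ht : t ≠ κ - t) (ht' : t = κ - χ v),
              Y t (κ - t) ht v u = Y (κ - χ v) (κ - (κ - χ v)) (cg_ne hκ) v u := by
            intro t ht ht'
            subst ht'
            rfl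
          exact h5 _ _ h4
        · rw [if_neg h2, if_neg (fun h3 => h2 ⟨h3.1, by rw [h3.2]; abel⟩)]
      rw [h1]
      have h2 := hY4 (κ - χ v) (κ - (κ - χ v)) (cg_ne hκ) v hκv.symm
      exact h2

end

end Pool.Agent.H64.LN
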