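import Pool.Agent.H64.LN.Brd
import Pool.Agent.H64.GI.Alv
import Pool.Agent.H65.GI.Chf
import Pool.Agent.H65.GI.Tri
import Pool.Agent.H12.LN.Mcd

/-!
Block B: the coins for the sparse set.
-/

set_option autoImplicit false
set_option linter.unusedSectionVars false
set_option linter.style.haveILetI false

namespace Pool.Agent.H64.LN

open Finset Classical
open Pool.Agent.H65.GI
open Pool.Agent.H2.LN
open Pool.Agent.H12.LN

/-- the values of the coins -/
abbrev Cv (N Δ : ℕ) : Type := Fin (qD Δ) × Ty N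

section
variable {V : Type} [Fintype V] {N Δ : ℕ}

/-- the coin of `x` is heads -/
def c0 (ω : V → Cv N Δ) (x : V) : Prop := ((ω x).1 : ℕ) = 0

/-- isolated heads -/
noncomputable def Ds (G : SimpleGraph V) (ω : V → Cv N Δ) : Finset V :=
  univ.filter (fun x => c0 ω x ∧ ∀ y ∈ bl G x 2, y ≠ x → ¬ c0 ω y)

/-- isolated heads of the class `κ` -/
noncomputable def Dk (G : SimpleGraph V) (χ : V → Ty N) (κ : Ty N) (ω : V → Cv N Δ) : Finset V :=
  (Ds G ω).filter (fun x => χ x + (ω x).2 = κ)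

theorem mem_Dk {G : SimpleGraph V} {χ : V → Ty N} {κ : Ty N} {ω : V → Cv N Δ} {z : V} :
    z ∈ Dk G χ κ ω ↔ (c0 ω z ∧ χ z + (ω z).2 = κ) ∧ ∀ y ∈ bl G z 2, y ≠ z → ¬ c0 ω y := by
  simp only [Dk, Ds, Finset.mem_filter, Finset.mem_univ, true_and]
  constructor
  · rintro ⟨⟨h1, h2⟩, h3⟩
    exact ⟨⟨h1, h3⟩, h2⟩
  · rintro ⟨⟨h1, h2⟩, h3⟩
    exact ⟨⟨h1, h3⟩, h2⟩

theorem Dk_loc {G : SimpleGraph V} {χ : V → Ty N} {κ : Ty N} {ω ω' : V → Cv N Δ} {z : V}
    (h : ∀ y ∈ bl G z 2, ω y = ω' y) : z ∈ Dk G χ κ ω ↔ z ∈ Dk G χ κ ω' := by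
  have hz := h z (bl_self G z 2)
  rw [mem_Dk, mem_Dk]
  simp only [c0]
  rw [hz]
  refine and_congr Iff.rfl (forall_congr' fun y => ?_)
  constructor
  · intro h1 hy hne
    rw [← h y hy]
    exact h1 hy hne
  · intro h1 hy hne
    rw [h y hy]
    exact h1 hy hne

theorem card_Ty (N : ℕ) : Fintype.card (Ty N) = mT N := by
  simp [mT, Ty, Fintype.card_prod, ZMod.card]

theorem card_Cv (N Δ : ℕ) : Fintype.card (Cv N Δ) = qD Δ * mT N := by
  rw [Fintype.card_prod, Fintype.card_fin, card_Ty]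

theorem nqD (hP : Pm N Δ) : ((Δ : ℝ) + 1) ^ 2 * (1 / qD Δ) ≤ 1 / 4 := by
  obtain ⟨t, ht0, ht10, htN, -, -, -, hq, ht1, hq1⟩ := qD_le hP
  have hq0 : (0 : ℝ) < qD Δ := by exact_mod_cast hq1
  have ht : (2 : ℝ) ^ 40 ≤ t := by
    calc (2 : ℝ) ^ 40 ≤ N := nN hP
      _ = (N : ℝ) ^ 1 := (pow_one _).symm
      _ ≤ (N : ℝ) ^ 4000 := pow_le_pow_right₀ (nN1 hP) (by norm_num)
      _ ≤ t := htN
  rw [mul_one_div, div_le_div_iff₀ hq0 (by norm_num)]
  have h1 : ((Δ : ℝ) + 1) ^ 2 ≤ 4 * t ^ 20 := by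
    have h2 : (1 : ℝ) ≤ t ^ 10 := one_le_pow₀ ht1
    rw [← ht10]
    nlinarith [pow_pos ht0 10]
  have h2 : (17 : ℝ) * t ^ 20 ≤ t ^ 21 := by
    rw [pow_succ t 20]
    nlinarith [pow_pos ht0 20]
  have h3 : (1 : ℝ) ≤ t ^ 20 := one_le_pow₀ ht1
  linarith

theorem ne_qD (hP : Pm N Δ) : NeZero (qD Δ) := by
  obtain ⟨t, -, -, -, -, -, -, -, -, h⟩ := qD_le hP
  exact ⟨by omega⟩

theorem pr_c0 (hP : Pm N Δ) (x : V) : pr (fun ω : V → Cv N Δ => c0 ω x) = 1 / (qD Δ : ℝ) := by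
  haveI := ne_qD hP
  have h1 := pr_coord (κ := Cv N Δ) x (fun c => (c.1 : ℕ) = 0)
  have h2 : pr (fun ω : V → Cv N Δ => c0 ω x) = pr (fun c : Cv N Δ => (c.1 : ℕ) = 0) := h1
  rw [h2, pr]
  have h3 : ∀ inst : DecidablePred (fun c : Cv N Δ => (c.1 : ℕ) = 0),
      @Finset.filter _ (fun c : Cv N Δ => (c.1 : ℕ) = 0) inst univ =
      ({(0 : Fin (qD Δ))} : Finset (Fin (qD Δ))) ×ˢ (univ : Finset (Ty N)) := by
    intro inst
    ext c
    simp only [Finset.mem_filter, Finset.mem_univ, true_and, Finset.mem_product,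
      Finset.mem_singleton, and_true]
    constructor
    · intro h
      exact Fin.ext h
    · intro h
      rw [h]
      rfl
  rw [h3, Finset.card_product, Finset.card_singleton, one_mul, Finset.card_univ, card_Cv,
    card_Ty]
  have h4 : (mT N : ℝ) ≠ 0 := (nmT0 hP).ne'
  have h5 : (qD Δ : ℝ) ≠ 0 := by exact_mod_cast (NeZero.ne (qD Δ))
  push_cast
  field_simp

theorem pr_cc (hP : Pm N Δ) (z : V) (t : Ty N) :
    pr (fun ω : V → Cv N Δ => c0 ω z ∧ (ω z).2 = t) = 1 / ((qD Δ : ℝ) * mT N) := by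
  haveI := ne_qD hP
  have h1 := pr_coord (κ := Cv N Δ) z (fun c => (c.1 : ℕ) = 0 ∧ c.2 = t)
  have h2 : pr (fun ω : V → Cv N Δ => c0 ω z ∧ (ω z).2 = t) =
      pr (fun c : Cv N Δ => (c.1 : ℕ) = 0 ∧ c.2 = t) := h1
  rw [h2, pr]
  have h3 : ∀ inst : DecidablePred (fun c : Cv N Δ => (c.1 : ℕ) = 0 ∧ c.2 = t),
      @Finset.filter _ (fun c : Cv N Δ => (c.1 : ℕ) = 0 ∧ c.2 = t) inst univ =
        {((0 : Fin (qD Δ)), t)} := by
    intro inst
    ext c
    simp only [Finset.mem_filter, Finset.mem_univ, true_and, Finset.mem_singleton]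
    constructor
    · rintro ⟨h4, h5⟩
      exact Prod.ext (Fin.ext h4) h5
    · intro h
      rw [h]
      exact ⟨rfl, rfl⟩
  rw [h3, Finset.card_singleton, card_Cv]
  push_cast
  rfl

theorem c0_loc (x : V) : Loc (fun ω : V → Cv N Δ => c0 ω x) {x} := by
  intro ω ω' h
  simp only [c0, h x (Finset.mem_singleton_self x)]

theorem pr_Dk (hP : Pm N Δ) (G : SimpleGraph V) (hG : Reg G Δ) (χ : V → Ty N) (κ : Ty N) (z : V) :
    2 * dl N Δ ≤ pr (fun ω : V → Cv N Δ => z ∈ Dk G χ κ ω) := by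
  haveI := ne_qD hP
  have hA : pr (fun ω : V → Cv N Δ => c0 ω z ∧ χ z + (ω z).2 = κ) =
      1 / ((qD Δ : ℝ) * mT N) := by
    rw [← pr_cc hP z (κ - χ z)]
    congr 1
    funext ω
    apply propext
    refine and_congr Iff.rfl ?_
    rw [eq_sub_iff_add_eq, add_comm]
  obtain ⟨A, hAd⟩ : ∃ A, A = fun ω : V → Cv N Δ => c0 ω z ∧ χ z + (ω z).2 = κ := ⟨_, rfl⟩
  obtain ⟨B, hBd⟩ : ∃ B, B = fun ω : V → Cv N Δ => ∃ y ∈ (bl G z 2).erase z, c0 ω y := ⟨_, rfl⟩
  rw [← hAd] at hA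
  have hB : pr B ≤ 1 / 2 := by
    rw [hBd]
    refine (pr_ex _ _ (1 / (qD Δ : ℝ)) (fun y _ => (pr_c0 hP y).le)).trans ?_
    have h1 : (((bl G z 2).erase z).card : ℝ) ≤ ((Δ : ℝ) + 1) ^ 2 := by
      have h2 : ((bl G z 2).erase z).card ≤ (Δ + 1) ^ 2 :=
        (Finset.card_le_card (Finset.erase_subset _ _)).trans (bl_card G Δ hG z 2)
      exact_mod_cast h2
    have h3 := nqD hP
    have h4 : (0 : ℝ) ≤ 1 / (qD Δ : ℝ) := by positivity
    have h5 := mul_le_mul_of_nonneg_right h1 h4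
    linarith
  have hAB : pr (fun ω => A ω ∧ B ω) = pr A * pr B := by
    refine pr_and A B {z} ((bl G z 2).erase z) ?_ ?_ ?_
    · intro ω ω' h
      have := h z (Finset.mem_singleton_self z)
      simp only [hAd, c0, this]
    · intro ω ω' h
      rw [hBd]
      apply propext
      constructor
      · rintro ⟨y, hy, h1⟩
        exact ⟨y, hy, by rw [c0, ← h y hy]; exact h1⟩
      · rintro ⟨y, hy, h1⟩
        exact ⟨y, hy, by rw [c0, h y hy]; exact h1⟩
    · rw [Finset.disjoint_singleton_left]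
      exact Finset.notMem_erase z _
  have h1 : pr A ≤ pr (fun ω => (A ω ∧ B ω) ∨ z ∈ Dk G χ κ ω) := by
    apply pr_mono
    intro ω hω
    by_cases h2 : B ω
    · exact Or.inl ⟨hω, h2⟩
    · right
      rw [mem_Dk]
      rw [hAd] at hω
      refine ⟨hω, fun y hy hne hc => h2 ?_⟩
      rw [hBd]
      exact ⟨y, Finset.mem_erase.2 ⟨hne, hy⟩, hc⟩
  have h2 := h1.trans (pr_or _ _)
  rw [hAB, hA] at h2
  have h3 : 2 * dl N Δ = 1 / ((qD Δ : ℝ) * mT N) / 2 := by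
    rw [dl]
    ring
  have h4 : 0 ≤ 1 / ((qD Δ : ℝ) * mT N) := by positivity
  have h5 := mul_le_mul_of_nonneg_left hB h4
  rw [h3]
  linarith

/-- the hitting probability as a function of the coins -/
theorem hit_sum (H G : SimpleGraph V) (χ : V → Ty N) (κ : Ty N) (k : ℕ) (v : V)
    (ω : V → Cv N Δ) : hit H (Dk G χ κ ω) k v =
      ∑ z, (srw H ^ k) v z * if z ∈ Dk G χ κ ω then 1 else 0 := by
  simp only [hit, mul_ite, mul_one, mul_zero]
  rw [← Finset.sum_filter, Finset.filter_univ_mem]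

theorem ex_hit (hP : Pm N Δ) (G : SimpleGraph V) (hG : Reg G Δ) (χ : V → Ty N) (κ : Ty N)
    (H : SimpleGraph V) (hd : ∀ x, 0 < dgr H x) (k : ℕ) (v : V) :
    2 * dl N Δ ≤ ex (fun ω : V → Cv N Δ => hit H (Dk G χ κ ω) k v) := by
  simp only [hit_sum]
  rw [ex_sum]
  have h1 : ∀ z, ex (fun ω : V → Cv N Δ => (srw H ^ k) v z * if z ∈ Dk G χ κ ω then (1 : ℝ) else 0) =
      (srw H ^ k) v z * pr (fun ω : V → Cv N Δ => z ∈ Dk G χ κ ω) := by
    intro z
    rw [ex_smul, ex_ind]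
    refine congrArg _ (congrArg ex (funext fun ω => ?_))
    by_cases h : z ∈ Dk G χ κ ω
    · rw [if_pos h, if_pos h]
    · rw [if_neg h, if_neg h]
  rw [Finset.sum_congr rfl (fun z _ => h1 z)]
  calc 2 * dl N Δ = ∑ z, (srw H ^ k) v z * (2 * dl N Δ) := by
        rw [← Finset.sum_mul, srw_row H hd, one_mul]
    _ ≤ _ := Finset.sum_le_sum (fun z _ =>
        mul_le_mul_of_nonneg_left (pr_Dk hP G hG χ κ z) (srw_nn H k v z))

theorem hit_BD (G : SimpleGraph V) (χ : V → Ty N) (κ : Ty N) (H : SimpleGraph V) (k : ℕ) (v : V) :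
    BD (fun ω : V → Cv N Δ => hit H (Dk G χ κ ω) k v)
      (fun i => ∑ z ∈ bl G i 2, (srw H ^ k) v z) := by
  intro i ω a b
  simp only [hit_sum]
  rw [← Finset.sum_sub_distrib]
  have h1 : ∀ z, z ∉ bl G i 2 →
      (srw H ^ k) v z * (if z ∈ Dk G χ κ (Function.update ω i a) then (1 : ℝ) else 0) -
        (srw H ^ k) v z * (if z ∈ Dk G χ κ (Function.update ω i b) then (1 : ℝ) else 0) = 0 := by
    intro z hz
    have h2 : z ∈ Dk G χ κ (Function.update ω i a) ↔ z ∈ Dk G χ κ (Function.update ω i b) := by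
      apply Dk_loc
      intro y hy
      have h3 : y ≠ i := by
        intro e
        subst e
        exact hz (bl_symm G hy)
      rw [Function.update_of_ne h3, Function.update_of_ne h3]
    simp only [h2, sub_self]
  rw [← Finset.sum_subset (Finset.subset_univ (bl G i 2)) (fun z _ hz => h1 z hz)]
  refine (Finset.abs_sum_le_sum_abs _ _).trans (Finset.sum_le_sum (fun z _ => ?_))
  rw [← mul_sub, abs_mul, abs_of_nonneg (srw_nn H k v z)]
  refine mul_le_of_le_one_right (srw_nn H k v z) ?_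
  split_ifs <;> norm_num

theorem sum_sq_le (G : SimpleGraph V) (hG : Reg G Δ) (q : V → ℝ) :
    ∑ i, (∑ z ∈ bl G i 2, q z) ^ 2 ≤ ((Δ : ℝ) + 1) ^ 4 * ∑ z, q z ^ 2 := by
  have hc : ∀ i, ((bl G i 2).card : ℝ) ≤ ((Δ : ℝ) + 1) ^ 2 := fun i => by
    exact_mod_cast bl_card G Δ hG i 2
  have h1 : ∀ i, (∑ z ∈ bl G i 2, q z) ^ 2 ≤ ((Δ : ℝ) + 1) ^ 2 * ∑ z ∈ bl G i 2, q z ^ 2 := by
    intro i
    refine sq_sum_le_card_mul_sum_sq.trans ?_
    exact mul_le_mul_of_nonneg_right (hc i) (Finset.sum_nonneg (fun z _ => sq_nonneg _))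
  refine (Finset.sum_le_sum (fun i _ => h1 i)).trans ?_
  rw [← Finset.mul_sum]
  have h2 : ∑ i, ∑ z ∈ bl G i 2, q z ^ 2 = ∑ z, ∑ i ∈ bl G z 2, q z ^ 2 := by
    have h3 : ∀ i, ∑ z ∈ bl G i 2, q z ^ 2 = ∑ z, if z ∈ bl G i 2 then q z ^ 2 else 0 := by
      intro i
      rw [← Finset.sum_filter, Finset.filter_univ_mem]
    have h4 : ∀ z, ∑ i ∈ bl G z 2, q z ^ 2 = ∑ i, if z ∈ bl G i 2 then q z ^ 2 else 0 := by
      intro z
      rw [← Finset.sum_filter]
      congr 1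
      ext i
      simp only [Finset.mem_filter, Finset.mem_univ, true_and]
      exact ⟨fun h => bl_symm G h, fun h => bl_symm G h⟩
    rw [Finset.sum_congr rfl (fun i _ => h3 i), Finset.sum_comm]
    exact Finset.sum_congr rfl (fun z _ => (h4 z).symm)
  rw [h2]
  have h5 : ∑ z, ∑ i ∈ bl G z 2, q z ^ 2 ≤ ∑ z, ((Δ : ℝ) + 1) ^ 2 * q z ^ 2 := by
    refine Finset.sum_le_sum (fun z _ => ?_)
    rw [Finset.sum_const, nsmul_eq_mul]
    exact mul_le_mul_of_nonneg_right (hc z) (sq_nonneg _)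
  rw [← Finset.mul_sum] at h5
  have h6 := mul_le_mul_of_nonneg_left h5 (by positivity : (0 : ℝ) ≤ ((Δ : ℝ) + 1) ^ 2)
  refine h6.trans (le_of_eq ?_)
  ring

theorem pr_hit (hP : Pm N Δ) (G : SimpleGraph V) (hG : Reg G Δ) {χ : V → Ty N}
    (hE : EHo G N Δ χ) (κ : Ty N) (hκ : κ.1 ≠ 0) (k : ℕ) (hk : N ^ 3 ≤ k)
    (hk' : k ≤ 2 * N ^ 3 + 1) (v : V) :
    pr (fun ω : V → Cv N Δ => hit (cg G χ κ) (Dk G χ κ ω) k v < dl N Δ) ≤
      Real.exp (-((N : ℝ) ^ 4000)) := by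
  haveI := ne_qD hP
  have hΔ0 := nΔ0 hP
  have hN0 := nN0 hP
  have hN1 := nN1 hP
  have hdl := dl_pos hP
  have hB : ∑ i, (∑ z ∈ bl G i 2, (srw (cg G χ κ) ^ k) v z) ^ 2 ≤
      ((Δ : ℝ) + 1) ^ 4 * ((N : ℝ) ^ 3 / (Δ : ℝ) ^ 12) :=
    (sum_sq_le G hG _).trans (mul_le_mul_of_nonneg_left (cg_mix hP hE κ hκ k hk hk' v)
      (by positivity))
  have h1 := mcd' (fun ω : V → Cv N Δ => hit (cg G χ κ) (Dk G χ κ ω) k v) _
    (hit_BD G χ κ (cg G χ κ) k v) _ (dl N Δ) hB (by positivity) hdl.le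
  refine (pr_mono (fun ω hω => ?_)).trans (h1.trans ?_)
  · have h2 := ex_hit hP G hG χ κ (cg G χ κ) (cg_pos hP hE κ) k v
    linarith
  · apply Real.exp_le_exp.2
    rw [neg_le_neg_iff]
    obtain ⟨t, ht0, ht10, htN, -, -, hq, -, ht1, hq1⟩ := qD_le hP
    have hq0 : (0 : ℝ) < qD Δ := by exact_mod_cast hq1
    have hm0 := nmT0 hP
    have hm := (nmT hP).2
    have h2 : 1 / (16 * (t ^ 21 * N ^ 54)) ≤ dl N Δ := by
      rw [dl]
      apply one_div_le_one_div_of_le (by positivity)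
      have h3 : (qD Δ : ℝ) * mT N ≤ t ^ 21 * (4 * N ^ 54) :=
        mul_le_mul hq hm hm0.le (by positivity)
      linarith
    have h3 : ((Δ : ℝ) + 1) ^ 4 ≤ 16 * t ^ 40 := by
      have h4 : (Δ : ℝ) + 1 ≤ 2 * t ^ 10 := by
        rw [ht10]
        linarith [nΔ1 hP]
      calc ((Δ : ℝ) + 1) ^ 4 ≤ (2 * t ^ 10) ^ 4 := pow_le_pow_left₀ (by positivity) h4 4
        _ = 16 * t ^ 40 := by ring
    have h5 : 2 * (((Δ : ℝ) + 1) ^ 4 * ((N : ℝ) ^ 3 / (Δ : ℝ) ^ 12)) ≤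
        32 * N ^ 3 / t ^ 80 := by
      have h6 : ((N : ℝ) ^ 3 / (Δ : ℝ) ^ 12) = N ^ 3 / t ^ 120 := by
        rw [← ht10]
        ring
      rw [h6]
      calc 2 * (((Δ : ℝ) + 1) ^ 4 * ((N : ℝ) ^ 3 / t ^ 120)) ≤
            2 * ((16 * t ^ 40) * ((N : ℝ) ^ 3 / t ^ 120)) := by gcongr
        _ = 32 * N ^ 3 / t ^ 80 := by
            field_simp
            norm_num
    have h7 : (1 / (16 * (t ^ 21 * (N : ℝ) ^ 54))) ^ 2 ≤ dl N Δ ^ 2 :=
      pow_le_pow_left₀ (by positivity) h2 2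
    have h8 : 0 < 2 * (((Δ : ℝ) + 1) ^ 4 * ((N : ℝ) ^ 3 / (Δ : ℝ) ^ 12)) := by positivity
    calc (N : ℝ) ^ 4000 ≤ t := htN
      _ ≤ (1 / (16 * (t ^ 21 * (N : ℝ) ^ 54))) ^ 2 / (32 * N ^ 3 / t ^ 80) := by
          have h9 : (1 / (16 * (t ^ 21 * (N : ℝ) ^ 54))) ^ 2 / (32 * N ^ 3 / t ^ 80) =
              t ^ 38 / (8192 * N ^ 111) := by
            field_simp
            norm_num
          rw [h9, le_div_iff₀ (by positivity)]
          have h10 : (8192 : ℝ) * N ^ 111 ≤ t := by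
            calc (8192 : ℝ) * N ^ 111 ≤ N * N ^ 111 :=
                  mul_le_mul_of_nonneg_right (le_trans (by norm_num) (nN hP)) (by positivity)
              _ = (N : ℝ) ^ 112 := by ring
              _ ≤ (N : ℝ) ^ 4000 := pow_le_pow_right₀ hN1 (by norm_num)
              _ ≤ t := htN
          calc t * (8192 * N ^ 111) ≤ t * t := mul_le_mul_of_nonneg_left h10 ht0.le
            _ = t ^ 2 := by ring
            _ ≤ t ^ 38 := pow_le_pow_right₀ ht1 (by norm_num)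
      _ ≤ dl N Δ ^ 2 / (2 * (((Δ : ℝ) + 1) ^ 4 * ((N : ℝ) ^ 3 / (Δ : ℝ) ^ 12))) :=
          div_le_div₀ (sq_nonneg _) h7 h8 h5

/-- the coins -/
theorem coins (hP : Pm N Δ) (G : SimpleGraph V) (hG : Reg G Δ) {χ : V → Ty N}
    (hE : EHo G N Δ χ) : ∃ ω : V → Cv N Δ,
    (∀ v, ((bl G v 2).filter (fun x => c0 ω x)).card ≤ N ^ 5) ∧
    ∀ κ : Ty N, κ.1 ≠ 0 → ∀ v, dl N Δ ≤ hit (cg G χ κ) (Dk G χ κ ω) (2 * N ^ 3) v ∧
      dl N Δ ≤ hit (cg G χ κ) (Dk G χ κ ω) (2 * N ^ 3 + 1) v := by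
  haveI := ne_qD hP
  have hN := nN hP
  have hN1 := nN1 hP
  have hNN : 1 ≤ N := by
    have := hP.big
    omega
  have hN3 : 1 ≤ N ^ 3 := Nat.one_le_pow _ _ hNN
  let E1 : V → (V → Cv N Δ) → Prop := fun v ω =>
    N ^ 5 + 1 ≤ ((bl G v 2).filter (fun x => c0 ω x)).card
  let E2 : V → (V → Cv N Δ) → Prop := fun v ω => ∃ κ ∈ (univ : Finset (Ty N)), κ.1 ≠ 0 ∧
    (hit (cg G χ κ) (Dk G χ κ ω) (2 * N ^ 3) v < dl N Δ ∨
      hit (cg G χ κ) (Dk G χ κ ω) (2 * N ^ 3 + 1) v < dl N Δ)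
  have hp1 : ∀ v, pr (E1 v) ≤ Real.exp (-((N : ℝ) ^ 5)) := by
    intro v
    have h1 := few_le (κ := Cv N Δ) (bl G v 2) (fun x ω => c0 ω x) (fun x => {x})
      (fun x _ => c0_loc x) (fun x _ y _ h => Finset.disjoint_singleton.2 h) (1 / (qD Δ : ℝ))
      (by positivity) (fun x _ => (pr_c0 hP x).le) ((Δ + 1) ^ 2) (N ^ 5 + 1) (bl_card G Δ hG v 2)
    refine h1.trans ?_
    have h2 : (((Δ + 1) ^ 2 : ℕ) : ℝ) * (1 / (qD Δ : ℝ)) ≤ Real.exp (-1) := by
      have h3 := nqD hP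
      have h4 : (1 / 4 : ℝ) ≤ Real.exp (-1) := by
        rw [Real.exp_neg, ← one_div]
        apply one_div_le_one_div_of_le (Real.exp_pos 1)
        linarith [Real.exp_one_lt_d9]
      push_cast
      linarith
    calc ((((Δ + 1) ^ 2 : ℕ) : ℝ) * (1 / (qD Δ : ℝ))) ^ (N ^ 5 + 1)
        ≤ (Real.exp (-1)) ^ (N ^ 5 + 1) := pow_le_pow_left₀ (by positivity) h2 _
      _ = Real.exp (-((N : ℝ) ^ 5 + 1)) := by
          rw [← Real.exp_nat_mul]
          congr 1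
          push_cast
          ring
      _ ≤ Real.exp (-((N : ℝ) ^ 5)) := Real.exp_le_exp.2 (by linarith)
  have hp2 : ∀ v, pr (E2 v) ≤ Real.exp (-((N : ℝ) ^ 5)) := by
    intro v
    have h1 : pr (E2 v) ≤ (univ : Finset (Ty N)).card * (2 * Real.exp (-((N : ℝ) ^ 4000))) := by
      apply pr_ex
      intro κ _
      by_cases hκ : κ.1 = 0
      · have h2 : pr (fun ω : V → Cv N Δ => κ.1 ≠ 0 ∧
            (hit (cg G χ κ) (Dk G χ κ ω) (2 * N ^ 3) v < dl N Δ ∨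
              hit (cg G χ κ) (Dk G χ κ ω) (2 * N ^ 3 + 1) v < dl N Δ)) ≤ 0 := by
          refine (pr_mono (B := fun _ => False) (fun ω h => absurd hκ h.1)).trans ?_
          simp [pr]
        exact h2.trans (by positivity)
      · refine (pr_mono (fun ω h => h.2)).trans ((pr_or _ _).trans ?_)
        have h2 := pr_hit hP G hG hE κ hκ (2 * N ^ 3) (by omega) (by omega) v
        have h3 := pr_hit hP G hG hE κ hκ (2 * N ^ 3 + 1) (by omega) (by omega) v
        linarith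
    refine h1.trans ?_
    rw [Finset.card_univ, card_Ty]
    have h2 : (mT N : ℝ) * 2 ≤ Real.exp ((N : ℝ) ^ 4000 - N ^ 5) := by
      have h3 := Real.add_one_le_exp ((N : ℝ) ^ 4000 - N ^ 5)
      have h4 := (nmT hP).2
      have h5 : (9 : ℝ) * N ^ 54 ≤ (N : ℝ) ^ 4000 := by
        calc (9 : ℝ) * N ^ 54 ≤ N * N ^ 54 :=
              mul_le_mul_of_nonneg_right (le_trans (by norm_num) hN) (by positivity)
          _ = (N : ℝ) ^ 55 := by ring
          _ ≤ (N : ℝ) ^ 4000 := pow_le_pow_right₀ hN1 (by norm_num)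
      have h6 : (N : ℝ) ^ 5 ≤ N ^ 54 := pow_le_pow_right₀ hN1 (by norm_num)
      linarith
    calc (mT N : ℝ) * (2 * Real.exp (-((N : ℝ) ^ 4000))) =
          ((mT N : ℝ) * 2) * Real.exp (-((N : ℝ) ^ 4000)) := by ring
      _ ≤ Real.exp ((N : ℝ) ^ 4000 - N ^ 5) * Real.exp (-((N : ℝ) ^ 4000)) :=
          mul_le_mul_of_nonneg_right h2 (Real.exp_pos _).le
      _ = Real.exp (-((N : ℝ) ^ 5)) := by
          rw [← Real.exp_add]
          congr 1
          ring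
  have hloc : ∀ v, Loc (fun ω => E1 v ω ∨ E2 v ω) (bl G v (2 * N ^ 3 + 3)) := by
    intro v ω ω' h
    have h1 : ((bl G v 2).filter (fun x => c0 ω x)) = (bl G v 2).filter (fun x => c0 ω' x) := by
      apply Finset.filter_congr
      intro x hx
      rw [c0, c0, h x (bl_mono G v (by omega) hx)]
    have h2 : ∀ κ k, k ≤ 2 * N ^ 3 + 1 →
        hit (cg G χ κ) (Dk G χ κ ω) k v = hit (cg G χ κ) (Dk G χ κ ω') k v := by
      intro κ k hk
      rw [hit_sum, hit_sum]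
      refine Finset.sum_congr rfl (fun z _ => ?_)
      by_cases hz : z ∈ bl G v k
      · have h3 : z ∈ Dk G χ κ ω ↔ z ∈ Dk G χ κ ω' := by
          apply Dk_loc
          intro y hy
          exact h y (bl_mono G v (by omega) (bl_bl G hz hy))
        simp only [h3]
      · rw [srw_supp G (cg G χ κ) (fun _ _ h => h.1) k v z hz, zero_mul, zero_mul]
    simp only [E1, E2, h1, h2 _ (2 * N ^ 3) (by omega), h2 _ (2 * N ^ 3 + 1) le_rfl]
  obtain ⟨ω, hω⟩ := Pool.Agent.H64.GI.lll_v G Δ hG (2 * N ^ 3 + 3) _ hloc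
    (2 * Real.exp (-((N : ℝ) ^ 5))) (by positivity)
    (fun v => (pr_or _ _).trans (by linarith [hp1 v, hp2 v])) (by
      have hlog := nlogN hP
      have hΔ1 := nΔ1 hP
      have hΔ0 := nΔ0 hP
      have h1 : ((Δ : ℝ) + 1) ^ (2 * (2 * N ^ 3 + 3)) ≤ Real.exp ((N : ℝ) ^ 4) := by
        have h2 : (Δ : ℝ) + 1 ≤ Real.exp (2 * Real.log Δ) := by
          have h3 : Real.exp (2 * Real.log Δ) = (Δ : ℝ) ^ 2 := by
            rw [mul_comm, Real.exp_mul, Real.exp_log hΔ0]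
            norm_num
          rw [h3]
          have h4 : (2 : ℝ) ≤ Δ := by
            have h5 := nlog hP
            have h6 := Real.log_le_sub_one_of_pos hΔ0
            norm_num at h5
            linarith
          nlinarith
        calc ((Δ : ℝ) + 1) ^ (2 * (2 * N ^ 3 + 3)) ≤
              (Real.exp (2 * Real.log Δ)) ^ (2 * (2 * N ^ 3 + 3)) :=
              pow_le_pow_left₀ (by positivity) h2 _
          _ = Real.exp ((2 * (2 * N ^ 3 + 3) : ℕ) * (2 * Real.log Δ)) := by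
              rw [← Real.exp_nat_mul]
          _ ≤ Real.exp ((N : ℝ) ^ 4) := by
              apply Real.exp_le_exp.2
              have h3 : ((2 * (2 * N ^ 3 + 3) : ℕ) : ℝ) ≤ 10 * (N : ℝ) ^ 3 := by
                push_cast
                have : (1 : ℝ) ≤ (N : ℝ) ^ 3 := one_le_pow₀ hN1
                linarith
              have h4 : 0 ≤ 2 * Real.log Δ := by
                have := Real.log_nonneg hΔ1
                linarith
              have h5 := mul_le_mul_of_nonneg_right h3 h4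
              refine h5.trans ?_
              have h6 : Real.log Δ ≤ N / 10 ^ 6 := by
                rw [le_div_iff₀ (by norm_num)]
                linarith
              have h7 : (0 : ℝ) ≤ (N : ℝ) ^ 3 := by positivity
              have h8 := mul_le_mul_of_nonneg_left h6 h7
              have h9 : (N : ℝ) ^ 3 * (N / 10 ^ 6) = N ^ 4 / 10 ^ 6 := by ring
              have h10 : (0 : ℝ) ≤ (N : ℝ) ^ 4 := by positivity
              rw [h9] at h8
              have h11 : 10 * (N : ℝ) ^ 3 * (2 * Real.log Δ) = 20 * ((N : ℝ) ^ 3 * Real.log Δ) := by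
                ring
              rw [h11]
              have h12 : (N : ℝ) ^ 4 / 10 ^ 6 * 20 ≤ (N : ℝ) ^ 4 := by
                rw [div_mul_eq_mul_div, div_le_iff₀ (by norm_num)]
                nlinarith
              linarith
      have h2 : Real.exp (-((N : ℝ) ^ 5)) * Real.exp ((N : ℝ) ^ 4) ≤ Real.exp (-3) := by
        rw [← Real.exp_add]
        apply Real.exp_le_exp.2
        have h3 : (4 : ℝ) * N ^ 4 ≤ (N : ℝ) ^ 5 := by
          calc (4 : ℝ) * N ^ 4 ≤ N * N ^ 4 :=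
                mul_le_mul_of_nonneg_right (le_trans (by norm_num) hN) (by positivity)
            _ = (N : ℝ) ^ 5 := by ring
        have h4 : (1 : ℝ) ≤ (N : ℝ) ^ 4 := one_le_pow₀ hN1
        linarith
      have h3 : Real.exp (-3 : ℝ) ≤ 1 / 8 := by
        rw [Real.exp_neg, ← one_div]
        apply one_div_le_one_div_of_le (by norm_num)
        have h4 : Real.exp (3 : ℝ) = Real.exp 1 ^ 3 := by
          rw [← Real.exp_nat_mul]
          norm_num
        rw [h4]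
        have h5 := Real.exp_one_gt_d9
        have h6 : (2 : ℝ) ≤ Real.exp 1 := by linarith
        calc (8 : ℝ) = 2 ^ 3 := by norm_num
          _ ≤ Real.exp 1 ^ 3 := pow_le_pow_left₀ (by norm_num) h6 3
      have h4 := mul_le_mul_of_nonneg_left h1 (Real.exp_pos (-((N : ℝ) ^ 5))).le
      have h5 : 4 * (2 * Real.exp (-((N : ℝ) ^ 5))) * ((Δ : ℝ) + 1) ^ (2 * (2 * N ^ 3 + 3)) =
          8 * (Real.exp (-((N : ℝ) ^ 5)) * ((Δ : ℝ) + 1) ^ (2 * (2 * N ^ 3 + 3))) := by ring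
      rw [h5]
      linarith)
  refine ⟨ω, fun v => ?_, fun κ hκ v => ?_⟩
  · by_contra h
    exact hω v (Or.inl (by
      change N ^ 5 + 1 ≤ _
      omega))
  · constructor
    · by_contra h
      exact hω v (Or.inr ⟨κ, Finset.mem_univ _, hκ, Or.inl (not_le.1 h)⟩)
    · by_contra h
      exact hω v (Or.inr ⟨κ, Finset.mem_univ _, hκ, Or.inr (not_le.1 h)⟩)

end

end Pool.Agent.H64.LN
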