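import Pool.Agent.H64.LN.Bwk

/-!
Block B: alternating flow along random walks.
-/

set_option autoImplicit false
set_option linter.unusedSectionVars false

namespace Pool.Agent.H64.LN

open Finset Classical
open Pool.Agent.H65.GI
open Pool.Agent.H2.LN

section
variable {V : Type} [Fintype V]

theorem hit_zero (H : SimpleGraph V) (D : Finset V) (x : V) :
    hit H D 0 x = if x ∈ D then 1 else 0 := by
  simp only [hit, pow_zero, Matrix.one_apply]
  rw [Finset.sum_ite_eq]

theorem hit_succ (H : SimpleGraph V) (D : Finset V) (k : ℕ) (x : V) :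
    hit H D (k + 1) x = ∑ y, srw H x y * hit H D k y := by
  simp only [hit]
  have h1 : ∀ z, (srw H ^ (k + 1)) x z = ∑ y, srw H x y * (srw H ^ k) y z := by
    intro z
    rw [pow_succ', Matrix.mul_apply]
  rw [Finset.sum_congr rfl (fun z _ => h1 z), Finset.sum_comm]
  exact Finset.sum_congr rfl (fun y _ => (Finset.mul_sum _ _ _).symm)

theorem hit_nn (H : SimpleGraph V) (D : Finset V) (k : ℕ) (x : V) : 0 ≤ hit H D k x :=
  Finset.sum_nonneg (fun z _ => srw_nn H k x z)

theorem hit_le (H : SimpleGraph V) (hd : ∀ x, 0 < dgr H x) (D : Finset V) (k : ℕ) (x : V) :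
    hit H D k x ≤ 1 := by
  rw [← srw_row H hd k x]
  exact Finset.sum_le_sum_of_subset_of_nonneg (Finset.subset_univ _)
    (fun z _ _ => srw_nn H k x z)

private theorem Bfl_tel (g : ℕ → ℝ) (k : ℕ) :
    ∑ i ∈ range k, (-1 : ℝ) ^ i * (g i + g (i + 1)) = g 0 - (-1) ^ k * g k := by
  induction k with
  | zero => simp
  | succ k ih =>
    rw [Finset.sum_range_succ, ih, pow_succ]
    ring

theorem flow (H : SimpleGraph V) (hd : ∀ x, 0 < dgr H x) (hd2 : ∀ x y, dgr H x ≤ 2 * dgr H y)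
    (dm : ℝ) (hdm : 0 < dm) (hdm' : ∀ x, dm ≤ dgr H x) (D : Finset V) (k : ℕ) (s : V → ℝ)
    (hs : ∀ x, 0 ≤ s x) (ε δ : ℝ) (hsε : ∀ x, s x ≤ ε) (hδ : 0 < δ)
    (hh : ∀ x, δ ≤ hit H D k x) :
    ∃ (φ : V → V → ℝ) (l : V → ℝ), (∀ x y, φ x y = φ y x) ∧ (∀ x y, ¬ H.Adj x y → φ x y = 0) ∧
      (∀ x y, |φ x y| ≤ k * (4 * ε / (δ * dm))) ∧
      (∀ x, ∑ y, φ x y = s x - (-1) ^ k * if x ∈ D then l x else 0) ∧
      ∀ x, 0 ≤ l x ∧ l x ≤ 2 * ε / δ := by
  let ν : ℕ → V → ℝ := fun i x => ∑ v, s v / hit H D k v * (srw H ^ i) v x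
  let F : ℕ → V → V → ℝ := fun i x y => ν i x * srw H x y * hit H D (k - i - 1) y
  have hh0 : ∀ x, 0 < hit H D k x := fun x => lt_of_lt_of_le hδ (hh x)
  have hν0 : ∀ i x, 0 ≤ ν i x := fun i x =>
    Finset.sum_nonneg (fun v _ => mul_nonneg (div_nonneg (hs v) (hh0 v).le) (srw_nn H i v x))
  have hε : ∀ v, s v / hit H D k v ≤ ε / δ := fun v =>
    div_le_div₀ ((hs v).trans (hsε v)) (hsε v) hδ (hh v)
  have hν1 : ∀ i x, ν i x ≤ 2 * ε / δ := by
    intro i x
    have hεδ : 0 ≤ ε / δ := div_nonneg ((hs x).trans (hsε x)) hδ.le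
    calc ν i x ≤ ∑ v, ε / δ * (srw H ^ i) v x :=
          Finset.sum_le_sum (fun v _ => mul_le_mul_of_nonneg_right (hε v) (srw_nn H i v x))
      _ = ε / δ * ∑ v, (srw H ^ i) v x := by rw [Finset.mul_sum]
      _ ≤ ε / δ * 2 := mul_le_mul_of_nonneg_left (srw_col H hd hd2 i x) hεδ
      _ = 2 * ε / δ := by ring
  have hνs : ∀ i x, ν (i + 1) x = ∑ y, ν i y * srw H y x := by
    intro i x
    simp only [ν]
    have h1 : ∀ v, (srw H ^ (i + 1)) v x = ∑ y, (srw H ^ i) v y * srw H y x := by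
      intro v
      rw [pow_succ, Matrix.mul_apply]
    simp only [h1, Finset.mul_sum, Finset.sum_mul]
    rw [Finset.sum_comm]
    exact Finset.sum_congr rfl (fun y _ => Finset.sum_congr rfl (fun v _ => by ring))
  have hsr0 : ∀ x y, 0 ≤ srw H x y := by
    intro x y
    simp only [srw]
    split_ifs <;> positivity
  have hF0 : ∀ i x y, 0 ≤ F i x y := fun i x y =>
    mul_nonneg (mul_nonneg (hν0 i x) (hsr0 x y)) (hit_nn H D _ y)
  have hF1 : ∀ i x y, F i x y ≤ 2 * ε / (δ * dm) := by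
    intro i x y
    have h1 : srw H x y ≤ 1 / dm := by
      simp only [srw]
      split_ifs
      · exact one_div_le_one_div_of_le hdm (hdm' x)
      · positivity
    have h2 : 0 ≤ 2 * ε / δ := (hν0 i x).trans (hν1 i x)
    calc F i x y ≤ (2 * ε / δ) * (1 / dm) * 1 :=
          mul_le_mul (mul_le_mul (hν1 i x) h1 (hsr0 x y) h2) (hit_le H hd D _ y)
            (hit_nn H D _ y) (mul_nonneg h2 (by positivity))
      _ = 2 * ε / (δ * dm) := by field_simp
  have hFn : ∀ i x y, ¬ H.Adj x y → F i x y = 0 := by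
    intro i x y h
    simp only [F, srw]
    rw [if_neg h]
    ring
  refine ⟨fun x y => ∑ i ∈ range k, (-1 : ℝ) ^ i * (F i x y + F i y x), ν k, ?_, ?_, ?_, ?_,
    fun x => ⟨hν0 k x, hν1 k x⟩⟩
  · intro x y
    exact Finset.sum_congr rfl (fun i _ => by rw [add_comm])
  · intro x y h
    refine Finset.sum_eq_zero (fun i _ => ?_)
    rw [hFn i x y h, hFn i y x (fun h' => h h'.symm)]
    ring
  · intro x y
    refine (Finset.abs_sum_le_sum_abs _ _).trans ?_
    have h1 : ∀ i ∈ range k, |(-1 : ℝ) ^ i * (F i x y + F i y x)| ≤ 4 * ε / (δ * dm) := by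
      intro i _
      rw [abs_mul, abs_pow, abs_neg, abs_one, one_pow, one_mul,
        abs_of_nonneg (add_nonneg (hF0 i x y) (hF0 i y x))]
      have h2 := hF1 i x y
      have h3 := hF1 i y x
      have h4 : 4 * ε / (δ * dm) = 2 * ε / (δ * dm) + 2 * ε / (δ * dm) := by ring
      linarith
    refine (Finset.sum_le_sum h1).trans (le_of_eq ?_)
    rw [Finset.sum_const, Finset.card_range, nsmul_eq_mul]
  · intro x
    have h1 : ∀ i ∈ range k, ∑ y, (-1 : ℝ) ^ i * (F i x y + F i y x) =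
        (-1 : ℝ) ^ i * (ν i x * hit H D (k - i) x + ν (i + 1) x * hit H D (k - (i + 1)) x) := by
      intro i hi
      rw [Finset.mem_range] at hi
      rw [← Finset.mul_sum, Finset.sum_add_distrib]
      congr 2
      · have h2 : k - i = (k - i - 1) + 1 := by omega
        rw [h2, hit_succ, Finset.mul_sum]
        simp only [F]
        exact Finset.sum_congr rfl (fun y _ => by ring)
      · rw [hνs i x, Finset.sum_mul]
        rfl
    rw [Finset.sum_comm, Finset.sum_congr rfl h1,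
      Bfl_tel (fun i => ν i x * hit H D (k - i) x) k]
    have h2 : ν 0 x = s x / hit H D k x := by
      simp only [ν, pow_zero, Matrix.one_apply, mul_ite, mul_one, mul_zero]
      rw [Finset.sum_ite_eq']
      simp
    simp only [Nat.sub_zero, Nat.sub_self]
    rw [h2, hit_zero, div_mul_cancel₀ _ (hh0 x).ne']
    split_ifs
    · ring
    · ring

end

end Pool.Agent.H64.LN
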