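import Pool.Agent.H64.LN.Bfl
import Pool.Agent.H64.GI.Ard
import Pool.Agent.H64.GI.Akg

/-!
Block B: exact degrees in the graph of a class.
-/

set_option autoImplicit false
set_option linter.unusedSectionVars false

namespace Pool.Agent.H64.LN

open Finset Classical
open Pool.Agent.H65.GI
open Pool.Agent.H2.LN

/-- the inverse density of the coins -/
noncomputable def qD (Δ : ℕ) : ℕ := ⌊(Δ : ℝ) ^ ((21 : ℝ) / 10)⌋₊

/-- a lower bound for the probability of ending in `D` -/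
noncomputable def dl (N Δ : ℕ) : ℝ := 1 / (4 * (qD Δ * mT N))

section
variable {V : Type} [Fintype V] {G : SimpleGraph V} {N Δ : ℕ} {χ : V → Ty N}

theorem qD_le (hP : Pm N Δ) : ∃ t : ℝ, 0 < t ∧ t ^ 10 = Δ ∧ (N : ℝ) ^ 4000 ≤ t ∧
    (Δ : ℝ) ^ (-(2 : ℝ) / 5) = 1 / t ^ 4 ∧ (Δ : ℝ) ^ (-(23 : ℝ) / 10) = 1 / t ^ 23 ∧
    (qD Δ : ℝ) ≤ t ^ 21 ∧ t ^ 21 ≤ qD Δ + 1 ∧ 1 ≤ t ∧ 1 ≤ qD Δ := by
  obtain ⟨t, h1, h2, h3, h4, h5, h6⟩ := ntex hP
  have ht1 : (1 : ℝ) ≤ t := le_trans (one_le_pow₀ (nN1 hP)) h3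
  have h7 : 1 ≤ qD Δ := by
    rw [qD, h6]
    exact Nat.le_floor (by exact_mod_cast one_le_pow₀ ht1)
  refine ⟨t, h1, h2, h3, h4, h5, ?_, ?_, ht1, h7⟩
  · rw [qD, h6]
    exact Nat.floor_le (by positivity)
  · rw [qD, h6]
    exact (Nat.lt_floor_add_one _).le

theorem dl_pos (hP : Pm N Δ) : 0 < dl N Δ := by
  obtain ⟨t, -, -, -, -, -, -, -, -, h⟩ := qD_le hP
  have h1 : (0 : ℝ) < qD Δ := by exact_mod_cast h
  have h2 := nmT0 hP
  rw [dl]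
  positivity

theorem Brd_num (hP : Pm N Δ) :
    4 * (Δ : ℝ) ^ (-(23 : ℝ) / 10) / dl N Δ ≤ 1 ∧
    ((2 * N ^ 3 + 1 : ℕ) : ℝ) * (4 * (Δ : ℝ) ^ (-(23 : ℝ) / 10) /
      (dl N Δ * ((Δ : ℝ) / mT N * (1 - 1 / N ^ 9)))) ≤ (Δ : ℝ) ^ (-(2 : ℝ) / 5) / 4 := by
  obtain ⟨t, ht0, ht10, htN, h4, h23, hq, -, ht1, hq1⟩ := qD_le hP
  have hm := (nmT hP).2
  have hm0 := nmT0 hP
  have hN1 := nN1 hP
  have hN := nN hP
  have hq0 : (0 : ℝ) < qD Δ := by exact_mod_cast hq1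
  obtain ⟨m, hmd⟩ : ∃ m : ℝ, m = mT N := ⟨_, rfl⟩
  have hmt : m ≤ 4 * N ^ 54 := by rw [hmd]; exact hm
  have hm0' : 0 < m := by rw [hmd]; exact hm0
  have hed : 4 * (Δ : ℝ) ^ (-(23 : ℝ) / 10) / dl N Δ ≤ 16 * m / t ^ 2 := by
    rw [h23, dl, ← hmd]
    have h1 : 4 * (1 / t ^ 23) / (1 / (4 * (qD Δ * m))) = 16 * (qD Δ * m) / t ^ 23 := by
      field_simp
      norm_num
    rw [h1, div_le_div_iff₀ (by positivity) (by positivity)]
    have h2 : (qD Δ : ℝ) * m ≤ t ^ 21 * m := mul_le_mul_of_nonneg_right hq hm0'.le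
    have h3 : (0 : ℝ) ≤ t ^ 2 := by positivity
    have h5 := mul_le_mul_of_nonneg_right h2 h3
    have h6 : t ^ 21 * m * t ^ 2 = m * t ^ 23 := by ring
    nlinarith
  have hN64 : (64 : ℝ) * N ^ 54 ≤ t ^ 2 := by
    calc (64 : ℝ) * N ^ 54 ≤ N * N ^ 54 :=
          mul_le_mul_of_nonneg_right (le_trans (by norm_num) hN) (by positivity)
      _ = (N : ℝ) ^ 55 := by ring
      _ ≤ (N : ℝ) ^ 4000 := pow_le_pow_right₀ hN1 (by norm_num)
      _ ≤ t := htN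
      _ ≤ t ^ 2 := by nlinarith
  refine ⟨hed.trans ?_, ?_⟩
  · rw [div_le_one (by positivity)]
    linarith
  · have hN9 := nN9 hP
    obtain ⟨e, he⟩ : ∃ e, e = 1 / (N : ℝ) ^ 9 := ⟨_, rfl⟩
    rw [← he] at hN9 ⊢
    have h1 : ((2 * N ^ 3 + 1 : ℕ) : ℝ) ≤ 3 * N ^ 3 := by
      push_cast
      have : (1 : ℝ) ≤ (N : ℝ) ^ 3 := one_le_pow₀ hN1
      linarith
    have h2 : 4 * (Δ : ℝ) ^ (-(23 : ℝ) / 10) / (dl N Δ * ((Δ : ℝ) / mT N * (1 - e))) ≤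
        32 * m ^ 2 / t ^ 12 := by
      have h3 : 4 * (Δ : ℝ) ^ (-(23 : ℝ) / 10) / (dl N Δ * ((Δ : ℝ) / mT N * (1 - e))) =
          4 * (Δ : ℝ) ^ (-(23 : ℝ) / 10) / dl N Δ * (m / (Δ * (1 - e))) := by
        rw [← hmd]
        have := (dl_pos hP).ne'
        have h4 : (1 - e) ≠ 0 := by
          have : 0 < 1 - e := by linarith
          exact this.ne'
        have h5 := (nΔ0 hP).ne'
        field_simp
      rw [h3, ← ht10]
      have h5 : m / (t ^ 10 * (1 - e)) ≤ 2 * m / t ^ 10 := by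
        rw [div_le_div_iff₀ (mul_pos (by positivity) (by linarith)) (by positivity)]
        have h6 : 0 ≤ m * t ^ 10 := by positivity
        nlinarith
      calc _ ≤ 16 * m / t ^ 2 * (2 * m / t ^ 10) :=
            mul_le_mul (by rw [ht10]; exact hed) h5 (div_nonneg hm0'.le
              (mul_nonneg (by positivity) (by linarith))) (by positivity)
        _ = 32 * m ^ 2 / t ^ 12 := by
            field_simp
            norm_num
    have h3 : (0 : ℝ) ≤ 4 * (Δ : ℝ) ^ (-(23 : ℝ) / 10) /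
        (dl N Δ * ((Δ : ℝ) / mT N * (1 - e))) := by
      have h4 := (dl_pos hP).le
      have h5 : (0 : ℝ) ≤ (Δ : ℝ) ^ (-(23 : ℝ) / 10) := Real.rpow_nonneg (nΔ0 hP).le _
      have h6 : (0 : ℝ) ≤ (Δ : ℝ) / mT N * (1 - e) :=
        mul_nonneg (div_nonneg (nΔ0 hP).le hm0.le) (by linarith)
      positivity
    refine (mul_le_mul h1 h2 h3 (by positivity)).trans ?_
    rw [h4]
    have h7 : m ^ 2 ≤ 16 * (N : ℝ) ^ 108 := by
      calc m ^ 2 ≤ (4 * (N : ℝ) ^ 54) ^ 2 := pow_le_pow_left₀ hm0'.le hmt 2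
        _ = 16 * (N : ℝ) ^ 108 := by ring
    have h8 : (6144 : ℝ) * N ^ 111 ≤ t ^ 8 := by
      calc (6144 : ℝ) * N ^ 111 ≤ N * N ^ 111 :=
            mul_le_mul_of_nonneg_right (le_trans (by norm_num) hN) (by positivity)
        _ = (N : ℝ) ^ 112 := by ring
        _ ≤ (N : ℝ) ^ 4000 := pow_le_pow_right₀ hN1 (by norm_num)
        _ ≤ t := htN
        _ = t ^ 1 := (pow_one t).symm
        _ ≤ t ^ 8 := pow_le_pow_right₀ ht1 (by norm_num)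
    have h9 : 3 * (N : ℝ) ^ 3 * (32 * m ^ 2 / t ^ 12) = 96 * (N ^ 3 * m ^ 2) / t ^ 12 := by ring
    rw [h9]
    have h10 : 1 / t ^ 4 / 4 = t ^ 8 / (4 * t ^ 12) := by
      field_simp
    rw [h10, div_le_div_iff₀ (by positivity) (by positivity)]
    have h11 : 96 * ((N : ℝ) ^ 3 * m ^ 2) * 4 ≤ t ^ 8 := by
      have h12 : (N : ℝ) ^ 3 * m ^ 2 ≤ N ^ 3 * (16 * N ^ 108) :=
        mul_le_mul_of_nonneg_left h7 (by positivity)
      have h13 : (N : ℝ) ^ 3 * (16 * N ^ 108) = 16 * N ^ 111 := by ring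
      linarith
    have h14 : (0 : ℝ) ≤ t ^ 12 := by positivity
    have h15 := mul_le_mul_of_nonneg_right h11 h14
    linarith

/-- exact degrees in the class graph -/
theorem cls_graph (hP : Pm N Δ) (hE : EHo G N Δ χ) (κ : Ty N) (hκ : κ.1 ≠ 0) (D : Finset V)
    (hD : ∀ x, dl N Δ ≤ hit (cg G χ κ) D (2 * N ^ 3) x ∧
      dl N Δ ≤ hit (cg G χ κ) D (2 * N ^ 3 + 1) x) :
    ∃ F : SimpleGraph V, (∀ u v, F.Adj u v → (cg G χ κ).Adj u v) ∧
      (∀ v, v ∉ D → (univ.filter (fun w => F.Adj v w)).card = d0 N Δ) ∧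
      ∀ v ∈ D, d0 N Δ ≤ (univ.filter (fun w => F.Adj v w)).card + 1 ∧
        (univ.filter (fun w => F.Adj v w)).card ≤ d0 N Δ := by
  obtain ⟨i, hi⟩ : ∃ i, κ.1 i ≠ 0 := Function.ne_iff.1 hκ
  obtain ⟨y, hy1, hy2, hy3, hy4⟩ := cg_wts hE κ hκ
  obtain ⟨hn1, hn2⟩ := Brd_num hP
  obtain ⟨ε, hε⟩ : ∃ ε, ε = (Δ : ℝ) ^ (-(23 : ℝ) / 10) := ⟨_, rfl⟩
  obtain ⟨τ, hτ⟩ : ∃ τ, τ = (Δ : ℝ) ^ (-(2 : ℝ) / 5) := ⟨_, rfl⟩
  rw [← hε] at hn1 hn2
  simp only [← hε, ← hτ] at hy3 hy4 hn2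
  have hτ1 : τ ≤ 1 / 2 := by
    obtain ⟨t, ht0, ht10, htN, h4, -⟩ := qD_le hP
    rw [hτ, h4]
    have h1 : (2 : ℝ) ≤ t ^ 4 := by
      have h2 : (2 : ℝ) ≤ t := by
        calc (2 : ℝ) ≤ N := le_trans (by norm_num) (nN hP)
          _ = (N : ℝ) ^ 1 := (pow_one _).symm
          _ ≤ (N : ℝ) ^ 4000 := pow_le_pow_right₀ (nN1 hP) (by norm_num)
          _ ≤ t := htN
      calc (2 : ℝ) ≤ t := h2
        _ = t ^ 1 := (pow_one _).symm
        _ ≤ t ^ 4 := pow_le_pow_right₀ (by linarith) (by norm_num)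
    exact one_div_le_one_div_of_le (by norm_num) h1
  have hτ0 : 0 ≤ τ := by rw [hτ]; exact Real.rpow_nonneg (nΔ0 hP).le _
  have hdl := dl_pos hP
  have hdm : 0 < (Δ : ℝ) / mT N * (1 - 1 / N ^ 9) :=
    mul_pos (div_pos (nΔ0 hP) (nmT0 hP)) (by linarith [nN9 hP])
  obtain ⟨n, hn⟩ : ∃ n : V → ℝ, n = fun v => (d0 N Δ : ℝ) - ∑ u, y v u := ⟨_, rfl⟩
  have hnε : ∀ v, |n v| ≤ ε := by
    intro v
    rw [hn, abs_sub_comm]
    exact hy4 v
  obtain ⟨φ1, l1, p1, p2, p3, p4, p5⟩ := flow (cg G χ κ) (cg_pos hP hE κ) (cg_two hP hE κ) _ hdm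
    (fun x => (cg_dgr hP hE κ x).1) D (2 * N ^ 3) (fun v => max (n v) 0)
    (fun v => le_max_right _ _) ε (dl N Δ)
    (fun v => max_le ((le_abs_self _).trans (hnε v)) ((abs_nonneg _).trans (hnε v))) hdl
    (fun x => (hD x).1)
  obtain ⟨φ2, l2, r1, r2, r3, r4, r5⟩ := flow (cg G χ κ) (cg_pos hP hE κ) (cg_two hP hE κ) _ hdm
    (fun x => (cg_dgr hP hE κ x).1) D (2 * N ^ 3 + 1) (fun v => max (-n v) 0)
    (fun v => le_max_right _ _) ε (dl N Δ)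
    (fun v => max_le ((neg_le_abs _).trans (hnε v)) ((abs_nonneg _).trans (hnε v))) hdl
    (fun x => (hD x).2)
  have hev : (-1 : ℝ) ^ (2 * N ^ 3) = 1 := by rw [pow_mul]; norm_num
  have hod : (-1 : ℝ) ^ (2 * N ^ 3 + 1) = -1 := by rw [pow_succ, hev]; norm_num
  rw [hev] at p4
  rw [hod] at r4
  have hq0 : 0 ≤ 4 * ε / (dl N Δ * ((Δ : ℝ) / mT N * (1 - 1 / N ^ 9))) := by
    have h1 : 0 ≤ ε := by rw [hε]; exact Real.rpow_nonneg (nΔ0 hP).le _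
    positivity
  have hb1 : ∀ x z, |φ1 x z| ≤ τ / 4 := fun x z => (p3 x z).trans (le_trans
    (mul_le_mul_of_nonneg_right (by push_cast; linarith) hq0) hn2)
  have hb2 : ∀ x z, |φ2 x z| ≤ τ / 4 := fun x z => (r3 x z).trans hn2
  have hsum : ∀ v, ∑ w, (y v w + φ1 v w - φ2 v w) =
      d0 N Δ - if v ∈ D then l1 v + l2 v else 0 := by
    intro v
    rw [Finset.sum_sub_distrib, Finset.sum_add_distrib, p4 v, r4 v]
    have h1 : max (n v) 0 - max (-n v) 0 = n v := by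
      rcases le_total (n v) 0 with h | h
      · rw [max_eq_right h, max_eq_left (by linarith)]
        ring
      · rw [max_eq_left h, max_eq_right (by linarith)]
        ring
    have h2 : ∑ w, y v w = d0 N Δ - n v := by
      rw [hn]
      ring
    rw [h2]
    split_ifs <;> linarith
  refine Pool.Agent.H64.GI.rounding (cg G χ κ) (fun u => decide ((χ u).1 i = 0)) ?_ (d0 N Δ) D
    (fun v w => y v w + φ1 v w - φ2 v w) ?_ ?_ ?_ ?_ ?_ ?_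
  · intro u v h
    rcases cg_side hi h with ⟨h1, h2⟩ | ⟨h1, h2⟩ <;> simp [h1, h2]
  · intro v w
    rw [hy1, p1, r1]
  · intro v w
    by_cases h : (cg G χ κ).Adj v w
    · have h1 := hy3 v w h
      have h2 := abs_le.1 (hb1 v w)
      have h3 := abs_le.1 (hb2 v w)
      linarith [h1.1, h2.1, h3.2]
    · rw [hy2 v w h, p2 v w h, r2 v w h]
      norm_num
  · intro v w
    by_cases h : (cg G χ κ).Adj v w
    · have h1 := hy3 v w h
      have h2 := abs_le.1 (hb1 v w)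
      have h3 := abs_le.1 (hb2 v w)
      linarith [h1.2, h2.2, h3.1]
    · rw [hy2 v w h, p2 v w h, r2 v w h]
      norm_num
  · intro v w h
    rw [hy2 v w h, p2 v w h, r2 v w h]
    norm_num
  · intro v hv
    rw [hsum v, if_neg hv, sub_zero]
  · intro v hv
    rw [hsum v, if_pos hv]
    have h1 := p5 v
    have h2 := r5 v
    have h3 : 4 * ε / dl N Δ = 2 * ε / dl N Δ + 2 * ε / dl N Δ := by ring
    constructor <;> linarith [h1.1, h1.2, h2.1, h2.2]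

end

end Pool.Agent.H64.LN
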