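import Pool.Agent.H64.LN.Bcg
import Pool.Agent.H65.GI.Lll

/-!
Block B: the simple random walk on the graph of a class.
-/

set_option autoImplicit false
set_option linter.unusedSectionVars false

namespace Pool.Agent.H64.LN

open Finset Classical
open Pool.Agent.H65.GI
open Pool.Agent.H2.LN

/-- degree -/
noncomputable def dgr {V : Type} [Fintype V] (H : SimpleGraph V) (x : V) : ℝ :=
  ((univ.filter (fun w => H.Adj x w)).card : ℝ)

section
variable {V : Type} [Fintype V]

theorem srw_nn (H : SimpleGraph V) (k : ℕ) (x y : V) : 0 ≤ (srw H ^ k) x y := by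
  induction k generalizing x y with
  | zero =>
    rw [pow_zero, Matrix.one_apply]
    split_ifs <;> norm_num
  | succ k ih =>
    rw [pow_succ, Matrix.mul_apply]
    refine Finset.sum_nonneg (fun z _ => mul_nonneg (ih x z) ?_)
    simp only [srw]
    split_ifs <;> positivity

theorem srw_row1 (H : SimpleGraph V) (hd : ∀ x, 0 < dgr H x) (x : V) : ∑ y, srw H x y = 1 := by
  simp only [srw]
  rw [← Finset.sum_filter, Finset.sum_const, nsmul_eq_mul]
  have h := hd x
  rw [dgr] at h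
  field_simp

theorem srw_row (H : SimpleGraph V) (hd : ∀ x, 0 < dgr H x) (k : ℕ) (x : V) :
    ∑ y, (srw H ^ k) x y = 1 := by
  induction k generalizing x with
  | zero => simp [Matrix.one_apply]
  | succ k ih =>
    simp only [pow_succ, Matrix.mul_apply]
    rw [Finset.sum_comm]
    simp only [← Finset.mul_sum, srw_row1 H hd, mul_one]
    exact ih x

theorem srw_rev1 (H : SimpleGraph V) (hd : ∀ x, 0 < dgr H x) (x y : V) :
    dgr H x * srw H x y = dgr H y * srw H y x := by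
  have hx := hd x
  have hy := hd y
  rw [dgr] at hx hy
  simp only [srw, dgr, H.adj_comm x y]
  split_ifs
  · field_simp
  · simp

theorem srw_rev (H : SimpleGraph V) (hd : ∀ x, 0 < dgr H x) (k : ℕ) (x y : V) :
    dgr H x * (srw H ^ k) x y = dgr H y * (srw H ^ k) y x := by
  induction k generalizing x y with
  | zero =>
    simp only [pow_zero, Matrix.one_apply]
    by_cases h : x = y
    · subst h
      rfl
    · rw [if_neg h, if_neg (fun e => h e.symm), mul_zero, mul_zero]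
  | succ k ih =>
    have e1 : (srw H ^ (k + 1)) x y = ∑ z, (srw H ^ k) x z * srw H z y := by
      rw [pow_succ, Matrix.mul_apply]
    have e2 : (srw H ^ (k + 1)) y x = ∑ z, srw H y z * (srw H ^ k) z x := by
      rw [pow_succ', Matrix.mul_apply]
    rw [e1, e2, Finset.mul_sum, Finset.mul_sum]
    refine Finset.sum_congr rfl (fun z _ => ?_)
    rw [← mul_assoc, ih x z, ← mul_assoc, ← srw_rev1 H hd z y]
    ring

theorem srw_col (H : SimpleGraph V) (hd : ∀ x, 0 < dgr H x) (hd2 : ∀ x y, dgr H x ≤ 2 * dgr H y)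
    (k : ℕ) (x : V) : ∑ v, (srw H ^ k) v x ≤ 2 := by
  have h1 : ∀ v, (srw H ^ k) v x ≤ 2 * (srw H ^ k) x v := by
    intro v
    have h2 := srw_rev H hd k v x
    have h3 := hd v
    have h4 := mul_le_mul_of_nonneg_right (hd2 x v) (srw_nn H k x v)
    rw [← h2] at h4
    nlinarith
  refine (Finset.sum_le_sum (fun v _ => h1 v)).trans ?_
  rw [← Finset.mul_sum, srw_row H hd]
  norm_num

theorem srw_supp (G H : SimpleGraph V) (hHG : ∀ u v, H.Adj u v → G.Adj u v) (k : ℕ) (v x : V)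
    (hx : x ∉ bl G v k) : (srw H ^ k) v x = 0 := by
  induction k generalizing x with
  | zero =>
    rw [pow_zero, Matrix.one_apply, if_neg]
    intro e
    apply hx
    rw [← e]
    exact bl_self G v 0
  | succ k ih =>
    rw [pow_succ, Matrix.mul_apply]
    refine Finset.sum_eq_zero (fun z _ => ?_)
    by_cases hz : z ∈ bl G v k
    · have h1 : ¬ H.Adj z x := fun h => hx (bl_adj G hz (hHG _ _ h))
      simp only [srw]
      rw [if_neg h1, mul_zero]
    · rw [ih z hz, zero_mul]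

theorem itr_supp (G H : SimpleGraph V) (hHG : ∀ u v, H.Adj u v → G.Adj u v) (d : ℝ) (k : ℕ)
    (v x : V) (hx : x ∉ bl G v k) : itr (adjR H) d v k x = 0 := by
  induction k generalizing x with
  | zero =>
    simp only [itr]
    rw [if_neg]
    intro e
    apply hx
    rw [e]
    exact bl_self G v 0
  | succ k ih =>
    simp only [itr, stp]
    rw [Finset.sum_eq_zero, zero_div]
    intro z _
    by_cases hz : z ∈ bl G v k
    · have h1 : ¬ H.Adj z x := fun h => hx (bl_adj G hz (hHG _ _ h))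
      simp only [adjR]
      rw [if_neg h1, mul_zero]
    · rw [ih z hz, zero_mul]

theorem srw_le_itr (H : SimpleGraph V) (d c : ℝ) (hd : 0 < d) (hc : 0 ≤ c)
    (h : ∀ x, 1 / dgr H x ≤ c / d) (k : ℕ) (v x : V) :
    (srw H ^ k) v x ≤ c ^ k * itr (adjR H) d v k x := by
  induction k generalizing x with
  | zero =>
    simp only [pow_zero, Matrix.one_apply, itr, one_mul]
    by_cases h : x = v
    · rw [if_pos h, if_pos h.symm]
    · rw [if_neg h, if_neg (fun e => h e.symm)]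
  | succ k ih =>
    rw [pow_succ, Matrix.mul_apply]
    simp only [itr, stp]
    rw [Finset.sum_div, Finset.mul_sum]
    refine Finset.sum_le_sum (fun z _ => ?_)
    have h1 : srw H z x ≤ c / d * adjR H z x := by
      simp only [srw, adjR]
      split_ifs
      · rw [mul_one]
        exact h z
      · rw [mul_zero]
    calc (srw H ^ k) v z * srw H z x ≤ (c ^ k * itr (adjR H) d v k z) * (c / d * adjR H z x) := by
          refine mul_le_mul (ih z) h1 ?_ ?_
          · simp only [srw]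
            split_ifs <;> positivity
          · exact mul_nonneg (pow_nonneg hc _) (itr_nn _ d (adjR_nn H) hd v k z)
      _ = c ^ (k + 1) * (itr (adjR H) d v k z * adjR H z x / d) := by
          rw [pow_succ]
          ring

end

section
variable {V : Type} [Fintype V] {G : SimpleGraph V} {N Δ : ℕ} {χ : V → Ty N}

theorem cg_dgr (_hP : Pm N Δ) (hE : EHo G N Δ χ) (κ : Ty N) (x : V) :
    (Δ : ℝ) / mT N * (1 - 1 / N ^ 9) ≤ dgr (cg G χ κ) x ∧
      dgr (cg G χ κ) x ≤ (Δ : ℝ) / mT N * (1 + 1 / N ^ 9) := by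
  have h1 := abs_le.1 (cg_deg hE κ x)
  have h2 : (Δ : ℝ) / mT N * (1 - 1 / N ^ 9) = (Δ : ℝ) / mT N - (Δ : ℝ) / mT N / N ^ 9 := by ring
  have h3 : (Δ : ℝ) / mT N * (1 + 1 / N ^ 9) = (Δ : ℝ) / mT N + (Δ : ℝ) / mT N / N ^ 9 := by ring
  rw [h2, h3, dgr]
  constructor <;> linarith [h1.1, h1.2]

theorem nN9 (hP : Pm N Δ) : 1 / (N : ℝ) ^ 9 ≤ 1 / 100 := by
  have h1 := nN hP
  have h2 : (100 : ℝ) ≤ (N : ℝ) ^ 9 := by
    calc (100 : ℝ) ≤ ((2 : ℝ) ^ 40) ^ 9 := by norm_num
      _ ≤ (N : ℝ) ^ 9 := pow_le_pow_left₀ (by norm_num) h1 9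
  exact one_div_le_one_div_of_le (by norm_num) h2

theorem cg_pos (hP : Pm N Δ) (hE : EHo G N Δ χ) (κ : Ty N) (x : V) :
    0 < dgr (cg G χ κ) x := by
  refine lt_of_lt_of_le ?_ (cg_dgr hP hE κ x).1
  have h1 := nN9 hP
  have h2 : 0 < (Δ : ℝ) / mT N := div_pos (nΔ0 hP) (nmT0 hP)
  exact mul_pos h2 (by linarith)

theorem cg_two (hP : Pm N Δ) (hE : EHo G N Δ χ) (κ : Ty N) (x y : V) :
    dgr (cg G χ κ) x ≤ 2 * dgr (cg G χ κ) y := by
  have h1 := nN9 hP
  have h2 : 0 < (Δ : ℝ) / mT N := div_pos (nΔ0 hP) (nmT0 hP)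
  have h3 := (cg_dgr hP hE κ x).2
  have h4 := (cg_dgr hP hE κ y).1
  nlinarith

/-- the walk on a class graph is spread out -/
theorem cg_mix (hP : Pm N Δ) (hE : EHo G N Δ χ) (κ : Ty N) (hκ : κ.1 ≠ 0) (k : ℕ)
    (hk : N ^ 3 ≤ k) (hk' : k ≤ 2 * N ^ 3 + 1) (v : V) :
    ∑ x, ((srw (cg G χ κ) ^ k) v x) ^ 2 ≤ (N : ℝ) ^ 3 / (Δ : ℝ) ^ 12 := by
  have hN0 := nN0 hP
  have hN1 := nN1 hP
  have hN := nN hP
  have hΔ0 := nΔ0 hP
  have hΔ1 := nΔ1 hP
  have hm0 := nmT0 hP
  have h9 := nN9 hP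
  have h90 : 0 < 1 / (N : ℝ) ^ 9 := by positivity
  obtain ⟨e, he⟩ : ∃ e, e = 1 / (N : ℝ) ^ 9 := ⟨_, rfl⟩
  obtain ⟨dm, hdm⟩ : ∃ dm, dm = (Δ : ℝ) / mT N := ⟨_, rfl⟩
  have hdm0 : 0 < dm := by rw [hdm]; positivity
  have hdg := fun x => cg_dgr hP hE κ x
  rw [← he] at h9 h90
  simp only [← he, ← hdm] at hdg
  have hNN : 1 ≤ N := by
    have := hP.big
    omega
  have hN3 : N ^ 3 * 8 = 8 * N ^ 3 := by ring
  have hpos3 : 1 ≤ N ^ 3 := Nat.one_le_pow _ _ hNN
  have hd : 0 < dm * (1 + e) := by positivity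
  have hmix := kk5 (adjR (cg G χ κ)) (dm * (1 + e)) (1 / (100 * N)) (Δ ^ 12)
    (Nat.one_le_pow _ _ (by exact_mod_cast hΔ0)) (adjR_nn _) hd (by positivity)
    ((div_le_one (by positivity)).2 (by linarith))
    (fun x => by
      rw [adjR_row]
      exact (hdg x).2)
    (fun y => by
      rw [Finset.sum_congr rfl (fun x _ => adjR_comm (cg G χ κ) x y), adjR_row]
      exact (hdg y).2)
    (bl G v (8 * N ^ 3))
    (fun S hS S' hS' hc hc' => by
      rw [adjR_ee]
      refine (cg_exp hE κ hκ v S S' hS hS' hc hc').trans ?_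
      rw [← hdm]
      have h1 : dm ≤ dm * (1 + e) := by nlinarith
      have h2 : (0 : ℝ) ≤ 1 - 1 / (100 * N) := by
        have : 1 / (100 * (N : ℝ)) ≤ 1 := (div_le_one (by positivity)).2 (by linarith)
        linarith
      have h3 : (0 : ℝ) ≤ ((S.card : ℝ) + S'.card) / 2 := by positivity
      exact mul_le_mul_of_nonneg_right (mul_le_mul_of_nonneg_left h1 h2) h3) v k
    (fun i hi x hx => itr_supp G (cg G χ κ) (fun _ _ h => h.1) _ i v x
      (fun h => hx (bl_mono G v (by omega) h)))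
    (by
      have h2 := nlogN hP
      have h3 : Real.log ((Δ ^ 12 : ℕ) : ℝ) = 12 * Real.log Δ := by
        push_cast
        rw [Real.log_pow]
        norm_num
      rw [h3]
      have h4 : (N : ℝ) ^ 3 ≤ k := by exact_mod_cast hk
      have h5 : (1 / (100 * (N : ℝ))) ^ 2 / 2 * (N : ℝ) ^ 3 = N / 20000 := by
        field_simp
        norm_num
      have h6 : (1 / (100 * (N : ℝ))) ^ 2 / 2 * (N : ℝ) ^ 3 ≤ (1 / (100 * (N : ℝ))) ^ 2 / 2 * k :=
        mul_le_mul_of_nonneg_left h4 (by positivity)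
      have h7 : (0 : ℝ) ≤ Real.log Δ := Real.log_nonneg hΔ1
      linarith)
  -- comparison
  have hcmp : ∀ x, (srw (cg G χ κ) ^ k) v x ≤
      (1 + 3 * e) ^ k * itr (adjR (cg G χ κ)) (dm * (1 + e)) v k x :=
    fun x => srw_le_itr _ _ _ hd (by positivity) (fun x => by
      have h1 := (hdg x).1
      have h2 : 0 < dm * (1 - e) := mul_pos hdm0 (by linarith)
      refine (one_div_le_one_div_of_le h2 h1).trans ?_
      rw [div_le_div_iff₀ h2 hd]
      have h3 : 0 ≤ dm * e * (1 - 3 * e) :=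
        mul_nonneg (mul_nonneg hdm0.le h90.le) (by linarith)
      nlinarith) k v x
  have hpow : ((1 + 3 * e) ^ k) ^ 2 ≤ 2 := by
    have h1 : (1 + 3 * e) ^ k ≤ Real.exp (3 * e * k) := by
      calc (1 + 3 * e) ^ k ≤ (Real.exp (3 * e)) ^ k :=
            pow_le_pow_left₀ (by positivity) (by linarith [Real.add_one_le_exp (3 * e)]) k
        _ = Real.exp (3 * e * k) := by
            rw [← Real.exp_nat_mul]
            congr 1
            ring
    have h2 : ((1 + 3 * e) ^ k) ^ 2 ≤ Real.exp (6 * e * k) := by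
      calc ((1 + 3 * e) ^ k) ^ 2 ≤ (Real.exp (3 * e * k)) ^ 2 :=
            pow_le_pow_left₀ (by positivity) h1 2
        _ = Real.exp (6 * e * k) := by
            rw [← Real.exp_nat_mul]
            congr 1
            push_cast
            ring
    have h3 : 6 * e * k ≤ 1 / 2 := by
      have h4 : (k : ℝ) ≤ 3 * (N : ℝ) ^ 3 := by
        have : k ≤ 3 * N ^ 3 := by omega
        exact_mod_cast this
      have h5 : 6 * e * k ≤ 6 * e * (3 * (N : ℝ) ^ 3) :=
        mul_le_mul_of_nonneg_left h4 (by positivity)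
      have h6 : 6 * e * (3 * (N : ℝ) ^ 3) = 18 / (N : ℝ) ^ 6 := by
        rw [he]
        field_simp
        norm_num
      have h7 : 18 / (N : ℝ) ^ 6 ≤ 1 / 2 := by
        rw [div_le_div_iff₀ (by positivity) (by norm_num)]
        calc (18 : ℝ) * 2 ≤ ((2 : ℝ) ^ 40) ^ 6 := by norm_num
          _ ≤ (N : ℝ) ^ 6 := pow_le_pow_left₀ (by norm_num) hN 6
          _ = 1 * (N : ℝ) ^ 6 := (one_mul _).symm
      linarith
    refine h2.trans ((Real.exp_le_exp.2 h3).trans ?_)
    have h4 : Real.exp (1 / 2) ^ 2 = Real.exp 1 := by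
      rw [← Real.exp_nat_mul]
      norm_num
    have h5 := Real.exp_one_lt_d9
    have h6 : 0 < Real.exp (1 / 2 : ℝ) := Real.exp_pos _
    nlinarith
  have h1 : ∑ x, ((srw (cg G χ κ) ^ k) v x) ^ 2 ≤
      2 * ∑ x, itr (adjR (cg G χ κ)) (dm * (1 + e)) v k x ^ 2 := by
    rw [Finset.mul_sum]
    refine Finset.sum_le_sum (fun x _ => ?_)
    calc ((srw (cg G χ κ) ^ k) v x) ^ 2
        ≤ ((1 + 3 * e) ^ k * itr (adjR (cg G χ κ)) (dm * (1 + e)) v k x) ^ 2 :=
          pow_le_pow_left₀ (srw_nn _ k v x) (hcmp x) 2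
      _ = ((1 + 3 * e) ^ k) ^ 2 * itr (adjR (cg G χ κ)) (dm * (1 + e)) v k x ^ 2 := by ring
      _ ≤ 2 * itr (adjR (cg G χ κ)) (dm * (1 + e)) v k x ^ 2 :=
          mul_le_mul_of_nonneg_right hpow (sq_nonneg _)
  refine h1.trans ((mul_le_mul_of_nonneg_left hmix (by norm_num)).trans ?_)
  push_cast
  have h2 : 8 / ((1 / (100 * (N : ℝ))) ^ 2 * (Δ : ℝ) ^ 12) = 80000 * N ^ 2 / (Δ : ℝ) ^ 12 := by
    field_simp
    norm_num
  rw [h2, ← add_div, ← mul_div_assoc, div_le_div_iff_of_pos_right (by positivity)]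
  have h4 : (160002 : ℝ) ≤ N := le_trans (by norm_num) hN
  nlinarith [mul_pos hN0 hN0, pow_pos hN0 3]

end

end Pool.Agent.H64.LN
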