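import Pool.Agent.H64.LN.Kdf

/-!
ROW LNK2. Expansion of small sets gives contraction of functions with small supports.
PROOF. Write `E = (∑ u² + ∑ w²)/2`, `A(f) = ∑ x, ∑ y, a x y * f`. 
(1) LAYER CAKE: `M := ∑ x, ∑ y, a x y * min (u x ^ 2) (w y ^ 2) ≤ (1-h) * d * E`. Discrete version: for a finite set of values. By induction on the number of elements of the finite set `W = (image of u²) ∪ (image of w²)` of nonzero values, or directly:
for reals `p, q ≥ 0` in `W ∪ {0}` write `min p q = ∑ i, (c i) * [p ≥ b i] * [q ≥ b i]`, `p = ∑ i, c i * [p ≥ b i]`, where `b 1 < b 2 < ... < b n` are the positive values in `W` and `c i = b i - b (i-1) > 0` (`b 0 = 0`).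
(Alternatively use the Lebesgue integral: `min p q = ∫ t in 0..B, [t < p][t < q]`, `p = ∫ t in 0..B, [t < p]`, `B` an upper bound; `intervalIntegral` of finite sums of indicator functions.) For every `i` the sets `S_i = {x : u x ^ 2 ≥ b i}`, `S'_i = {y : w y ^ 2 ≥ b i}` are contained in the supports, so in `U0`, of size `≤ ell`, and
`∑ x ∈ S_i, ∑ y ∈ S'_i, a x y ≤ (1-h) d (|S_i|+|S'_i|)/2`. Multiply by `c i` and add: `M ≤ (1-h) d ∑ i, c i (|S_i|+|S'_i|)/2 = (1-h) d (∑ u² + ∑ w²)/2`.
(2) `A(u²) + A(w²) ≤ d ∑ u² + d ∑ w² = 2 d E` (row and column sums), so `A(max (u²) (w²)) = A(u² + w² - min) ≤ 2 d E - M`.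
(3) `u x * w y = sqrt (min * max)`; Cauchy-Schwarz (`Finset.sum_mul_sq_le_sq_mul_sq` or `inner_mul_le_norm_mul_norm` on `V × V` with the functions `sqrt (a * min)`, `sqrt (a * max)`): `(A(u w))² ≤ M * A(max) ≤ M (2 d E - M)`; the function `M (2dE - M)` is increasing for `M ≤ dE`, so `≤ (1-h) d E (1+h) d E = (1-h²) (dE)² ≤ ((1-h²/2) d E)²`.
Take square roots (`abs_le_of_sq_le_sq'` or `pow_le_pow_left`).
-/

set_option autoImplicit false

namespace Pool.Agent.H64.LN

open Finset Classical

/-- layer cake: expansion for pairs of sets gives it for pairs of functions -/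
private theorem kk2_lc {V : Type} [Fintype V] (a : V → V → ℝ) (d h : ℝ) (ell : ℕ)
    (hd : 0 < d) (h1 : h ≤ 1) (U0 : Finset V)
    (hexp : ∀ S ⊆ U0, ∀ S' ⊆ U0, S.card ≤ ell → S'.card ≤ ell →
      ∑ x ∈ S, ∑ y ∈ S', a x y ≤ (1 - h) * d * (((S.card : ℝ) + S'.card) / 2)) :
    ∀ (n : ℕ) (p q : V → ℝ), (∀ x, 0 ≤ p x) → (∀ x, 0 ≤ q x) →
      univ.filter (fun x => p x ≠ 0) ⊆ U0 → univ.filter (fun x => q x ≠ 0) ⊆ U0 →
      (univ.filter (fun x => p x ≠ 0)).card ≤ ell → (univ.filter (fun x => q x ≠ 0)).card ≤ ell →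
      (univ.filter (fun x => p x ≠ 0)).card + (univ.filter (fun x => q x ≠ 0)).card ≤ n →
      ∑ x, ∑ y, a x y * min (p x) (q y) ≤ (1 - h) * d * ((∑ x, p x + ∑ x, q x) / 2) := by
  intro n
  induction n with
  | zero =>
    intro p q hp hq _ _ _ _ hn
    have h2 : (univ.filter (fun x => p x ≠ 0)).card = 0 := by omega
    rw [Finset.card_eq_zero, Finset.filter_eq_empty_iff] at h2
    have h3 : ∀ x, p x = 0 := fun x => by
      by_contra hx
      exact h2 (Finset.mem_univ x) hx
    have h4 : ∑ x, ∑ y, a x y * min (p x) (q y) = 0 := by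
      refine Finset.sum_eq_zero (fun x _ => Finset.sum_eq_zero (fun y _ => ?_))
      rw [h3 x, min_eq_left (hq y), mul_zero]
    rw [h4]
    have h5 : 0 ≤ ∑ x, p x := Finset.sum_nonneg (fun x _ => hp x)
    have h6 : 0 ≤ ∑ x, q x := Finset.sum_nonneg (fun x _ => hq x)
    have h7 : 0 ≤ (1 - h) * d := mul_nonneg (by linarith) hd.le
    exact mul_nonneg h7 (by linarith)
  | succ n ih =>
    intro p q hp hq hpU hqU hpl hql hn
    have hs5 : 0 ≤ ∑ x, p x := Finset.sum_nonneg (fun x _ => hp x)
    have hs6 : 0 ≤ ∑ x, q x := Finset.sum_nonneg (fun x _ => hq x)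
    have hs7 : 0 ≤ (1 - h) * d := mul_nonneg (by linarith) hd.le
    rcases (univ.filter (fun x => p x ≠ 0)).eq_empty_or_nonempty with h2 | h2
    · rw [Finset.filter_eq_empty_iff] at h2
      have h3 : ∀ x, p x = 0 := fun x => by
        by_contra hx
        exact h2 (Finset.mem_univ x) hx
      have h4 : ∑ x, ∑ y, a x y * min (p x) (q y) = 0 := by
        refine Finset.sum_eq_zero (fun x _ => Finset.sum_eq_zero (fun y _ => ?_))
        rw [h3 x, min_eq_left (hq y), mul_zero]
      rw [h4]
      exact mul_nonneg hs7 (by linarith)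
    rcases (univ.filter (fun x => q x ≠ 0)).eq_empty_or_nonempty with h2' | h2'
    · rw [Finset.filter_eq_empty_iff] at h2'
      have h3 : ∀ x, q x = 0 := fun x => by
        by_contra hx
        exact h2' (Finset.mem_univ x) hx
      have h4 : ∑ x, ∑ y, a x y * min (p x) (q y) = 0 := by
        refine Finset.sum_eq_zero (fun x _ => Finset.sum_eq_zero (fun y _ => ?_))
        rw [h3 y, min_eq_right (hp x), mul_zero]
      rw [h4]
      exact mul_nonneg hs7 (by linarith)
    obtain ⟨x0, hx0, hx0m⟩ := Finset.exists_min_image _ p h2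
    obtain ⟨y0, hy0, hy0m⟩ := Finset.exists_min_image _ q h2'
    obtain ⟨S, hS⟩ : ∃ S, S = univ.filter (fun x => p x ≠ 0) := ⟨_, rfl⟩
    obtain ⟨S', hS'⟩ : ∃ S', S' = univ.filter (fun x => q x ≠ 0) := ⟨_, rfl⟩
    rw [← hS] at hx0 hx0m hpU hpl hn
    rw [← hS'] at hy0 hy0m hqU hql hn
    have hmS : ∀ x, x ∈ S ↔ p x ≠ 0 := fun x => by rw [hS]; simp
    have hmS' : ∀ x, x ∈ S' ↔ q x ≠ 0 := fun x => by rw [hS']; simp
    obtain ⟨m, hm⟩ : ∃ m, m = min (p x0) (q y0) := ⟨_, rfl⟩
    have hm0 : 0 < m := by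
      rw [hm]
      exact lt_min (lt_of_le_of_ne (hp x0) (Ne.symm ((hmS x0).1 hx0)))
        (lt_of_le_of_ne (hq y0) (Ne.symm ((hmS' y0).1 hy0)))
    have hmp : ∀ x ∈ S, m ≤ p x := fun x hx => by
      rw [hm]
      exact (min_le_left _ _).trans (hx0m x hx)
    have hmq : ∀ x ∈ S', m ≤ q x := fun x hx => by
      rw [hm]
      exact (min_le_right _ _).trans (hy0m x hx)
    let p' : V → ℝ := fun x => if x ∈ S then p x - m else 0
    let q' : V → ℝ := fun x => if x ∈ S' then q x - m else 0
    have hp' : ∀ x, 0 ≤ p' x := by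
      intro x
      simp only [p']
      split_ifs with hx
      · linarith [hmp x hx]
      · exact le_rfl
    have hq' : ∀ x, 0 ≤ q' x := by
      intro x
      simp only [q']
      split_ifs with hx
      · linarith [hmq x hx]
      · exact le_rfl
    have hps : univ.filter (fun x => p' x ≠ 0) ⊆ S := by
      intro x hx
      simp only [Finset.mem_filter, Finset.mem_univ, true_and] at hx
      by_contra hxS
      exact hx (if_neg hxS)
    have hqs : univ.filter (fun x => q' x ≠ 0) ⊆ S' := by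
      intro x hx
      simp only [Finset.mem_filter, Finset.mem_univ, true_and] at hx
      by_contra hxS
      exact hx (if_neg hxS)
    have hcard : (univ.filter (fun x => p' x ≠ 0)).card + (univ.filter (fun x => q' x ≠ 0)).card
        < S.card + S'.card := by
      rcases le_total (p x0) (q y0) with hle | hle
      · have h3 : m = p x0 := by rw [hm, min_eq_left hle]
        have h4 : univ.filter (fun x => p' x ≠ 0) ⊂ S := by
          refine Finset.ssubset_iff_subset_ne.2 ⟨hps, fun he => ?_⟩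
          have h5 : x0 ∈ univ.filter (fun x => p' x ≠ 0) := by rw [he]; exact hx0
          simp only [Finset.mem_filter, Finset.mem_univ, true_and] at h5
          apply h5
          simp only [p']
          rw [if_pos hx0, h3, sub_self]
        have h6 := Finset.card_lt_card h4
        have h7 := Finset.card_le_card hqs
        omega
      · have h3 : m = q y0 := by rw [hm, min_eq_right hle]
        have h4 : univ.filter (fun x => q' x ≠ 0) ⊂ S' := by
          refine Finset.ssubset_iff_subset_ne.2 ⟨hqs, fun he => ?_⟩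
          have h5 : y0 ∈ univ.filter (fun x => q' x ≠ 0) := by rw [he]; exact hy0
          simp only [Finset.mem_filter, Finset.mem_univ, true_and] at h5
          apply h5
          simp only [q']
          rw [if_pos hy0, h3, sub_self]
        have h6 := Finset.card_lt_card h4
        have h7 := Finset.card_le_card hps
        omega
    have hih := ih p' q' hp' hq' (hps.trans hpU) (hqs.trans hqU)
      ((Finset.card_le_card hps).trans hpl) ((Finset.card_le_card hqs).trans hql) (by omega)
    have hsum1 : ∑ x, p x = ∑ x, p' x + m * S.card := by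
      have h3 : ∀ x, p x = p' x + if x ∈ S then m else 0 := by
        intro x
        simp only [p']
        split_ifs with hx
        · ring
        · rw [hmS] at hx
          push Not at hx
          rw [hx]
          ring
      rw [Finset.sum_congr rfl (fun x _ => h3 x), Finset.sum_add_distrib, ← Finset.sum_filter]
      simp [mul_comm]
    have hsum2 : ∑ x, q x = ∑ x, q' x + m * S'.card := by
      have h3 : ∀ x, q x = q' x + if x ∈ S' then m else 0 := by
        intro x
        simp only [q']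
        split_ifs with hx
        · ring
        · rw [hmS'] at hx
          push Not at hx
          rw [hx]
          ring
      rw [Finset.sum_congr rfl (fun x _ => h3 x), Finset.sum_add_distrib, ← Finset.sum_filter]
      simp [mul_comm]
    have hmin : ∀ x y, min (p x) (q y) = min (p' x) (q' y) +
        if x ∈ S then (if y ∈ S' then m else 0) else 0 := by
      intro x y
      by_cases hx : x ∈ S
      · by_cases hy : y ∈ S'
        · simp only [p', q']
          rw [if_pos hx, if_pos hy, if_pos hx, if_pos hy, min_sub_sub_right]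
          ring
        · have h3 : q y = 0 := by
            rw [hmS'] at hy
            push Not at hy
            exact hy
          have h4 : q' y = 0 := if_neg hy
          rw [if_pos hx, if_neg hy, h3, h4, min_eq_right (hp x), min_eq_right (hp' x), add_zero]
      · have h3 : p x = 0 := by
          rw [hmS] at hx
          push Not at hx
          exact hx
        have h4 : p' x = 0 := if_neg hx
        rw [if_neg hx, h3, h4, min_eq_left (hq y), min_eq_left (hq' y), add_zero]
    have hsplit : ∑ x, ∑ y, a x y * min (p x) (q y) =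
        ∑ x, ∑ y, a x y * min (p' x) (q' y) + m * ∑ x ∈ S, ∑ y ∈ S', a x y := by
      have h3 : m * ∑ x ∈ S, ∑ y ∈ S', a x y =
          ∑ x, ∑ y, a x y * (if x ∈ S then (if y ∈ S' then m else 0) else 0) := by
        rw [Finset.mul_sum]
        have h4 : ∀ x, (∑ y, a x y * (if x ∈ S then (if y ∈ S' then m else 0) else 0)) =
            if x ∈ S then m * ∑ y ∈ S', a x y else 0 := by
          intro x
          split_ifs with hx
          · rw [Finset.mul_sum]
            simp only [mul_ite, mul_zero]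
            rw [← Finset.sum_filter]
            simp only [Finset.filter_univ_mem]
            exact Finset.sum_congr rfl (fun y _ => mul_comm _ _)
          · simp
        rw [Finset.sum_congr rfl (fun x _ => h4 x), ← Finset.sum_filter]
        simp only [Finset.filter_univ_mem]
      rw [h3, ← Finset.sum_add_distrib]
      refine Finset.sum_congr rfl (fun x _ => ?_)
      rw [← Finset.sum_add_distrib]
      refine Finset.sum_congr rfl (fun y _ => ?_)
      rw [hmin x y]
      ring
    have hS2 := hexp S hpU S' hqU hpl hql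
    have hS3 := mul_le_mul_of_nonneg_left hS2 hm0.le
    rw [hsplit, hsum1, hsum2]
    have h9 : (1 - h) * d * ((∑ x, p' x + m * S.card + (∑ x, q' x + m * S'.card)) / 2) =
        (1 - h) * d * ((∑ x, p' x + ∑ x, q' x) / 2) +
          m * ((1 - h) * d * (((S.card : ℝ) + S'.card) / 2)) := by ring
    rw [h9]
    exact add_le_add hih hS3

theorem kk2 {V : Type} [Fintype V] (a : V → V → ℝ) (d h : ℝ) (ell : ℕ)
    (ha : ∀ x y, 0 ≤ a x y) (hd : 0 < d) (h0 : 0 ≤ h) (h1 : h ≤ 1)
    (hr : ∀ x, ∑ y, a x y ≤ d) (hc : ∀ y, ∑ x, a x y ≤ d) (U0 : Finset V)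
    (hexp : ∀ S ⊆ U0, ∀ S' ⊆ U0, S.card ≤ ell → S'.card ≤ ell →
      ∑ x ∈ S, ∑ y ∈ S', a x y ≤ (1 - h) * d * (((S.card : ℝ) + S'.card) / 2))
    (u w : V → ℝ) (hu : ∀ x, 0 ≤ u x) (hw : ∀ x, 0 ≤ w x)
    (hsu : ∃ S ⊆ U0, S.card ≤ ell ∧ ∀ x, x ∉ S → u x = 0)
    (hsw : ∃ S ⊆ U0, S.card ≤ ell ∧ ∀ x, x ∉ S → w x = 0) :
    ∑ x, ∑ y, a x y * u x * w y ≤
      d * (1 - h ^ 2 / 2) * ((∑ x, u x ^ 2 + ∑ x, w x ^ 2) / 2) := by
  obtain ⟨S, hSU, hSc, hS0⟩ := hsu
  obtain ⟨S', hSU', hSc', hS0'⟩ := hsw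
  have hs1 : univ.filter (fun x => u x ^ 2 ≠ 0) ⊆ S := by
    intro x hx
    simp only [Finset.mem_filter, Finset.mem_univ, true_and] at hx
    by_contra hxS
    exact hx (by rw [hS0 x hxS]; ring)
  have hs2 : univ.filter (fun x => w x ^ 2 ≠ 0) ⊆ S' := by
    intro x hx
    simp only [Finset.mem_filter, Finset.mem_univ, true_and] at hx
    by_contra hxS
    exact hx (by rw [hS0' x hxS]; ring)
  have hlc := kk2_lc a d h ell hd h1 U0 hexp _ (fun x => u x ^ 2) (fun x => w x ^ 2)
    (fun x => sq_nonneg _) (fun x => sq_nonneg _) (hs1.trans hSU) (hs2.trans hSU')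
    ((Finset.card_le_card hs1).trans hSc) ((Finset.card_le_card hs2).trans hSc') le_rfl
  obtain ⟨M, hM⟩ : ∃ M, M = ∑ x, ∑ y, a x y * min (u x ^ 2) (w y ^ 2) := ⟨_, rfl⟩
  obtain ⟨X, hX⟩ : ∃ X, X = ∑ x, ∑ y, a x y * max (u x ^ 2) (w y ^ 2) := ⟨_, rfl⟩
  rw [← hM] at hlc
  have hMX : M + X ≤ d * (∑ x, u x ^ 2 + ∑ x, w x ^ 2) := by
    have h2 : M + X = ∑ x, u x ^ 2 * (∑ y, a x y) + ∑ y, w y ^ 2 * ∑ x, a x y := by
      have h3 : ∑ y, w y ^ 2 * ∑ x, a x y = ∑ x, ∑ y, a x y * w y ^ 2 := by
        rw [Finset.sum_comm]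
        refine Finset.sum_congr rfl (fun y _ => ?_)
        rw [Finset.mul_sum]
        exact Finset.sum_congr rfl (fun x _ => mul_comm _ _)
      rw [h3, hM, hX, ← Finset.sum_add_distrib, ← Finset.sum_add_distrib]
      refine Finset.sum_congr rfl (fun x _ => ?_)
      rw [← Finset.sum_add_distrib, Finset.mul_sum, ← Finset.sum_add_distrib]
      refine Finset.sum_congr rfl (fun y _ => ?_)
      rw [← mul_add, min_add_max]
      ring
    have h4 : ∑ x, u x ^ 2 * (∑ y, a x y) ≤ ∑ x, u x ^ 2 * d :=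
      Finset.sum_le_sum (fun x _ => mul_le_mul_of_nonneg_left (hr x) (sq_nonneg _))
    have h5 : ∑ y, w y ^ 2 * (∑ x, a x y) ≤ ∑ y, w y ^ 2 * d :=
      Finset.sum_le_sum (fun y _ => mul_le_mul_of_nonneg_left (hc y) (sq_nonneg _))
    rw [← Finset.sum_mul] at h4 h5
    rw [h2]
    linarith
  have h1h : (0 : ℝ) < 1 + h := by linarith
  obtain ⟨c, hc1⟩ : ∃ c : ℝ, c = 1 / (1 + h) := ⟨_, rfl⟩
  have hc2 : (1 + h) * c = 1 := by rw [hc1]; field_simp
  have hc0 : 0 < c := by rw [hc1]; positivity
  have hcle : c ≤ 1 := by nlinarith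
  have hmain : ∑ x, ∑ y, a x y * u x * w y ≤ ((1 + h) * M + c * X) / 2 := by
    have h2 : ((1 + h) * M + c * X) / 2 = ∑ x, ∑ y, a x y *
        (((1 + h) * min (u x ^ 2) (w y ^ 2) + c * max (u x ^ 2) (w y ^ 2)) / 2) := by
      rw [hM, hX, Finset.mul_sum, Finset.mul_sum, ← Finset.sum_add_distrib, Finset.sum_div]
      refine Finset.sum_congr rfl (fun x _ => ?_)
      rw [Finset.mul_sum, Finset.mul_sum, ← Finset.sum_add_distrib, Finset.sum_div]
      exact Finset.sum_congr rfl (fun y _ => by ring)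
    rw [h2]
    refine Finset.sum_le_sum (fun x _ => Finset.sum_le_sum (fun y _ => ?_))
    rw [mul_assoc]
    refine mul_le_mul_of_nonneg_left ?_ (ha x y)
    have key : ∀ r s : ℝ, r * s ≤ ((1 + h) * r ^ 2 + c * s ^ 2) / 2 := by
      intro r s
      have h3 : 0 ≤ c * ((1 + h) * r - s) ^ 2 := mul_nonneg hc0.le (sq_nonneg _)
      have h4 : c * ((1 + h) * r - s) ^ 2 =
          ((1 + h) * c) * (1 + h) * r ^ 2 - 2 * ((1 + h) * c) * (r * s) + c * s ^ 2 := by ring
      rw [h4, hc2] at h3
      linarith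
    rcases le_total (u x) (w y) with hle | hle
    · have h3 : u x ^ 2 ≤ w y ^ 2 := pow_le_pow_left₀ (hu x) hle 2
      rw [min_eq_left h3, max_eq_right h3]
      exact key _ _
    · have h3 : w y ^ 2 ≤ u x ^ 2 := pow_le_pow_left₀ (hw y) hle 2
      rw [min_eq_right h3, max_eq_left h3, mul_comm (u x)]
      exact key _ _
  refine hmain.trans ?_
  obtain ⟨E, hE⟩ : ∃ E, E = (∑ x, u x ^ 2 + ∑ x, w x ^ 2) / 2 := ⟨_, rfl⟩
  have hE2 : ∑ x, u x ^ 2 + ∑ x, w x ^ 2 = 2 * E := by rw [hE]; ring
  rw [hE2] at hlc hMX ⊢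
  have hlc' : M ≤ (1 - h) * (d * E) := by linarith
  have h2 : 0 ≤ 1 + h - c := by linarith
  have h3 := mul_le_mul_of_nonneg_left hlc' h2
  have h4 := mul_le_mul_of_nonneg_left hMX hc0.le
  have h5 : (1 + h - c) * ((1 - h) * (d * E)) + c * (d * (2 * E)) =
      (1 - h ^ 2 + (1 + h) * c) * (d * E) := by ring
  rw [hc2] at h5
  nlinarith

end Pool.Agent.H64.LN
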