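import Pool.Agent.H64.LN.K2

/-!
ROW LNK3. One step of the kernel contracts the square sum, up to `4 / ell`.
PROOF. `g = stp a d f ≥ 0`, `∑ g = (1/d) ∑ x, f x ∑ y, a x y ≤ ∑ f ≤ 1`. `∑ g² = (1/d) ∑ x, ∑ y, a x y f x g y`. Let `f₁ x = if 1/ell ≤ f x then f x else 0`, `g₁` in the same way; the support of `f₁` is `{x : 1/ell ≤ f x}`, it is contained in `U0`
(`f x > 0`) and has at most `ell` elements (`∑ f ≤ 1`, each element contributes `≥ 1/ell`); the same for `g₁`. `f x g y ≤ f₁ x g₁ y + (1/ell) (f x + g y)` (if `f x ≥ 1/ell` and `g y ≥ 1/ell` the first term is `f x g y`; if `f x < 1/ell`: `f x g y ≤ g y / ell`; if `g y < 1/ell`: `f x g y ≤ f x / ell`).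
So `∑ g² ≤ (1/d) ∑∑ a f₁ g₁ + (1/(d ell)) (∑ x, f x ∑ y, a x y + ∑ y, g y ∑ x, a x y) ≤ (1-h²/2)(∑ f₁² + ∑ g₁²)/2 + 2/ell` (`kk2`) `≤ c (F + Q)/2 + 2/ell` with `c = 1-h²/2 ∈ [1/2, 1]`, `F = ∑ f²`, `Q = ∑ g²`.
Hence `Q (2 - c) ≤ c F + 4/ell` and, as `2 - c ≥ 1` and `Q ≥ 0`, `Q ≤ Q (2 - c) ≤ c F + 4/ell`.
-/

set_option autoImplicit false

namespace Pool.Agent.H64.LN

open Finset Classical

theorem stp_sum {V : Type} [Fintype V] (a : V → V → ℝ) (d : ℝ) (hd : 0 < d)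
    (hr : ∀ x, ∑ y, a x y ≤ d) (f : V → ℝ) (hf : ∀ x, 0 ≤ f x) :
    ∑ x, stp a d f x ≤ ∑ x, f x := by
  simp only [stp]
  rw [← Finset.sum_div, div_le_iff₀ hd, Finset.sum_comm, Finset.sum_mul]
  refine Finset.sum_le_sum (fun x _ => ?_)
  rw [← Finset.mul_sum]
  exact mul_le_mul_of_nonneg_left (hr x) (hf x)

theorem stp_nn {V : Type} [Fintype V] (a : V → V → ℝ) (d : ℝ) (ha : ∀ x y, 0 ≤ a x y)
    (hd : 0 < d) (f : V → ℝ) (hf : ∀ x, 0 ≤ f x) (x : V) : 0 ≤ stp a d f x :=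
  div_nonneg (Finset.sum_nonneg (fun y _ => mul_nonneg (hf y) (ha y x))) hd.le

private theorem kk3_card {V : Type} [Fintype V] (ell : ℕ) (hell : 1 ≤ ell) (f : V → ℝ)
    (hf : ∀ x, 0 ≤ f x) (hs : ∑ x, f x ≤ 1) :
    (univ.filter (fun x => 1 / (ell : ℝ) ≤ f x)).card ≤ ell := by
  have he : (0 : ℝ) < ell := by exact_mod_cast hell
  have h1 : ∑ x ∈ univ.filter (fun x => 1 / (ell : ℝ) ≤ f x), (1 / (ell : ℝ)) ≤ ∑ x, f x := by
    refine (Finset.sum_le_sum (fun x hx => (Finset.mem_filter.1 hx).2)).trans ?_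
    exact Finset.sum_le_sum_of_subset_of_nonneg (Finset.filter_subset _ _) (fun x _ _ => hf x)
  rw [Finset.sum_const, nsmul_eq_mul] at h1
  have h2 : ((univ.filter (fun x => 1 / (ell : ℝ) ≤ f x)).card : ℝ) * (1 / ell) ≤ 1 := h1.trans hs
  rw [mul_one_div, div_le_one he] at h2
  exact_mod_cast h2

theorem kk3 {V : Type} [Fintype V] (a : V → V → ℝ) (d h : ℝ) (ell : ℕ) (hell : 1 ≤ ell)
    (ha : ∀ x y, 0 ≤ a x y) (hd : 0 < d) (h0 : 0 ≤ h) (h1 : h ≤ 1)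
    (hr : ∀ x, ∑ y, a x y ≤ d) (hc : ∀ y, ∑ x, a x y ≤ d) (U0 : Finset V)
    (hexp : ∀ S ⊆ U0, ∀ S' ⊆ U0, S.card ≤ ell → S'.card ≤ ell →
      ∑ x ∈ S, ∑ y ∈ S', a x y ≤ (1 - h) * d * (((S.card : ℝ) + S'.card) / 2))
    (f : V → ℝ) (hf : ∀ x, 0 ≤ f x) (hs : ∑ x, f x ≤ 1) (hf0 : ∀ x, x ∉ U0 → f x = 0)
    (hg0 : ∀ x, x ∉ U0 → stp a d f x = 0) :
    ∑ x, stp a d f x ^ 2 ≤ (1 - h ^ 2 / 2) * ∑ x, f x ^ 2 + 4 / ell := by
  have he : (0 : ℝ) < ell := by exact_mod_cast hell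
  obtain ⟨g, hg⟩ : ∃ g, g = stp a d f := ⟨_, rfl⟩
  rw [← hg] at hg0 ⊢
  have hgn : ∀ x, 0 ≤ g x := by
    rw [hg]
    exact stp_nn a d ha hd f hf
  have hgs : ∑ x, g x ≤ 1 := by
    rw [hg]
    exact (stp_sum a d hd hr f hf).trans hs
  have hgdef : ∀ y, d * g y = ∑ x, f x * a x y := by
    intro y
    rw [hg]
    simp only [stp]
    field_simp
  let f1 : V → ℝ := fun x => if 1 / (ell : ℝ) ≤ f x then f x else 0
  let g1 : V → ℝ := fun x => if 1 / (ell : ℝ) ≤ g x then g x else 0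
  have hf1n : ∀ x, 0 ≤ f1 x := fun x => by
    simp only [f1]
    split_ifs
    · exact hf x
    · exact le_rfl
  have hg1n : ∀ x, 0 ≤ g1 x := fun x => by
    simp only [g1]
    split_ifs
    · exact hgn x
    · exact le_rfl
  have hsub : ∀ (k : V → ℝ), (∀ x, x ∉ U0 → k x = 0) →
      univ.filter (fun x => 1 / (ell : ℝ) ≤ k x) ⊆ U0 := by
    intro k hk x hx
    by_contra hxU
    rw [Finset.mem_filter, hk x hxU] at hx
    have h3 : 0 < 1 / (ell : ℝ) := by positivity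
    linarith [hx.2]
  have hk2 := kk2 a d h ell ha hd h0 h1 hr hc U0 hexp f1 g1 hf1n hg1n
    ⟨_, hsub f hf0, kk3_card ell hell f hf hs, fun x hx => by
      simp only [Finset.mem_filter, Finset.mem_univ, true_and] at hx
      exact if_neg hx⟩
    ⟨_, hsub g hg0, kk3_card ell hell g hgn hgs, fun x hx => by
      simp only [Finset.mem_filter, Finset.mem_univ, true_and] at hx
      exact if_neg hx⟩
  have hpt : ∀ x y, f x * g y ≤ f1 x * g1 y + (1 / ell) * (f x + g y) := by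
    intro x y
    have hell0 : 0 < 1 / (ell : ℝ) := by positivity
    simp only [f1, g1]
    have hfx := hf x
    have hgy := hgn y
    split_ifs with h3 h4 h4
    · nlinarith
    · push Not at h4
      nlinarith
    · push Not at h3
      nlinarith
    · push Not at h3
      nlinarith
  have hQ : d * ∑ x, g x ^ 2 = ∑ x, ∑ y, a x y * (f x * g y) := by
    rw [Finset.mul_sum, Finset.sum_comm]
    refine Finset.sum_congr rfl (fun y _ => ?_)
    have h3 : d * g y ^ 2 = (d * g y) * g y := by ring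
    rw [h3, hgdef y, Finset.sum_mul]
    exact Finset.sum_congr rfl (fun x _ => by ring)
  have hup : d * ∑ x, g x ^ 2 ≤ ∑ x, ∑ y, a x y * f1 x * g1 y + (1 / ell) * (d + d) := by
    have h3 : ∑ x, ∑ y, a x y * (f x * g y) ≤
        ∑ x, ∑ y, a x y * (f1 x * g1 y + (1 / ell) * (f x + g y)) :=
      Finset.sum_le_sum (fun x _ => Finset.sum_le_sum (fun y _ =>
        mul_le_mul_of_nonneg_left (hpt x y) (ha x y)))
    have h4 : ∑ x, ∑ y, a x y * (f1 x * g1 y + (1 / ell) * (f x + g y)) =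
        ∑ x, ∑ y, a x y * f1 x * g1 y +
          (1 / ell) * (∑ x, f x * ∑ y, a x y + ∑ y, g y * ∑ x, a x y) := by
      have h5 : ∑ y, g y * ∑ x, a x y = ∑ x, ∑ y, a x y * g y := by
        rw [Finset.sum_comm]
        refine Finset.sum_congr rfl (fun y _ => ?_)
        rw [Finset.mul_sum]
        exact Finset.sum_congr rfl (fun x _ => mul_comm _ _)
      rw [h5, ← Finset.sum_add_distrib, Finset.mul_sum, ← Finset.sum_add_distrib]
      refine Finset.sum_congr rfl (fun x _ => ?_)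
      rw [Finset.mul_sum, ← Finset.sum_add_distrib, Finset.mul_sum, ← Finset.sum_add_distrib]
      exact Finset.sum_congr rfl (fun y _ => by ring)
    have h6 : ∑ x, f x * ∑ y, a x y ≤ d := by
      calc ∑ x, f x * ∑ y, a x y ≤ ∑ x, f x * d :=
            Finset.sum_le_sum (fun x _ => mul_le_mul_of_nonneg_left (hr x) (hf x))
        _ = (∑ x, f x) * d := by rw [Finset.sum_mul]
        _ ≤ 1 * d := mul_le_mul_of_nonneg_right hs hd.le
        _ = d := one_mul d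
    have h7 : ∑ y, g y * ∑ x, a x y ≤ d := by
      calc ∑ y, g y * ∑ x, a x y ≤ ∑ y, g y * d :=
            Finset.sum_le_sum (fun y _ => mul_le_mul_of_nonneg_left (hc y) (hgn y))
        _ = (∑ y, g y) * d := by rw [Finset.sum_mul]
        _ ≤ 1 * d := mul_le_mul_of_nonneg_right hgs hd.le
        _ = d := one_mul d
    rw [hQ]
    refine h3.trans ?_
    rw [h4]
    have h8 : (1 / (ell : ℝ)) * (∑ x, f x * ∑ y, a x y + ∑ y, g y * ∑ x, a x y) ≤
        (1 / ell) * (d + d) := mul_le_mul_of_nonneg_left (add_le_add h6 h7) (by positivity)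
    linarith
  have hF1 : ∑ x, f1 x ^ 2 ≤ ∑ x, f x ^ 2 := by
    refine Finset.sum_le_sum (fun x _ => ?_)
    simp only [f1]
    split_ifs
    · exact le_rfl
    · simpa using sq_nonneg (f x)
  have hG1 : ∑ x, g1 x ^ 2 ≤ ∑ x, g x ^ 2 := by
    refine Finset.sum_le_sum (fun x _ => ?_)
    simp only [g1]
    split_ifs
    · exact le_rfl
    · simpa using sq_nonneg (g x)
  obtain ⟨F, hFd⟩ : ∃ F, F = ∑ x, f x ^ 2 := ⟨_, rfl⟩
  obtain ⟨Q, hQd⟩ : ∃ Q, Q = ∑ x, g x ^ 2 := ⟨_, rfl⟩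
  obtain ⟨c, hcd⟩ : ∃ c : ℝ, c = 1 - h ^ 2 / 2 := ⟨_, rfl⟩
  have hQ0 : 0 ≤ Q := by
    rw [hQd]
    exact Finset.sum_nonneg (fun x _ => sq_nonneg _)
  have hh2 : h ^ 2 ≤ 1 := by nlinarith
  have hc0 : 0 ≤ c := by rw [hcd]; linarith
  have hc1 : c ≤ 1 := by rw [hcd]; nlinarith [sq_nonneg h]
  rw [← hcd] at hk2
  rw [← hFd] at hF1
  rw [← hQd] at hG1 hup
  rw [← hFd, ← hQd, ← hcd]
  have h3 : d * c * ((∑ x, f1 x ^ 2 + ∑ x, g1 x ^ 2) / 2) ≤ d * c * ((F + Q) / 2) :=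
    mul_le_mul_of_nonneg_left (by linarith) (mul_nonneg hd.le hc0)
  have h4 : d * Q ≤ d * (c * ((F + Q) / 2) + 2 / ell) := by
    have h5 : d * (c * ((F + Q) / 2) + 2 / ell) = d * c * ((F + Q) / 2) + (1 / ell) * (d + d) := by
      ring
    rw [h5]
    linarith
  have h5 : Q ≤ c * ((F + Q) / 2) + 2 / ell := le_of_mul_le_mul_left h4 hd
  have h6 : (4 : ℝ) / ell = 2 * (2 / ell) := by ring
  rw [h6]
  nlinarith

end Pool.Agent.H64.LN
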