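import Mathlib

/-!
ROW LNK4. The recursion `q_{i+1} ≤ (1-κ) q_i + 4/ell`.
PROOF. By induction `q i ≤ (1-κ)^i + 4/(κ ell)` for `i ≤ k`: `(1-κ)((1-κ)^i + 4/(κ ell)) + 4/ell = (1-κ)^(i+1) + 4/(κ ell) - 4/ell + 4/ell`. At `k`: `(1-κ)^k ≤ exp (-κ k) ≤ exp (-log ell) = 1/ell` (`Real.one_sub_le_exp_neg`, `Real.exp_nat_mul`).
-/

set_option autoImplicit false

namespace Pool.Agent.H64.LN

theorem kk4 (κ ell : ℝ) (hκ : 0 < κ) (hκ1 : κ ≤ 1) (hell : 1 ≤ ell) (k : ℕ) (q : ℕ → ℝ)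
    (hq0 : q 0 ≤ 1) (hq : ∀ i < k, q (i + 1) ≤ (1 - κ) * q i + 4 / ell)
    (hk : Real.log ell ≤ κ * k) : q k ≤ 1 / ell + 4 / (κ * ell) := by
  have he : 0 < ell := by linarith
  have h1 : ∀ i ≤ k, q i ≤ (1 - κ) ^ i + 4 / (κ * ell) := by
    intro i
    induction i with
    | zero =>
      intro _
      have h2 : 0 ≤ 4 / (κ * ell) := by positivity
      rw [pow_zero]
      linarith
    | succ i ih =>
      intro hi
      have h2 := ih (by omega)
      have h3 := hq i (by omega)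
      have h4 := mul_le_mul_of_nonneg_left h2 (sub_nonneg.2 hκ1)
      have h5 : (1 - κ) * ((1 - κ) ^ i + 4 / (κ * ell)) + 4 / ell =
          (1 - κ) ^ (i + 1) + 4 / (κ * ell) := by
        rw [pow_succ]
        field_simp
        ring
      linarith
  have h2 := h1 k le_rfl
  have h3 : (1 - κ) ^ k ≤ 1 / ell := by
    calc (1 - κ) ^ k ≤ (Real.exp (-κ)) ^ k :=
          pow_le_pow_left₀ (sub_nonneg.2 hκ1) (Real.one_sub_le_exp_neg κ) k
      _ = Real.exp (-(κ * k)) := by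
          rw [← Real.exp_nat_mul]
          congr 1
          ring
      _ ≤ Real.exp (-Real.log ell) := Real.exp_le_exp.2 (by linarith)
      _ = 1 / ell := by rw [Real.exp_neg, Real.exp_log he, one_div]
  linarith

end Pool.Agent.H64.LN
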