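import Pool.Agent.H64.LN.K3
import Pool.Agent.H64.LN.K4
import Pool.Agent.H2.LN.Defs

/-!
Iterates of a kernel from a point: mixing. Consequences of the gap for pairs of sets.
-/

set_option autoImplicit false

namespace Pool.Agent.H64.LN

open Finset Classical
open Pool.Agent.H65.GI
open Pool.Agent.H2.LN

/-- the iterates of the kernel from the point `v` -/
noncomputable def itr {V : Type} [Fintype V] (a : V → V → ℝ) (d : ℝ) (v : V) : ℕ → V → ℝ
  | 0 => fun x => if x = v then 1 else 0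
  | k + 1 => stp a d (itr a d v k)

theorem itr_nn {V : Type} [Fintype V] (a : V → V → ℝ) (d : ℝ) (ha : ∀ x y, 0 ≤ a x y)
    (hd : 0 < d) (v : V) (k : ℕ) (x : V) : 0 ≤ itr a d v k x := by
  induction k generalizing x with
  | zero =>
    simp only [itr]
    split_ifs <;> norm_num
  | succ k ih => exact stp_nn a d ha hd _ ih x

theorem itr_sum {V : Type} [Fintype V] (a : V → V → ℝ) (d : ℝ) (ha : ∀ x y, 0 ≤ a x y)
    (hd : 0 < d) (hr : ∀ x, ∑ y, a x y ≤ d) (v : V) (k : ℕ) : ∑ x, itr a d v k x ≤ 1 := by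
  induction k with
  | zero => simp [itr]
  | succ k ih => exact (stp_sum a d hd hr _ (itr_nn a d ha hd v k)).trans ih

theorem kk5 {V : Type} [Fintype V] (a : V → V → ℝ) (d h : ℝ) (ell : ℕ) (hell : 1 ≤ ell)
    (ha : ∀ x y, 0 ≤ a x y) (hd : 0 < d) (h0 : 0 < h) (h1 : h ≤ 1)
    (hr : ∀ x, ∑ y, a x y ≤ d) (hc : ∀ y, ∑ x, a x y ≤ d) (U0 : Finset V)
    (hexp : ∀ S ⊆ U0, ∀ S' ⊆ U0, S.card ≤ ell → S'.card ≤ ell →
      ∑ x ∈ S, ∑ y ∈ S', a x y ≤ (1 - h) * d * (((S.card : ℝ) + S'.card) / 2))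
    (v : V) (k : ℕ) (hs : ∀ i ≤ k, ∀ x, x ∉ U0 → itr a d v i x = 0)
    (hk : Real.log ell ≤ h ^ 2 / 2 * k) :
    ∑ x, itr a d v k x ^ 2 ≤ 1 / ell + 8 / (h ^ 2 * ell) := by
  have hell' : (1 : ℝ) ≤ ell := by exact_mod_cast hell
  have hh : h ^ 2 / 2 ≤ 1 := by nlinarith
  have hh0 : 0 < h ^ 2 / 2 := by positivity
  have key := kk4 (h ^ 2 / 2) ell hh0 hh hell' k (fun i => ∑ x, itr a d v i x ^ 2)
    (by simp [itr]) (fun i hi => by
      have := kk3 a d h ell hell ha hd h0.le h1 hr hc U0 hexp (itr a d v i) (itr_nn a d ha hd v i)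
        (itr_sum a d ha hd hr v i) (hs i hi.le) (fun x hx => hs (i + 1) hi x hx)
      exact this) hk
  refine key.trans (le_of_eq ?_)
  congr 1
  field_simp
  norm_num

theorem ee_comm {V : Type} (G : SimpleGraph V) (S S' : Finset V) : ee G S S' = ee G S' S := by
  simp only [ee, Finset.card_filter]
  rw [Finset.sum_comm]
  exact Finset.sum_congr rfl (fun x _ => Finset.sum_congr rfl (fun y _ => by
    simp only [G.adj_comm]))

/-- expansion for pairs of sets from the gap -/
theorem kk1 {V : Type} (G : SimpleGraph V) (N Δ : ℕ) (hG : Gap G N Δ) (S S' : Finset V)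
    (hS : (S ∪ S').card ≤ Δ ^ 13) :
    (ee G S S' : ℝ) ≤ ((Δ : ℝ) - Δ / N) * (((S.card : ℝ) + S'.card) / 2) := by
  have h1 : (∑ x ∈ S, ∑ y ∈ S', if G.Adj x y then 1 else 0) +
      (∑ x ∈ S', ∑ y ∈ S, if G.Adj x y then 1 else 0) ≤
      (∑ x ∈ S ∪ S', ∑ y ∈ S ∪ S', if G.Adj x y then 1 else 0) +
        ∑ x ∈ S ∩ S', ∑ y ∈ S ∩ S', if G.Adj x y then 1 else 0 := by
    have h2 : ∀ (A B U : Finset V), A ⊆ U → B ⊆ U →
        (∑ x ∈ A, ∑ y ∈ B, if G.Adj x y then 1 else 0) =
          ∑ x ∈ U, ∑ y ∈ U, if x ∈ A ∧ y ∈ B ∧ G.Adj x y then 1 else 0 := by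
      intro A B U hA hB
      have h3 : ∀ x, (∑ y ∈ U, if x ∈ A ∧ y ∈ B ∧ G.Adj x y then 1 else 0) =
          if x ∈ A then (∑ y ∈ B, if G.Adj x y then 1 else 0) else 0 := by
        intro x
        by_cases hx : x ∈ A
        · simp only [hx, true_and, if_true]
          rw [← Finset.inter_eq_right.2 hB, ← Finset.filter_mem_eq_inter, Finset.sum_filter]
          refine Finset.sum_congr rfl (fun y hy => ?_)
          by_cases hyB : y ∈ B
          · simp [hyB, hy]
          · simp [hyB]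
        · simp [hx]
      rw [Finset.sum_congr rfl (fun x _ => h3 x), ← Finset.sum_filter,
        Finset.filter_mem_eq_inter, Finset.inter_eq_right.2 hA]
    rw [h2 S S' (S ∪ S') Finset.subset_union_left Finset.subset_union_right,
      h2 S' S (S ∪ S') Finset.subset_union_right Finset.subset_union_left,
      h2 (S ∩ S') (S ∩ S') (S ∪ S') (Finset.inter_subset_left.trans Finset.subset_union_left)
        (Finset.inter_subset_left.trans Finset.subset_union_left),
      ← Finset.sum_add_distrib, ← Finset.sum_add_distrib]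
    refine Finset.sum_le_sum (fun x hx => ?_)
    rw [← Finset.sum_add_distrib, ← Finset.sum_add_distrib]
    refine Finset.sum_le_sum (fun y hy => ?_)
    simp only [Finset.mem_inter]
    by_cases hadj : G.Adj x y
    · by_cases hxS : x ∈ S <;> by_cases hxS' : x ∈ S' <;> by_cases hyS : y ∈ S <;>
        by_cases hyS' : y ∈ S' <;> simp [hxS, hxS', hyS, hyS', hadj]
    · simp [hadj]
  have h3 : ee G S S' + ee G S S' ≤ ee G (S ∪ S') (S ∪ S') + ee G (S ∩ S') (S ∩ S') := by
    have h4 : ee G S S' + ee G S' S ≤ ee G (S ∪ S') (S ∪ S') + ee G (S ∩ S') (S ∩ S') := by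
      simp only [ee, Finset.card_filter]
      exact h1
    rwa [ee_comm G S' S] at h4
  have h5 := hG (S ∪ S') hS
  have h6 := hG (S ∩ S') ((Finset.card_le_card
    (Finset.inter_subset_left.trans Finset.subset_union_left)).trans hS)
  have h7 : ((S ∪ S').card : ℝ) + (S ∩ S').card = S.card + S'.card := by
    exact_mod_cast Finset.card_union_add_card_inter S S'
  have h8 : (ee G S S' : ℝ) + ee G S S' ≤ ee G (S ∪ S') (S ∪ S') + ee G (S ∩ S') (S ∩ S') := by
    exact_mod_cast h3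
  rw [← h7]
  linarith

end Pool.Agent.H64.LN
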