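import Mathlib
import Pool.Agent.H65.GI.Defs

/-!
Project MP_b8729f_LN, blocks R, K, B: local definitions (expansion, kernels, simple random walk).
-/

set_option autoImplicit false

namespace Pool.Agent.H64.LN

open Finset Classical

noncomputable section

/-- one step of the kernel `a / d` applied to a function: `y ↦ (1/d) ∑ x, f x * a x y` -/
def stp {V : Type} [Fintype V] (a : V → V → ℝ) (d : ℝ) (f : V → ℝ) : V → ℝ :=
  fun y => (∑ x, f x * a x y) / d

/-- The matrix of the simple random walk on `H` (rows: `1 / deg`). -/
def srw {V : Type} [Fintype V] (H : SimpleGraph V) : Matrix V V ℝ :=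
  fun x y => if H.Adj x y then 1 / ((univ.filter (fun w => H.Adj x w)).card : ℝ) else 0

/-- The probability that the walk of length `k` from `x` ends in `D`. -/
def hit {V : Type} [Fintype V] (H : SimpleGraph V) (D : Finset V) (k : ℕ) (x : V) : ℝ :=
  ∑ z ∈ D, (srw H ^ k) x z

/-- adjacency as a real function -/
def adjR {V : Type} (H : SimpleGraph V) (x y : V) : ℝ := if H.Adj x y then 1 else 0

end

end Pool.Agent.H64.LN
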